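import Pool.Agent.H779R2.Mo.MDef

set_option autoImplicit false

namespace Pool.Agent.H779R2.Mo

open Pool.Agent.H721R2 Pool.Agent.H779R2.An Filter Topology MeasureTheory
open scoped BigOperators

namespace MArcAux

/-- a maximal separated finite set -/
theorem exists_maximal_sep {Y : Type*} (P : Y → Prop) (R : Y → Y → Prop) (hrefl : ∀ y, R y y)
    (hsymm : ∀ y z, R y z → R z y) (N : ℕ)
    (hb : ∀ Q : Finset Y, (∀ e ∈ Q, P e) → (∀ e ∈ Q, ∀ e' ∈ Q, e ≠ e' → ¬ R e e') → Q.card ≤ N) :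
    ∃ Q : Finset Y, (∀ e ∈ Q, P e) ∧ (∀ e ∈ Q, ∀ e' ∈ Q, e ≠ e' → ¬ R e e') ∧
      ∀ y, P y → ∃ e ∈ Q, R y e := by
  classical
  let T : Set ℕ := {n | ∃ Q : Finset Y, (∀ e ∈ Q, P e) ∧
    (∀ e ∈ Q, ∀ e' ∈ Q, e ≠ e' → ¬ R e e') ∧ Q.card = n}
  have hne : T.Nonempty := ⟨0, ∅, by simp, by simp, rfl⟩
  have hbdd : BddAbove T := ⟨N, by
    rintro n ⟨Q, h1, h2, rfl⟩
    exact hb Q h1 h2⟩
  obtain ⟨Q, h1, h2, h3⟩ := Nat.sSup_mem hne hbdd
  refine ⟨Q, h1, h2, fun y hy => ?_⟩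
  by_contra hcon
  push Not at hcon
  have hyQ : y ∉ Q := fun h => hcon y h (hrefl y)
  have hmem : (insert y Q).card ∈ T := by
    refine ⟨insert y Q, ?_, ?_, rfl⟩
    · intro e he
      rcases Finset.mem_insert.1 he with rfl | he
      · exact hy
      · exact h1 e he
    · intro e he e' he' hne'
      rcases Finset.mem_insert.1 he with h4 | h4
      · rcases Finset.mem_insert.1 he' with h5 | h5
        · exact absurd (h4.trans h5.symm) hne'
        · rw [h4]; exact hcon e' h5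
      · rcases Finset.mem_insert.1 he' with h5 | h5
        · rw [h5]; exact fun h => hcon e h4 (hsymm _ _ h)
        · exact h2 e h4 e' h5 hne'
  have h6 := le_csSup hbdd hmem
  rw [← h3, Finset.card_insert_of_notMem hyQ] at h6
  omega

section

variable {X E : Type*} [MetricSpace X] [NormedAddCommGroup E] [NormedSpace ℝ E]
variable {S : HypSys X E}

theorem cw_le (c : CF S) (k : ℕ) (y : X) : c.cw k y ≤ (1 / 16) ^ k := by
  unfold CF.cw
  have h1 := c.Lp_ge k (S.g.symm^[k] y)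
  have h2 : (0 : ℝ) < 16 ^ k := by positivity
  rw [one_div, inv_pow]
  exact inv_anti₀ h2 h1

theorem Lp_le (c : CF S) (m : ℕ) (x : X) : ‖c.Lp m x‖ ≤ c.M ^ m := by
  unfold CF.Lp
  rw [norm_prod]
  calc _ ≤ ∏ _i ∈ Finset.range m, c.M :=
        Finset.prod_le_prod (fun _ _ => norm_nonneg _) (fun i _ => c.lam_le _)
    _ = c.M ^ m := by simp

theorem cw_rpow_le (c : CF S) (k : ℕ) (y : X) (s : ℝ) (hs : s ≤ 2) :
    c.cw k y ^ s ≤ (c.M ^ k) ^ (2 - s) * c.cw k y ^ 2 := by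
  have hw := c.cw_pos k y
  have h1 : c.cw k y ^ s = (c.cw k y)⁻¹ ^ (2 - s) * c.cw k y ^ 2 := by
    rw [Real.inv_rpow hw.le, ← Real.rpow_neg hw.le, ← Real.rpow_natCast (c.cw k y) 2,
      ← Real.rpow_add hw]
    congr 1
    push_cast
    ring
  rw [h1]
  refine mul_le_mul_of_nonneg_right ?_ (sq_nonneg _)
  refine Real.rpow_le_rpow (inv_nonneg.2 hw.le) ?_ (by linarith)
  unfold CF.cw
  rw [inv_inv]
  exact Lp_le c k _

theorem one_le_cw (c : CF S) (k : ℕ) (y : X) : 1 ≤ c.M ^ k * c.cw k y := by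
  unfold CF.cw
  have h1 := Lp_le c k (S.g.symm^[k] y)
  have h2 := c.Lp_norm_pos k (S.g.symm^[k] y)
  rw [← div_eq_mul_inv, one_le_div h2]
  exact h1

end

end MArcAux

variable {X E : Type*} [MetricSpace X] [CompactSpace X] [NormedAddCommGroup E]
  [InnerProductSpace ℝ E] [FiniteDimensional ℝ E]

set_option maxHeartbeats 4000000 in
/-- W4: arcs with a small `s`-sum, for `s ≤ 2` close to `2`. -/
theorem arc_prop {S : HypSys X E} (c : CF S) (d : ℕ) (hd : 2 ≤ d) (hch : ChartProp S d)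
    (hac : ∀ b : EuclideanSpace ℝ (Fin d), b ≠ 0 →
      ∃ C : ℝ, 0 < C ∧ ∀ (ι : Type) (A : Finset ι) (a : ι → EuclideanSpace ℝ (Fin d)) (w : ι → ℝ)
      (η τ : ℝ), (∀ e ∈ A, 0 ≤ w e) → 0 < η → η ≤ τ →
      ∃ α : ℝ → EuclideanSpace ℝ (Fin d), Continuous α ∧ α 0 = 0 ∧ α 1 = b ∧
        (∀ t ∈ Set.Icc (0 : ℝ) 1, ‖α t‖ ≤ 2 * ‖b‖) ∧
        ∀ A' ⊆ A, (∀ e ∈ A', ∃ t ∈ Set.Icc (0 : ℝ) 1, ‖a e - α t‖ ≤ η) →
          ∑ e ∈ A', w e ≤ C * (η / τ) * ∑ e ∈ A, w e +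
            ∑ e ∈ A with (‖a e‖ ≤ τ ∨ ‖a e - b‖ ≤ τ), w e)
    (hnear : ∀ κ > 0, ∃ ρ > 0, ∃ C : ℝ, 0 < C ∧ ∀ (j k : ℕ) (x : X) (A : Finset X), j ≤ k →
      (∀ e ∈ A, S.SRel ρ (S.g.symm^[j] x) (S.g.symm^[j] e)) →
      (∀ e ∈ A, ∀ e' ∈ A, e ≠ e' → ¬ S.SRel κ (S.g.symm^[k] e) (S.g.symm^[k] e')) →
      ∑ e ∈ A, c.cw k e ^ 2 ≤ C * c.cw j x ^ 2)
    (hlip : ∃ L : ℝ, 1 ≤ L ∧ ∀ ρ > 0, ∃ r > 0, ∀ (j : ℕ) (x e : X),
      S.SRel r x e → dist x e ≤ r * (L⁻¹) ^ j → S.SRel ρ (S.g.symm^[j] x) (S.g.symm^[j] e)) :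
    ∃ s₀ < (2 : ℝ), ∀ s, s₀ < s → s ≤ 2 → ArcProp c s := by
  classical
  obtain ⟨L, hL1, hlip⟩ := hlip
  obtain ⟨q₀, hq₀⟩ := pow_unbounded_of_one_lt L (one_lt_two : (1 : ℝ) < 2)
  obtain ⟨q, hqdef⟩ : ∃ q : ℕ, q = q₀ + 2 := ⟨_, rfl⟩
  have hLq : L ≤ 2 ^ q := by
    refine hq₀.le.trans ?_
    exact pow_le_pow_right₀ (by norm_num) (by omega)
  have hq2 : 2 ≤ q := by omega
  have hM1 := c.one_le_M
  have hlogM : 0 ≤ Real.log c.M := Real.log_nonneg hM1
  have hlog2 : 0 < Real.log 2 := Real.log_pos (by norm_num)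
  have hqpos : (0 : ℝ) < q := by exact_mod_cast (by omega : 0 < q)
  have hden : 0 < (q : ℝ) * (Real.log c.M + 1) := by positivity
  refine ⟨2 - min 1 (Real.log 2 / (q * (Real.log c.M + 1))), ?_, ?_⟩
  · have : 0 < min 1 (Real.log 2 / ((q : ℝ) * (Real.log c.M + 1))) :=
      lt_min one_pos (div_pos hlog2 hden)
    linarith
  intro s hs hs2
  have hs1 : 1 < s := by
    have := min_le_left 1 (Real.log 2 / ((q : ℝ) * (Real.log c.M + 1)))
    linarith
  have hs3 : (2 - s) * ((q : ℝ) * (Real.log c.M + 1)) ≤ Real.log 2 := by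
    have h1 := min_le_right 1 (Real.log 2 / ((q : ℝ) * (Real.log c.M + 1)))
    have h2 : 2 - s ≤ Real.log 2 / ((q : ℝ) * (Real.log c.M + 1)) := by linarith
    rwa [le_div_iff₀ hden] at h2
  -- growth of the multiplier
  have hgrow : ∀ j : ℕ, (c.M ^ (q * j)) ^ (2 - s) ≤ 2 ^ j := by
    intro j
    have hMpos : 0 < c.M ^ (q * j) := by positivity
    rw [Real.rpow_def_of_pos hMpos, Real.log_pow]
    have e2 : (2 : ℝ) ^ j = Real.exp (j * Real.log 2) := by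
      rw [← Real.log_pow, Real.exp_log (by positivity)]
    rw [e2]
    apply Real.exp_le_exp.2
    push_cast
    have hj0 : (0 : ℝ) ≤ j := Nat.cast_nonneg j
    have h3 : (q : ℝ) * Real.log c.M * (2 - s) ≤ Real.log 2 := by
      have : 0 ≤ (2 - s) * (q : ℝ) := mul_nonneg (by linarith) hqpos.le
      nlinarith
    calc (q : ℝ) * j * Real.log c.M * (2 - s) = j * (q * Real.log c.M * (2 - s)) := by ring
      _ ≤ j * Real.log 2 := mul_le_mul_of_nonneg_left h3 hj0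
  intro κ hκ ρ hρ
  obtain ⟨κ', hκ'def⟩ : ∃ κ' : ℝ, κ' = min κ c.ε₀ := ⟨_, rfl⟩
  have hκ' : 0 < κ' := by rw [hκ'def]; exact lt_min hκ c.geo.pos
  have hκ'κ : κ' ≤ κ := by rw [hκ'def]; exact min_le_left _ _
  have hκ'ε : κ' ≤ c.ε₀ := by rw [hκ'def]; exact min_le_right _ _
  obtain ⟨ρn, hρn, Cn, hCn, hnear'⟩ := hnear κ' hκ'
  obtain ⟨r, hr, hlip'⟩ := hlip ρn hρn
  obtain ⟨ρ₁, hρ₁, ρ', hρ', hch'⟩ := hch (min ρ (min ρn (r / 2)))
    (lt_min hρ (lt_min hρn (by positivity)))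
  refine ⟨ρ', hρ', fun x x' hxx δ hδ => ?_⟩
  obtain ⟨ψ, hψ, hb'⟩ := hch' x
  obtain ⟨b, hb1, hb2⟩ := hb' x' hxx
  have hm1 : min ρ (min ρn (r / 2)) ≤ ρ := min_le_left _ _
  have hm2 : min ρ (min ρn (r / 2)) ≤ ρn := (min_le_right _ _).trans (min_le_left _ _)
  have hm3 : min ρ (min ρn (r / 2)) ≤ r / 2 := (min_le_right _ _).trans (min_le_right _ _)
  by_cases hb0 : b = 0
  · -- constant path
    have hx' : x' = x := by rw [← hb2, hb0, hψ.zero]
    obtain ⟨k, hk⟩ := exists_pow_lt_of_lt_one hδ (by norm_num : (1 / 16 : ℝ) < 1)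
    refine ⟨k, fun _ => x, {x}, continuousOn_const, rfl, hx'.symm, ?_, ?_, ?_, ?_⟩
    · intro t _ n
      show dist (S.g^[n] x) (S.g^[n] x) ≤ ρ
      rw [dist_self]; exact hρ.le
    · intro e he
      rw [Finset.mem_singleton.1 he]
      intro n
      show dist (S.g^[n] x) (S.g^[n] x) ≤ ρ
      rw [dist_self]; exact hρ.le
    · intro t _
      refine ⟨x, Finset.mem_singleton_self x, fun n => ?_⟩
      rw [dist_self]; exact hκ.le
    · rw [Finset.sum_singleton]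
      have hw := c.cw_pos k x
      have hw1 := c.cw_le_one k x
      calc c.cw k x ^ s ≤ c.cw k x ^ (1 : ℝ) :=
            Real.rpow_le_rpow_of_exponent_ge hw hw1 hs1.le
        _ = c.cw k x := Real.rpow_one _
        _ ≤ (1 / 16) ^ k := MArcAux.cw_le c k x
        _ ≤ δ := hk.le
  · -- the main case
    obtain ⟨C, hC, hac'⟩ := hac b hb0
    obtain ⟨D, hD⟩ : ∃ D : ℝ, D = C * (4 * κ' / r) * Cn + 2 * Cn := ⟨_, rfl⟩
    have hDpos : 0 < D := by rw [hD]; positivity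
    have hmn : 0 < min (δ / D) (r / (4 * κ')) := lt_min (by positivity) (by positivity)
    obtain ⟨j, hj⟩ := exists_pow_lt_of_lt_one hmn (by norm_num : (1 / 2 : ℝ) < 1)
    have hj1 : (1 / 2 : ℝ) ^ j ≤ δ / D := hj.le.trans (min_le_left _ _)
    have hj2 : (1 / 2 : ℝ) ^ j ≤ r / (4 * κ') := hj.le.trans (min_le_right _ _)
    obtain ⟨k, hk⟩ : ∃ k : ℕ, k = q * j := ⟨_, rfl⟩
    have hjk : j ≤ k := by rw [hk]; nlinarith
    have hgk : (c.M ^ k) ^ (2 - s) ≤ 2 ^ j := by rw [hk]; exact hgrow j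
    obtain ⟨η, hη⟩ : ∃ η : ℝ, η = 2 * ((1 / 8) ^ k * κ') := ⟨_, rfl⟩
    obtain ⟨τ, hτ⟩ : ∃ τ : ℝ, τ = r / 2 * (1 / 4) ^ k := ⟨_, rfl⟩
    have hηpos : 0 < η := by rw [hη]; positivity
    have hτpos : 0 < τ := by rw [hτ]; positivity
    have h8 : (1 / 8 : ℝ) ^ k = (1 / 4) ^ k * (1 / 2) ^ k := by
      rw [← mul_pow]; norm_num
    have hpowk : (1 / 2 : ℝ) ^ k ≤ (1 / 2) ^ j :=
      pow_le_pow_of_le_one (by norm_num) (by norm_num) hjk
    have hητ : η = (4 * κ' / r) * (1 / 2) ^ k * τ := by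
      rw [hη, hτ, h8]
      field_simp
      ring
    have hratio : (4 * κ' / r) * (1 / 2) ^ k ≤ 1 := by
      have h1 : (1 / 2 : ℝ) ^ k ≤ r / (4 * κ') := hpowk.trans hj2
      have h2 : (4 * κ' / r) * (1 / 2) ^ k ≤ (4 * κ' / r) * (r / (4 * κ')) :=
        mul_le_mul_of_nonneg_left h1 (by positivity)
      have h3 : (4 * κ' / r) * (r / (4 * κ')) = 1 := by field_simp
      linarith
    have hηle : η ≤ τ := by
      rw [hητ]
      calc (4 * κ' / r) * (1 / 2) ^ k * τ ≤ 1 * τ := mul_le_mul_of_nonneg_right hratio hτpos.le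
        _ = τ := one_mul _
    have hτL : 2 * τ ≤ r * (L⁻¹) ^ j := by
      have h1 : (1 / 4 : ℝ) ^ k ≤ (L⁻¹) ^ j := by
        have h2 : (1 / 4 : ℝ) ^ k ≤ (1 / 2) ^ k := pow_le_pow_left₀ (by norm_num) (by norm_num) k
        have h3 : (1 / 2 : ℝ) ^ k = (((2 : ℝ) ^ q)⁻¹) ^ j := by
          rw [hk, pow_mul, one_div, inv_pow]
        have h4 : ((2 : ℝ) ^ q)⁻¹ ≤ L⁻¹ := inv_anti₀ (by linarith) hLq
        calc (1 / 4 : ℝ) ^ k ≤ (1 / 2) ^ k := h2
          _ = (((2 : ℝ) ^ q)⁻¹) ^ j := h3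
          _ ≤ (L⁻¹) ^ j := pow_le_pow_left₀ (by positivity) h4 j
      rw [hτ]
      calc 2 * (r / 2 * (1 / 4) ^ k) = r * (1 / 4) ^ k := by ring
        _ ≤ _ := mul_le_mul_of_nonneg_left h1 hr.le
    -- the maximal separated set
    have hcw0 : ∀ z : X, c.cw 0 z = 1 := by
      intro z
      unfold CF.cw
      rw [CF.Lp_zero, norm_one, inv_one]
    have hP : ∀ y, (∃ a, ‖a‖ ≤ ρ₁ ∧ ψ a = y) → S.SRel (min ρ (min ρn (r / 2))) x y := by
      rintro y ⟨a, ha, rfl⟩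
      exact hψ.rel a ha
    obtain ⟨N, hN⟩ := exists_nat_ge (Cn * (c.M ^ k) ^ 2)
    obtain ⟨Q, hQ1, hQ2, hQ3⟩ := MArcAux.exists_maximal_sep
      (fun y => ∃ a, ‖a‖ ≤ ρ₁ ∧ ψ a = y)
      (fun y e => S.SRel κ' (S.g.symm^[k] y) (S.g.symm^[k] e))
      (fun y n => by rw [dist_self]; exact hκ'.le) (fun y z h => h.symm) N (by
        intro Q h1 h2
        have h3 := hnear' 0 k x Q (Nat.zero_le _) (fun e he => by
          simpa using (hP e (h1 e he)).mono hm2) h2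
        rw [hcw0 x, one_pow, mul_one] at h3
        have h4 : ∀ e ∈ Q, (1 : ℝ) ≤ (c.M ^ k) ^ 2 * c.cw k e ^ 2 := by
          intro e _
          have := MArcAux.one_le_cw c k e
          rw [← mul_pow]
          exact one_le_pow₀ this
        have h5 : (Q.card : ℝ) ≤ (c.M ^ k) ^ 2 * ∑ e ∈ Q, c.cw k e ^ 2 := by
          rw [Finset.mul_sum]
          calc (Q.card : ℝ) = ∑ _e ∈ Q, (1 : ℝ) := by simp
            _ ≤ _ := Finset.sum_le_sum h4
        have h6 : (Q.card : ℝ) ≤ N := by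
          calc (Q.card : ℝ) ≤ (c.M ^ k) ^ 2 * ∑ e ∈ Q, c.cw k e ^ 2 := h5
            _ ≤ (c.M ^ k) ^ 2 * Cn := mul_le_mul_of_nonneg_left h3 (sq_nonneg _)
            _ = Cn * (c.M ^ k) ^ 2 := mul_comm _ _
            _ ≤ N := hN
        exact_mod_cast h6)
    choose! af haf1 haf2 using hQ1
    -- indexing
    let el : Fin Q.card → X := fun i => (Q.equivFin.symm i : X)
    have hel : ∀ i, el i ∈ Q := fun i => (Q.equivFin.symm i).2
    have hinj : Function.Injective el := fun i i' h => by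
      have h1 : Q.equivFin.symm i = Q.equivFin.symm i' := Subtype.ext h
      exact Q.equivFin.symm.injective h1
    have hsurj : ∀ e ∈ Q, ∃ i, el i = e := fun e he => by
      refine ⟨Q.equivFin ⟨e, he⟩, ?_⟩
      show ((Q.equivFin.symm (Q.equivFin ⟨e, he⟩) : Q) : X) = e
      rw [Equiv.symm_apply_apply]
    -- sums over subsets
    have hsub : ∀ (A₀ : Finset (Fin Q.card)) (j₀ : ℕ) (z : X), j₀ ≤ k →
        (∀ i ∈ A₀, S.SRel ρn (S.g.symm^[j₀] z) (S.g.symm^[j₀] (el i))) →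
        ∑ i ∈ A₀, c.cw k (el i) ^ s ≤ 2 ^ j * (Cn * c.cw j₀ z ^ 2) := by
      intro A₀ j₀ z hj₀ hA₀
      have h1 := hnear' j₀ k z (A₀.image el) hj₀ (by
        intro e he
        obtain ⟨i, hi, rfl⟩ := Finset.mem_image.1 he
        exact hA₀ i hi) (by
        intro e he e' he' hne
        obtain ⟨i, hi, rfl⟩ := Finset.mem_image.1 he
        obtain ⟨i', hi', rfl⟩ := Finset.mem_image.1 he'
        exact hQ2 _ (hel i) _ (hel i') hne)
      rw [Finset.sum_image (fun a _ b _ h => hinj h)] at h1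
      have h0 : (0 : ℝ) ≤ ∑ i ∈ A₀, c.cw k (el i) ^ 2 := Finset.sum_nonneg fun _ _ => sq_nonneg _
      calc ∑ i ∈ A₀, c.cw k (el i) ^ s
          ≤ ∑ i ∈ A₀, (c.M ^ k) ^ (2 - s) * c.cw k (el i) ^ 2 :=
            Finset.sum_le_sum fun i _ => MArcAux.cw_rpow_le c k (el i) s hs2
        _ = (c.M ^ k) ^ (2 - s) * ∑ i ∈ A₀, c.cw k (el i) ^ 2 := by rw [Finset.mul_sum]
        _ ≤ 2 ^ j * ∑ i ∈ A₀, c.cw k (el i) ^ 2 := mul_le_mul_of_nonneg_right hgk h0
        _ ≤ 2 ^ j * (Cn * c.cw j₀ z ^ 2) := mul_le_mul_of_nonneg_left h1 (by positivity)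
    -- the arc
    obtain ⟨α, hα1, hα2, hα3, hα4, hα5⟩ := hac' (Fin Q.card) Finset.univ
      (fun i => af (el i)) (fun i => c.cw k (el i) ^ s) η τ
      (fun i _ => Real.rpow_nonneg (c.cw_pos k (el i)).le s) hηpos hηle
    have hαρ : ∀ t ∈ Set.Icc (0 : ℝ) 1, ‖α t‖ ≤ ρ₁ := fun t ht => by
      have := hα4 t ht
      linarith
    obtain ⟨A', hA'⟩ : ∃ A' : Finset (Fin Q.card), A' = Finset.univ.filter (fun i =>
      ∃ t ∈ Set.Icc (0 : ℝ) 1, S.SRel κ' (S.g.symm^[k] (ψ (α t))) (S.g.symm^[k] (el i))) :=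
      ⟨_, rfl⟩
    have hsum := hα5 A' (Finset.subset_univ _) (by
      intro i hi
      rw [hA', Finset.mem_filter] at hi
      obtain ⟨-, t, ht, hrel⟩ := hi
      refine ⟨t, ht, ?_⟩
      have h1 := c.geo.scontr _ _ (hrel.mono hκ'ε) k
      rw [iter_iter_symm, iter_iter_symm] at h1
      have h2 := hψ.ge (af (el i)) (α t) (haf1 _ (hel i)) (hαρ t ht)
      rw [haf2 _ (hel i), dist_comm] at h2
      have h3 : (1 / 8 : ℝ) ^ k * dist (S.g.symm^[k] (ψ (α t))) (S.g.symm^[k] (el i)) ≤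
          (1 / 8) ^ k * κ' := mul_le_mul_of_nonneg_left hrel.dist_le (by positivity)
      show ‖af (el i) - α t‖ ≤ η
      rw [hη]
      linarith)
    refine ⟨k, fun t => ψ (α t), A'.image el, ?_, ?_, ?_, ?_, ?_, ?_, ?_⟩
    · -- continuity
      have hlipψ : LipschitzOnWith 2 ψ (Metric.closedBall 0 ρ₁) := by
        refine LipschitzOnWith.of_dist_le_mul fun a ha a' ha' => ?_
        rw [mem_closedBall_zero_iff] at ha ha'
        rw [dist_eq_norm]
        exact hψ.le a a' ha ha'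
      refine hlipψ.continuousOn.comp hα1.continuousOn ?_
      intro t ht
      rw [mem_closedBall_zero_iff]
      exact hαρ t ht
    · show ψ (α 0) = x
      rw [hα2, hψ.zero]
    · show ψ (α 1) = x'
      rw [hα3, hb2]
    · intro t ht
      exact (hψ.rel _ (hαρ t ht)).mono hm1
    · intro e he
      obtain ⟨i, hi, rfl⟩ := Finset.mem_image.1 he
      exact (hP _ ⟨af (el i), haf1 _ (hel i), haf2 _ (hel i)⟩).mono hm1
    · intro t ht
      obtain ⟨e, he, hrel⟩ := hQ3 (ψ (α t)) ⟨α t, hαρ t ht, rfl⟩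
      obtain ⟨i, rfl⟩ := hsurj e he
      refine ⟨el i, Finset.mem_image.2 ⟨i, ?_, rfl⟩, hrel.mono hκ'κ⟩
      rw [hA', Finset.mem_filter]
      exact ⟨Finset.mem_univ _, t, ht, hrel⟩
    · rw [Finset.sum_image (fun a _ b _ h => hinj h)]
      -- the total sum
      have htot : ∑ i : Fin Q.card, c.cw k (el i) ^ s ≤ 2 ^ j * Cn := by
        have h1 := hsub Finset.univ 0 x (Nat.zero_le _) (fun i _ => by
          simpa using (hP _ ⟨af (el i), haf1 _ (hel i), haf2 _ (hel i)⟩).mono hm2)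
        rwa [hcw0 x, one_pow, mul_one] at h1
      -- the sums near the end points
      have hcwj : ∀ z : X, c.cw j z ^ 2 ≤ (1 / 4) ^ j := by
        intro z
        have h1 := MArcAux.cw_le c j z
        have h2 := c.cw_pos j z
        calc c.cw j z ^ 2 ≤ ((1 / 16) ^ j) ^ 2 := pow_le_pow_left₀ h2.le h1 2
          _ = ((1 / 16) ^ 2) ^ j := by rw [← pow_mul, ← pow_mul, mul_comm]
          _ ≤ (1 / 4) ^ j := pow_le_pow_left₀ (by norm_num) (by norm_num) j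
      have h24 : (2 : ℝ) ^ j * (1 / 4) ^ j = (1 / 2) ^ j := by
        rw [← mul_pow]; norm_num
      have hend : ∀ (z : X) (b₀ : EuclideanSpace ℝ (Fin d)), ‖b₀‖ ≤ ρ₁ → ψ b₀ = z →
          ∑ i : Fin Q.card with ‖af (el i) - b₀‖ ≤ τ, c.cw k (el i) ^ s ≤ Cn * (1 / 2) ^ j := by
        intro z b₀ hb₀ hz
        have h1 := hsub (Finset.univ.filter (fun i => ‖af (el i) - b₀‖ ≤ τ)) j z hjk (by
          intro i hi
          rw [Finset.mem_filter] at hi
          refine hlip' j z (el i) ?_ ?_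
          · have k1 : S.SRel (r / 2) x z := (hP z ⟨b₀, hb₀, hz⟩).mono hm3
            have k2 : S.SRel (r / 2) x (el i) :=
              (hP _ ⟨af (el i), haf1 _ (hel i), haf2 _ (hel i)⟩).mono hm3
            have k3 := k1.symm.trans k2
            rwa [add_halves] at k3
          · have k1 := hψ.le b₀ (af (el i)) hb₀ (haf1 _ (hel i))
            rw [hz, haf2 _ (hel i), norm_sub_rev] at k1
            have k2 := hi.2
            linarith)
        calc _ ≤ 2 ^ j * (Cn * c.cw j z ^ 2) := h1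
          _ ≤ 2 ^ j * (Cn * (1 / 4) ^ j) := by
            have := hcwj z
            gcongr
          _ = Cn * (2 ^ j * (1 / 4) ^ j) := by ring
          _ = _ := by rw [h24]
      have hend2 : ∑ i : Fin Q.card with (‖af (el i)‖ ≤ τ ∨ ‖af (el i) - b‖ ≤ τ),
          c.cw k (el i) ^ s ≤ 2 * Cn * (1 / 2) ^ j := by
        rw [Finset.filter_or]
        have h0 : ∀ i, 0 ≤ c.cw k (el i) ^ s := fun i => Real.rpow_nonneg (c.cw_pos k (el i)).le s
        have h1 : ∀ U V : Finset (Fin Q.card), ∑ i ∈ U ∪ V, c.cw k (el i) ^ s ≤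
            ∑ i ∈ U, c.cw k (el i) ^ s + ∑ i ∈ V, c.cw k (el i) ^ s := by
          intro U V
          rw [← Finset.sum_union_inter]
          have : 0 ≤ ∑ i ∈ U ∩ V, c.cw k (el i) ^ s := Finset.sum_nonneg fun i _ => h0 i
          linarith
        have h2 := hend x 0 (by rw [norm_zero]; exact hρ₁.le) hψ.zero
        have h3 := hend x' b (by linarith [norm_nonneg b]) hb2
        simp only [sub_zero] at h2
        have h4 := h1 (Finset.univ.filter (fun i => ‖af (el i)‖ ≤ τ))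
          (Finset.univ.filter (fun i => ‖af (el i) - b‖ ≤ τ))
        linarith
      have hrat : η / τ ≤ (4 * κ' / r) * ((1 / 2) ^ j * (1 / 2) ^ j) := by
        rw [div_le_iff₀ hτpos, hητ]
        have h1 : (1 / 2 : ℝ) ^ k ≤ (1 / 2) ^ j * (1 / 2) ^ j := by
          rw [← pow_add]
          exact pow_le_pow_of_le_one (by norm_num) (by norm_num) (by rw [hk]; nlinarith)
        gcongr
      have h22 : (1 / 2 : ℝ) ^ j * 2 ^ j = 1 := by rw [← mul_pow]; norm_num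
      have hT0 : (0 : ℝ) ≤ ∑ i : Fin Q.card, c.cw k (el i) ^ s :=
        Finset.sum_nonneg fun i _ => Real.rpow_nonneg (c.cw_pos k (el i)).le s
      have hfirst : C * (η / τ) * ∑ i : Fin Q.card, c.cw k (el i) ^ s ≤
          C * (4 * κ' / r) * Cn * (1 / 2) ^ j := by
        have hητ0 : 0 ≤ η / τ := (div_pos hηpos hτpos).le
        calc C * (η / τ) * ∑ i : Fin Q.card, c.cw k (el i) ^ s
            ≤ C * ((4 * κ' / r) * ((1 / 2) ^ j * (1 / 2) ^ j)) * (2 ^ j * Cn) := by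
              gcongr
          _ = C * (4 * κ' / r) * Cn * (1 / 2) ^ j * ((1 / 2) ^ j * 2 ^ j) := by ring
          _ = _ := by rw [h22, mul_one]
      have hfin : D * (1 / 2) ^ j ≤ δ := by
        have := mul_le_mul_of_nonneg_left hj1 hDpos.le
        rwa [mul_div_cancel₀ _ hDpos.ne'] at this
      calc ∑ i ∈ A', c.cw k (el i) ^ s ≤ _ := hsum
        _ ≤ C * (4 * κ' / r) * Cn * (1 / 2) ^ j + 2 * Cn * (1 / 2) ^ j := add_le_add hfirst hend2
        _ = D * (1 / 2) ^ j := by rw [hD]; ring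
        _ ≤ δ := hfin

end Pool.Agent.H779R2.Mo
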