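import Pool.Agent.H779R2.An.CDefs

set_option autoImplicit false

namespace Pool.Agent.H779R2.Mo

open Pool.Agent.H721R2 Pool.Agent.H779R2.An Filter Topology MeasureTheory
open scoped BigOperators

variable {X E : Type*} [MetricSpace X] [CompactSpace X] [NormedAddCommGroup E]
  [InnerProductSpace ℝ E] [FiniteDimensional ℝ E]

omit [CompactSpace X] [FiniteDimensional ℝ E] in
/-- a trivial remark keeping the section variables alive -/
theorem Mo.triv0 : True := trivial

namespace W1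

theorem exists_orth (d : ℕ) (hd : 2 ≤ d) (w : EuclideanSpace ℝ (Fin d)) :
    ∃ e : EuclideanSpace ℝ (Fin d), ‖e‖ = 1 ∧ inner ℝ w e = 0 := by
  have h1 : Module.finrank ℝ (ℝ ∙ w) ≤ 1 := by
    simpa using finrank_span_le_card (R := ℝ) ({w} : Set (EuclideanSpace ℝ (Fin d)))
  have h2 := (ℝ ∙ w).finrank_add_finrank_orthogonal
  have h3 : Module.finrank ℝ (EuclideanSpace ℝ (Fin d)) = d := by simp
  have h4 : 0 < Module.finrank ℝ (ℝ ∙ w)ᗮ := by omega
  have h5 : Nontrivial (ℝ ∙ w)ᗮ := Module.finrank_pos_iff.mp h4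
  obtain ⟨⟨e, he⟩, hne⟩ := exists_ne (0 : (ℝ ∙ w)ᗮ)
  have hne' : e ≠ 0 := fun h => hne (Subtype.ext h)
  have hw : inner ℝ w e = 0 := Submodule.mem_orthogonal_singleton_iff_inner_right.mp he
  have hn : ‖e‖ ≠ 0 := norm_ne_zero_iff.mpr hne'
  refine ⟨‖e‖⁻¹ • e, ?_, ?_⟩
  · rw [norm_smul, norm_inv, norm_norm, inv_mul_cancel₀ hn]
  · rw [inner_smul_right, hw, mul_zero]

/-- the tent function -/
noncomputable def tent (t : ℝ) : ℝ := min t (1 - t)

theorem tent_lip (t t' : ℝ) : |tent t - tent t'| ≤ |t - t'| := by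
  unfold tent
  have h := abs_min_sub_min_le_max t (1 - t) t' (1 - t')
  have h2 : |(1 - t) - (1 - t')| = |t - t'| := by
    rw [show (1 - t) - (1 - t') = -(t - t') by ring, abs_neg]
  rw [h2, max_self] at h
  exact h

theorem tent_cont : Continuous tent := by
  unfold tent
  fun_prop

theorem card33 (S : Finset ℕ) (h : ∀ i ∈ S, ∀ i' ∈ S, (i : ℝ) - i' ≤ 32) :
    (S.card : ℝ) ≤ 33 := by
  rcases S.eq_empty_or_nonempty with hS | hS
  · simp [hS]
  · have hsub : S ⊆ Finset.Icc (S.min' hS) (S.min' hS + 32) := by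
      intro i hi
      rw [Finset.mem_Icc]
      refine ⟨S.min'_le i hi, ?_⟩
      have h1 := h i hi _ (S.min'_mem hS)
      have h2 : (i : ℝ) ≤ ((S.min' hS + 32 : ℕ) : ℝ) := by push_cast; linarith
      exact_mod_cast h2
    have h3 := Finset.card_le_card hsub
    rw [Nat.card_Icc] at h3
    have h4 : S.card ≤ 33 := by omega
    exact_mod_cast h4

section

variable {V : Type*} [NormedAddCommGroup V] [InnerProductSpace ℝ V]

/-- the arcs -/
noncomputable def arc (b e : V) (s t : ℝ) : V := t • b + (s * tent t) • e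

theorem arc_norm (b e : V) (he : ‖e‖ = 1) {s t : ℝ} (hs : 0 ≤ s) (hs1 : s ≤ ‖b‖)
    (ht : t ∈ Set.Icc (0 : ℝ) 1) : ‖arc b e s t‖ ≤ 2 * t * ‖b‖ ∧
      ‖b - arc b e s t‖ ≤ 2 * (1 - t) * ‖b‖ := by
  obtain ⟨ht0, ht1⟩ := ht
  have h0 : 0 ≤ tent t := le_min ht0 (by linarith)
  have h1 : tent t ≤ t := min_le_left _ _
  have h2 : tent t ≤ 1 - t := min_le_right _ _
  have hst : ‖(s * tent t) • e‖ = s * tent t := by
    rw [norm_smul, he, mul_one, Real.norm_eq_abs, abs_of_nonneg (mul_nonneg hs h0)]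
  constructor
  · unfold arc
    have h3 : ‖t • b‖ = t * ‖b‖ := by
      rw [norm_smul, Real.norm_eq_abs, abs_of_nonneg ht0]
    have h4 := norm_add_le (t • b) ((s * tent t) • e)
    rw [h3, hst] at h4
    have h5 : s * tent t ≤ ‖b‖ * t := mul_le_mul hs1 h1 h0 (norm_nonneg _)
    linarith
  · unfold arc
    have h3 : ‖(1 - t) • b‖ = (1 - t) * ‖b‖ := by
      rw [norm_smul, Real.norm_eq_abs, abs_of_nonneg (by linarith)]
    have h4 := norm_sub_le ((1 - t) • b) ((s * tent t) • e)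
    rw [h3, hst] at h4
    have h5 : s * tent t ≤ ‖b‖ * (1 - t) := mul_le_mul hs1 h2 h0 (norm_nonneg _)
    have h6 : b - (t • b + (s * tent t) • e) = (1 - t) • b - (s * tent t) • e := by module
    rw [h6]
    linarith

theorem geo (b e : V) (hb : b ≠ 0) (he : ‖e‖ = 1) (hbe : inner ℝ b e = (0 : ℝ)) (a : V)
    {η τ s s' t t' : ℝ} (hη : 0 < η) (hητ : 2 * η ≤ τ) (hs : 0 ≤ s) (hs1 : s ≤ ‖b‖)
    (hs' : 0 ≤ s') (hs1' : s' ≤ ‖b‖) (ht : t ∈ Set.Icc (0 : ℝ) 1)
    (h1 : ‖a - arc b e s t‖ ≤ η)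
    (h2 : ‖a - arc b e s' t'‖ ≤ η) (ha : τ < ‖a‖) (hab : τ < ‖a - b‖) :
    (s - s') * τ ≤ 16 * η * ‖b‖ := by
  have hbp : 0 < ‖b‖ := norm_pos_iff.mpr hb
  obtain ⟨hn1, hn2⟩ := arc_norm b e he hs hs1 ht
  -- lower bound of the tent
  have ht1 : τ ≤ 4 * ‖b‖ * t := by
    have h3 : ‖a‖ ≤ ‖a - arc b e s t‖ + ‖arc b e s t‖ := by
      have := norm_add_le (a - arc b e s t) (arc b e s t)
      rwa [sub_add_cancel] at this
    linarith
  have ht2 : τ ≤ 4 * ‖b‖ * (1 - t) := by
    have h3 : ‖a - b‖ ≤ ‖a - arc b e s t‖ + ‖b - arc b e s t‖ := by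
      have := norm_sub_le (a - arc b e s t) (b - arc b e s t)
      rwa [sub_sub_sub_cancel_right] at this
    linarith
  have htt : τ ≤ 4 * ‖b‖ * tent t := by
    unfold tent
    rcases min_choice t (1 - t) with h | h
    · rw [h]; exact ht1
    · rw [h]; exact ht2
  -- the difference
  have hD : ‖arc b e s t - arc b e s' t'‖ ≤ 2 * η := by
    have h3 : arc b e s t - arc b e s' t' = (a - arc b e s' t') - (a - arc b e s t) := by abel
    rw [h3]
    have := norm_sub_le (a - arc b e s' t') (a - arc b e s t)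
    linarith
  have heb : inner ℝ e b = (0 : ℝ) := by rw [real_inner_comm]; exact hbe
  have hee : inner ℝ e e = (1 : ℝ) := by rw [real_inner_self_eq_norm_sq, he]; norm_num
  have hbb : inner ℝ b b = ‖b‖ ^ 2 := real_inner_self_eq_norm_sq b
  have hi1 : inner ℝ b (arc b e s t - arc b e s' t') = (t - t') * ‖b‖ ^ 2 := by
    unfold arc
    rw [inner_sub_right, inner_add_right, inner_add_right, inner_smul_right, inner_smul_right,
      inner_smul_right, inner_smul_right, hbe, hbb]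
    ring
  have hi2 : inner ℝ e (arc b e s t - arc b e s' t') = s * tent t - s' * tent t' := by
    unfold arc
    rw [inner_sub_right, inner_add_right, inner_add_right, inner_smul_right, inner_smul_right,
      inner_smul_right, inner_smul_right, heb, hee]
    ring
  have hc1 : |t - t'| * ‖b‖ ≤ 2 * η := by
    have h3 := abs_real_inner_le_norm b (arc b e s t - arc b e s' t')
    rw [hi1, abs_mul, abs_of_nonneg (sq_nonneg ‖b‖)] at h3
    have h4 : |t - t'| * ‖b‖ * ‖b‖ ≤ 2 * η * ‖b‖ := by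
      calc |t - t'| * ‖b‖ * ‖b‖ = |t - t'| * ‖b‖ ^ 2 := by ring
        _ ≤ ‖b‖ * ‖arc b e s t - arc b e s' t'‖ := h3
        _ ≤ ‖b‖ * (2 * η) := by gcongr
        _ = 2 * η * ‖b‖ := by ring
    exact le_of_mul_le_mul_right h4 hbp
  have hc2 : |s * tent t - s' * tent t'| ≤ 2 * η := by
    have h3 := abs_real_inner_le_norm e (arc b e s t - arc b e s' t')
    rw [hi2, he, one_mul] at h3
    exact h3.trans hD
  have hc3 : (s - s') * tent t ≤ 4 * η := by
    have h3 : (s - s') * tent t = (s * tent t - s' * tent t') + s' * (tent t' - tent t) := by ring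
    have h4 : s' * (tent t' - tent t) ≤ ‖b‖ * |t - t'| := by
      have h5 : tent t' - tent t ≤ |t - t'| := by
        have := tent_lip t' t
        rw [abs_sub_comm t' t] at this
        exact (le_abs_self _).trans this
      calc s' * (tent t' - tent t) ≤ s' * |t - t'| := by gcongr
        _ ≤ ‖b‖ * |t - t'| := by gcongr
    have h6 := le_abs_self (s * tent t - s' * tent t')
    rw [h3]
    linarith
  rcases le_or_gt (s - s') 0 with hneg | hpos
  · have hτ : 0 ≤ τ := by linarith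
    have h3 : (s - s') * τ ≤ 0 := mul_nonpos_of_nonpos_of_nonneg hneg hτ
    have h4 : 0 ≤ 16 * η * ‖b‖ := by positivity
    linarith
  · calc (s - s') * τ ≤ (s - s') * (4 * ‖b‖ * tent t) := by gcongr
      _ = 4 * ‖b‖ * ((s - s') * tent t) := by ring
      _ ≤ 4 * ‖b‖ * (4 * η) := by gcongr
      _ = 16 * η * ‖b‖ := by ring

end

end W1

open W1 in
/-- W1: one of many disjoint arcs meets few cells. -/
theorem arc_choice (d : ℕ) (hd : 2 ≤ d) (b : EuclideanSpace ℝ (Fin d)) (hb : b ≠ 0) :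
    ∃ C : ℝ, 0 < C ∧ ∀ (ι : Type) (A : Finset ι) (a : ι → EuclideanSpace ℝ (Fin d)) (w : ι → ℝ)
      (η τ : ℝ), (∀ e ∈ A, 0 ≤ w e) → 0 < η → η ≤ τ →
      ∃ α : ℝ → EuclideanSpace ℝ (Fin d), Continuous α ∧ α 0 = 0 ∧ α 1 = b ∧
        (∀ t ∈ Set.Icc (0 : ℝ) 1, ‖α t‖ ≤ 2 * ‖b‖) ∧
        ∀ A' ⊆ A, (∀ e ∈ A', ∃ t ∈ Set.Icc (0 : ℝ) 1, ‖a e - α t‖ ≤ η) →
          ∑ e ∈ A', w e ≤ C * (η / τ) * ∑ e ∈ A, w e +
            ∑ e ∈ A with (‖a e‖ ≤ τ ∨ ‖a e - b‖ ≤ τ), w e := by
  classical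
  refine ⟨33, by norm_num, ?_⟩
  intro ι A a w η τ hw hη hητ
  have hbp : 0 < ‖b‖ := norm_pos_iff.mpr hb
  have hτ : 0 < τ := hη.trans_le hητ
  obtain ⟨u, hu, hbu⟩ := exists_orth d hd b
  have harc : ∀ s : ℝ, 0 ≤ s → s ≤ ‖b‖ → Continuous (arc b u s) ∧ arc b u s 0 = 0 ∧
      arc b u s 1 = b ∧ ∀ t ∈ Set.Icc (0 : ℝ) 1, ‖arc b u s t‖ ≤ 2 * ‖b‖ := by
    intro s hs hs1
    refine ⟨?_, ?_, ?_, ?_⟩
    · unfold arc
      have := tent_cont
      fun_prop
    · simp [arc, tent]
    · simp [arc, tent]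
    · intro t ht
      refine (arc_norm b u hu hs hs1 ht).1.trans ?_
      have := ht.2
      nlinarith
  have hW0 : 0 ≤ ∑ e ∈ A, w e := Finset.sum_nonneg hw
  rcases le_or_gt (2 * η) τ with h2 | h2
  · -- many arcs
    set N : ℕ := ⌈τ / η⌉₊ with hN
    have hq1 : 1 ≤ τ / η := by rwa [le_div_iff₀ hη, one_mul]
    have hN1 : τ / η ≤ N := Nat.le_ceil _
    have hN2 : (N : ℝ) < τ / η + 1 := Nat.ceil_lt_add_one (by positivity)
    have hNpos : (0 : ℝ) < N := lt_of_lt_of_le (by linarith) hN1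
    have hNpos' : 0 < N := by exact_mod_cast hNpos
    set sv : ℕ → ℝ := fun i => ‖b‖ * (i / N) with hsv
    have hs0 : ∀ i, 0 ≤ sv i := fun i => by simp only [hsv]; positivity
    have hs1 : ∀ i ∈ Finset.range N, sv i ≤ ‖b‖ := by
      intro i hi
      simp only [hsv]
      have h3 : (i : ℝ) / N ≤ 1 := by
        rw [div_le_one hNpos]
        exact_mod_cast (Finset.mem_range.mp hi).le
      nlinarith
    set far : Finset ι := A.filter (fun e => ¬ (‖a e‖ ≤ τ ∨ ‖a e - b‖ ≤ τ)) with hfar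
    set near : ℕ → ι → Prop := fun i e => ∃ t ∈ Set.Icc (0 : ℝ) 1, ‖a e - arc b u (sv i) t‖ ≤ η
      with hnear
    -- each far point is near few arcs
    have hcount : ∀ e ∈ far, (((Finset.range N).filter (fun i => near i e)).card : ℝ) ≤ 33 := by
      intro e he
      rw [hfar, Finset.mem_filter] at he
      obtain ⟨-, he2⟩ := he
      push Not at he2
      apply card33
      intro i hi i' hi'
      rw [Finset.mem_filter] at hi hi'
      obtain ⟨hiN, t, ht, hit⟩ := hi
      obtain ⟨hiN', t', ht', hit'⟩ := hi'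
      have h3 := geo b u hb hu hbu (a e) hη h2 (hs0 i) (hs1 i hiN) (hs0 i') (hs1 i' hiN') ht
        hit hit' he2.1 he2.2
      have h4 : sv i - sv i' = ‖b‖ * (((i : ℝ) - i') / N) := by simp only [hsv]; ring
      rw [h4] at h3
      have h5 : ((i : ℝ) - i') / N * τ ≤ 16 * η := by
        have h6 : ‖b‖ * (((i : ℝ) - i') / N * τ) ≤ ‖b‖ * (16 * η) := by linarith
        exact le_of_mul_le_mul_left h6 hbp
      rw [div_mul_eq_mul_div, div_le_iff₀ hNpos] at h5
      have h6 : η * N ≤ 2 * τ := by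
        have h7 : η * N < η * (τ / η + 1) := by gcongr
        have h8 : η * (τ / η + 1) = τ + η := by field_simp
        linarith
      have h7 : ((i : ℝ) - i') * τ ≤ 32 * τ := by nlinarith
      exact le_of_mul_le_mul_right h7 hτ
    -- the average
    have hsum : ∑ i ∈ Finset.range N, ∑ e ∈ far with near i e, w e ≤
        ∑ _i ∈ Finset.range N, 33 * (η / τ) * ∑ e ∈ A, w e := by
      have h3 : ∑ i ∈ Finset.range N, ∑ e ∈ far with near i e, w e =
          ∑ e ∈ far, (((Finset.range N).filter (fun i => near i e)).card : ℝ) * w e := by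
        calc ∑ i ∈ Finset.range N, ∑ e ∈ far with near i e, w e
            = ∑ i ∈ Finset.range N, ∑ e ∈ far, if near i e then w e else 0 := by
              refine Finset.sum_congr rfl fun i _ => ?_
              rw [Finset.sum_filter]
          _ = ∑ e ∈ far, ∑ i ∈ Finset.range N, if near i e then w e else 0 := Finset.sum_comm
          _ = ∑ e ∈ far, (((Finset.range N).filter (fun i => near i e)).card : ℝ) * w e := by
              refine Finset.sum_congr rfl fun e _ => ?_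
              rw [← Finset.sum_filter, Finset.sum_const, nsmul_eq_mul]
      have h4 : ∑ e ∈ far, (((Finset.range N).filter (fun i => near i e)).card : ℝ) * w e ≤
          ∑ e ∈ far, 33 * w e := by
        refine Finset.sum_le_sum fun e he => ?_
        have h5 := hcount e he
        have h6 : 0 ≤ w e := hw e (Finset.mem_of_mem_filter e he)
        gcongr
      have h5 : ∑ e ∈ far, 33 * w e ≤ 33 * ∑ e ∈ A, w e := by
        rw [← Finset.mul_sum]
        have h6 : ∑ e ∈ far, w e ≤ ∑ e ∈ A, w e :=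
          Finset.sum_le_sum_of_subset_of_nonneg (Finset.filter_subset _ _)
            (fun e he _ => hw e he)
        linarith
      have h6 : 33 * ∑ e ∈ A, w e ≤ ∑ _i ∈ Finset.range N, 33 * (η / τ) * ∑ e ∈ A, w e := by
        rw [Finset.sum_const, Finset.card_range, nsmul_eq_mul]
        have h7 : 1 ≤ (N : ℝ) * (η / τ) := by
          have h8 : τ / η * (η / τ) ≤ N * (η / τ) := by gcongr
          have h9 : τ / η * (η / τ) = 1 := by field_simp
          linarith
        have h8 : (N : ℝ) * (33 * (η / τ) * ∑ e ∈ A, w e) =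
            33 * ((N : ℝ) * (η / τ)) * ∑ e ∈ A, w e := by ring
        rw [h8]
        have h9 : (33 : ℝ) * 1 ≤ 33 * ((N : ℝ) * (η / τ)) := by gcongr
        nlinarith
      rw [h3]
      exact h4.trans (h5.trans h6)
    obtain ⟨i, hi, hile⟩ := Finset.exists_le_of_sum_le
      (Finset.nonempty_range_iff.mpr hNpos'.ne') hsum
    obtain ⟨g1, g2, g3, g4⟩ := harc (sv i) (hs0 i) (hs1 i hi)
    refine ⟨arc b u (sv i), g1, g2, g3, g4, ?_⟩
    intro A' hA' hA'n
    have h3 : A' ⊆ (far.filter (fun e => near i e)) ∪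
        (A.filter (fun e => ‖a e‖ ≤ τ ∨ ‖a e - b‖ ≤ τ)) := by
      intro e he
      rw [Finset.mem_union]
      by_cases h : ‖a e‖ ≤ τ ∨ ‖a e - b‖ ≤ τ
      · exact Or.inr (Finset.mem_filter.mpr ⟨hA' he, h⟩)
      · exact Or.inl (Finset.mem_filter.mpr ⟨Finset.mem_filter.mpr ⟨hA' he, h⟩, hA'n e he⟩)
    calc ∑ e ∈ A', w e ≤ ∑ e ∈ (far.filter (fun e => near i e)) ∪
          (A.filter (fun e => ‖a e‖ ≤ τ ∨ ‖a e - b‖ ≤ τ)), w e := by
          refine Finset.sum_le_sum_of_subset_of_nonneg h3 fun e he _ => ?_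
          rw [Finset.mem_union] at he
          rcases he with he | he
          · exact hw e (Finset.mem_of_mem_filter e (Finset.mem_of_mem_filter e he))
          · exact hw e (Finset.mem_of_mem_filter e he)
      _ ≤ ∑ e ∈ far.filter (fun e => near i e), w e +
          ∑ e ∈ A.filter (fun e => ‖a e‖ ≤ τ ∨ ‖a e - b‖ ≤ τ), w e := by
          have h5 := Finset.sum_union_inter (s₁ := far.filter (fun e => near i e))
            (s₂ := A.filter (fun e => ‖a e‖ ≤ τ ∨ ‖a e - b‖ ≤ τ)) (f := w)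
          have h6 : 0 ≤ ∑ e ∈ (far.filter (fun e => near i e)) ∩
              (A.filter (fun e => ‖a e‖ ≤ τ ∨ ‖a e - b‖ ≤ τ)), w e :=
            Finset.sum_nonneg fun e he =>
              hw e (Finset.mem_of_mem_filter e (Finset.mem_inter.mp he).2)
          linarith
      _ ≤ _ := by
          gcongr
  · -- the straight segment
    obtain ⟨g1, g2, g3, g4⟩ := harc 0 le_rfl hbp.le
    refine ⟨arc b u 0, g1, g2, g3, g4, ?_⟩
    intro A' hA' _
    have h3 : ∑ e ∈ A', w e ≤ ∑ e ∈ A, w e :=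
      Finset.sum_le_sum_of_subset_of_nonneg hA' (fun e he _ => hw e he)
    have h4 : 0 ≤ ∑ e ∈ A with (‖a e‖ ≤ τ ∨ ‖a e - b‖ ≤ τ), w e :=
      Finset.sum_nonneg fun e he => hw e (Finset.mem_of_mem_filter e he)
    have h5 : 1 ≤ 33 * (η / τ) := by
      rw [← mul_div_assoc, le_div_iff₀ hτ]
      linarith
    nlinarith

end Pool.Agent.H779R2.Mo
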