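import Pool.Agent.H779R2.Mo.MDef

set_option autoImplicit false

namespace Pool.Agent.H779R2.Mo

open Pool.Agent.H721R2 Pool.Agent.H779R2.An Filter Topology MeasureTheory
open scoped BigOperators

variable {X E : Type*} [MetricSpace X] [CompactSpace X] [NormedAddCommGroup E]
  [InnerProductSpace ℝ E] [FiniteDimensional ℝ E]

/-- W6: paths on which `th` has small `s`-content. -/
theorem small_path {S : HypSys X E} {c : CF S} (T : TH c) (hlev : LevProp T) (s : ℝ)
    (hs : 0 < s) (h : ArcProp c s) : SmallPath T s := by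
  obtain ⟨C, hC, ε, hε, hεT, hlev1, -⟩ := hlev
  have hM : 0 < c.M := lt_of_lt_of_le one_pos c.one_le_M
  have hCM : 0 < C * c.M := mul_pos hC hM
  intro ρ hρ
  obtain ⟨ρ', hρ', H⟩ := h ε hε (min ρ c.ε₀) (lt_min hρ c.geo.pos)
  refine ⟨ρ', hρ', ?_⟩
  intro x x' hx δ hδ
  obtain ⟨k, γ, A, hγ, h0, h1, hγx, hA, hcov, hsum⟩ :=
    H x x' hx (δ / (C * c.M) ^ s) (div_pos hδ (Real.rpow_pos_of_pos hCM s))
  refine ⟨γ, A, fun e => T.th x e, fun e => C * c.M * c.cw k e, hγ, h0, h1, ?_, ?_, ?_, ?_⟩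
  · intro t ht
    exact (hγx t ht).mono (min_le_left _ _)
  · intro e _
    exact mul_pos hCM (c.cw_pos k e)
  · have e1 : ∑ e ∈ A, (C * c.M * c.cw k e) ^ s = (C * c.M) ^ s * ∑ e ∈ A, c.cw k e ^ s := by
      rw [Finset.mul_sum]
      exact Finset.sum_congr rfl fun e _ => Real.mul_rpow hCM.le (c.cw_pos k e).le
    rw [e1]
    calc (C * c.M) ^ s * ∑ e ∈ A, c.cw k e ^ s ≤ (C * c.M) ^ s * (δ / (C * c.M) ^ s) :=
          mul_le_mul_of_nonneg_left hsum (Real.rpow_pos_of_pos hCM s).le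
      _ = δ := by
          have := (Real.rpow_pos_of_pos hCM s).ne'
          field_simp
  · intro t ht
    obtain ⟨e, he, hte⟩ := hcov t ht
    refine ⟨e, he, ?_⟩
    have hxe : S.SRel c.ε₀ x e := (hA e he).mono (min_le_right _ _)
    have hxt : S.SRel c.ε₀ x (γ t) := (hγx t ht).mono (min_le_right _ _)
    have ha : SAsym S x e := c.geo.sasym x e hxe
    have hb : SAsym S x (γ t) := c.geo.sasym x (γ t) hxt
    have hc' : SAsym S e (γ t) := ha.symm.trans hb
    have e2 : T.th x (γ t) - T.th x e = c.eta x e * T.th e (γ t) := by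
      rw [T.th_comp x e (γ t) ha hc']
      ring
    rw [e2, norm_mul]
    calc ‖c.eta x e‖ * ‖T.th e (γ t)‖ ≤ c.M * (C * c.cw k e) :=
          mul_le_mul (c.eta_le x e hxe) (hlev1 k e (γ t) hte.symm) (norm_nonneg _) hM.le
      _ = C * c.M * c.cw k e := by ring

end Pool.Agent.H779R2.Mo
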