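import Pool.Agent.H779R2.An.CDefs
import Pool.Agent.H779R2.An.CLevAux
import Pool.Agent.H779R2.An.CCount
import Pool.Agent.H779R2.An.LDefs

set_option autoImplicit false

namespace Pool.Agent.H779R2.Mo

open Pool.Agent.H721R2 Pool.Agent.H779R2.An Filter Topology MeasureTheory
open scoped BigOperators

variable {X E : Type*} [MetricSpace X] [CompactSpace X] [NormedAddCommGroup E]
  [InnerProductSpace ℝ E] [FiniteDimensional ℝ E]

omit [CompactSpace X] [FiniteDimensional ℝ E] in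
/-- a trivial remark keeping the section variables alive -/
theorem Mo.triv : True := trivial

/-- Size at `x` of the unit disc at time `n`. -/
noncomputable def fr {S : HypSys X E} (c : CF S) (n : ℕ) (x : X) : ℝ := ‖c.Lp n x‖⁻¹

/-- `Q` is a finite subset of the unstable disc of radius `ρ` at `x`, `θ`-separated at time `n`. -/
structure DSep {S : HypSys X E} (c : CF S) (n : ℕ) (x : X) (ρ θ : ℝ) (Q : Finset X) : Prop where
  mem : ∀ q ∈ Q, UAsym S x q ∧ ‖c.lc x q‖ ≤ ρ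
  sep : ∀ q ∈ Q, ∀ q' ∈ Q, q ≠ q' → θ ≤ ‖c.lc (S.g^[n] q) (S.g^[n] q')‖

/-- The `s`-sum of a finite set at time `n`. -/
noncomputable def dsum {S : HypSys X E} (c : CF S) (s : ℝ) (n : ℕ) (Q : Finset X) : ℝ :=
  ∑ q ∈ Q, fr c n q ^ s

/-- The largest `s`-sum of a unit disc at time `n`. -/
noncomputable def Af {S : HypSys X E} (c : CF S) (s : ℝ) (n : ℕ) : ℝ :=
  sSup {t | ∃ x Q, DSep c n x 1 1 Q ∧ t = dsum c s n Q}

/-- Arcs in stable plaques covered by cells of level `k` with a small `s`-sum. -/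
def ArcProp {S : HypSys X E} (c : CF S) (s : ℝ) : Prop :=
  ∀ κ > 0, ∀ ρ > 0, ∃ ρ' > 0, ∀ x x', S.SRel ρ' x x' → ∀ δ > 0,
    ∃ (k : ℕ) (γ : ℝ → X) (A : Finset X), ContinuousOn γ (Set.Icc 0 1) ∧ γ 0 = x ∧ γ 1 = x' ∧
      (∀ t ∈ Set.Icc (0 : ℝ) 1, S.SRel ρ x (γ t)) ∧ (∀ e ∈ A, S.SRel ρ x e) ∧
      (∀ t ∈ Set.Icc (0 : ℝ) 1, ∃ e ∈ A, S.SRel κ (S.g.symm^[k] (γ t)) (S.g.symm^[k] e)) ∧
      ∑ e ∈ A, c.cw k e ^ s ≤ δ

/-- Paths in stable plaques along which `th` takes values in a set of small `s`-content. -/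
def SmallPath {S : HypSys X E} {c : CF S} (T : TH c) (s : ℝ) : Prop :=
  ∀ ρ > 0, ∃ ρ' > 0, ∀ x x', S.SRel ρ' x x' → ∀ δ > 0,
    ∃ (γ : ℝ → X) (I : Finset X) (β : X → ℂ) (ω : X → ℝ), ContinuousOn γ (Set.Icc 0 1) ∧
      γ 0 = x ∧ γ 1 = x' ∧ (∀ t ∈ Set.Icc (0 : ℝ) 1, S.SRel ρ x (γ t)) ∧ (∀ i ∈ I, 0 < ω i) ∧
      ∑ i ∈ I, ω i ^ s ≤ δ ∧ ∀ t ∈ Set.Icc (0 : ℝ) 1, ∃ i ∈ I, ‖T.th x (γ t) - β i‖ ≤ ω i

/-- Moebius quadrilaterals: `v → w`, `x → x'` stable, `v → x`, `w → x'` unstable. -/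
structure QdM {S : HypSys X E} {c : CF S} (T : TH c) (v w x x' : X) : Prop where
  vw : SAsym S v w
  vx : UAsym S v x
  xx : SAsym S x x'
  wx : UAsym S w x'
  ne : 1 - T.th v w * c.lc v x ≠ 0
  lc_eq : c.lc w x' = mob (c.eta v w) (T.th v w) (c.lc v x)
  eta_eq : c.eta x x' * c.tau v x * (1 - T.th v w * c.lc v x) ^ 2 = c.tau w x' * c.eta v w
  th_eq : T.th x x' * c.tau v x * (1 - T.th v w * c.lc v x) = T.th v w

/-- Local quadrilaterals are Moebius. -/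
def QdLoc {S : HypSys X E} {c : CF S} (T : TH c) : Prop :=
  ∃ ε > 0, ε ≤ T.ε ∧ ∀ v w x x', S.SRel ε v w → S.URel ε v x → S.SRel ε x x' →
    S.URel ε w x' → QdM T v w x x'

/-- Transport of an unstable point along a stable path avoiding the poles, uniformly. -/
def TrackU {S : HypSys X E} {c : CF S} (T : TH c) : Prop :=
  ∃ ε > 0, ∀ (v : X) (γ : ℝ → X), ContinuousOn γ (Set.Icc 0 1) → γ 0 = v →
    (∀ t ∈ Set.Icc (0 : ℝ) 1, S.SRel ε v (γ t)) → ∀ B > 0, ∀ ω > 0, ∃ n₀ : ℕ,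
    ∀ x, UAsym S v x → ‖c.lc v x‖ ≤ B →
      (∀ t ∈ Set.Icc (0 : ℝ) 1, ω ≤ ‖1 - T.th v (γ t) * c.lc v x‖) →
      ∃ x', QdM T v (γ 1) x x' ∧ S.SRel c.ε₀ (S.g^[n₀] x) (S.g^[n₀] x')

end Pool.Agent.H779R2.Mo
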