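import Pool.Agent.H779R2.An.CCF
import Pool.Agent.H779R2.Mo.MDef

set_option autoImplicit false

namespace Pool.Agent.H779R2.Mo

open Pool.Agent.H721R2 Pool.Agent.H779R2.An Filter Topology MeasureTheory
open scoped BigOperators

variable {X E : Type*} [MetricSpace X] [CompactSpace X] [NormedAddCommGroup E]
  [InnerProductSpace ℝ E] [FiniteDimensional ℝ E]

/-- W21: linearity. -/
theorem lin_of_th {S : HypSys X E} (F : Flat S) {c : CF S} (T : TH c)
    (hmob : MobProp T Set.univ) (hz : ∃ ε > 0, ∀ x y, S.SRel ε x y → T.th x y = 0)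
    (ξ : X → ℂ → E) (h1 : ∀ x y, UAsym S x y → ξ x (c.lc x y) = F.Lc x y)
    (h2 : ∀ x y, SAsym S x y → ∀ z, ξ y (c.eta x y * z) = F.H x y (ξ x z)) :
    LinProp F Set.univ := by
  obtain ⟨ε₁, hε₁, hle, hm⟩ := hmob
  obtain ⟨ε₂, hε₂, hz⟩ := hz
  refine ⟨min ε₁ ε₂, lt_min hε₁ hε₂, ?_⟩
  intro x hx x' p p' hxx hxp hpp hxp'
  have hc : min ε₁ ε₂ ≤ c.ε₀ := (min_le_left _ _).trans (hle.trans T.ε_le)
  have hs : SAsym S x x' := c.geo.sasym x x' (hxx.mono hc)
  have hu : UAsym S x p := c.geo.uasym x p (hxp.mono hc)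
  have hu' : UAsym S x' p' := c.geo.uasym x' p' (hxp'.mono hc)
  have e1 := hm x hx x' p p' (hxx.mono (min_le_left _ _)) (hxp.mono (min_le_left _ _))
    (hpp.mono (min_le_left _ _)) (hxp'.mono (min_le_left _ _))
  have e2 := hz x x' (hxx.mono (min_le_right _ _))
  rw [e2] at e1
  have e3 : mob (c.eta x x') 0 (c.lc x p) = c.eta x x' * c.lc x p := by
    unfold mob
    rw [zero_mul, sub_zero, div_one]
  rw [e3] at e1
  rw [← h1 x' p' hu', e1, h2 x x' hs, h1 x p hu]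

end Pool.Agent.H779R2.Mo
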