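import Pool.Agent.H779R2.An.CCF
import Pool.Agent.H779R2.Mo.MDef

set_option autoImplicit false

namespace Pool.Agent.H779R2.Mo

open Pool.Agent.H721R2 Pool.Agent.H779R2.An Filter Topology MeasureTheory
open scoped BigOperators

variable {X E : Type*} [MetricSpace X] [CompactSpace X] [NormedAddCommGroup E]
  [InnerProductSpace ℝ E] [FiniteDimensional ℝ E]

/-- W20: complex coordinates together with their link to the real ones. -/
theorem exists_cf2 {S : HypSys X E} (F : Flat S) (J : CJ F)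
    (hJD : ∀ x, ∀ v ∈ S.Vu x, S.D x (J.J x v) = J.J (S.g x) (S.D x v)) (hCD : CDProp F)
    (h2 : ∀ x, Module.finrank ℝ (S.Vu x) = 2) :
    ∃ c : CF S, (∀ B : UV S, ∃ C : ℝ, 0 < C ∧ ∀ k y, c.cw k y ≤ C * om S B k y) ∧
      ∃ ξ : X → ℂ → E, (∀ x y, UAsym S x y → ξ x (c.lc x y) = F.Lc x y) ∧
        ∀ x y, SAsym S x y → ∀ z, ξ y (c.eta x y * z) = F.H x y (ξ x z) := by
  obtain ⟨b, hb⟩ := CCF.exists_b J h2
  obtain ⟨ε, hε, hcd⟩ := hCD
  have hF := F.geo.pos
  refine ⟨CCF.mk J b hb h2 hJD (min ε F.ε₀) (lt_min hε hF) (min_le_right _ _)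
    (fun w w' hw η hη => ?_), fun B => ⟨CCF.cc J, by linarith [CCF.one_le_cc J], fun k y => ?_⟩,
    CCF.vec J b, fun x y hxy => ?_, fun x y hxy z => ?_⟩
  · obtain ⟨ρ, hρ, h⟩ := hcd w w' (hw.mono (min_le_left _ _)) η hη
    exact ⟨ρ, hρ, fun q q' h1 h3 h4 h5 => h q q' (h1.mono (min_le_left _ _)) h3
      (h4.mono (min_le_left _ _)) (h5.mono (min_le_left _ _))⟩
  · set c := CCF.mk J b hb h2 hJD (min ε F.ε₀) (lt_min hε hF) (min_le_right _ _)
      (fun w w' hw η hη => _) with hc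
    -- iterates
    have hJn : ∀ (n : ℕ) (x : X), ∀ v ∈ S.Vu x,
        Dn S n x (J.J x v) = J.J (S.g^[n] x) (Dn S n x v) := by
      intro n x v hv
      induction n with
      | zero => rfl
      | succ n ih =>
        rw [Dn_succ, ih, hJD _ _ (Dn_mem S n x hv), Dn_succ, Function.iterate_succ_apply']
    have hLp : ∀ (n : ℕ) (x : X), CCF.co J b (S.g^[n] x) (Dn S n x (b x)) = c.Lp n x := by
      intro n x
      induction n with
      | zero =>
        rw [Dn_zero, Function.iterate_zero, id, CCF.co_b hb]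
        simp [CF.Lp]
      | succ n ih =>
        rw [Dn_succ, Function.iterate_succ_apply',
          CCF.co_map hb h2 (S.D (S.g^[n] x)) (S.g^[n] x) _ (S.mapU _) (hJD _)
            (Dn_mem S n x (hb x).1), ih]
        unfold CF.Lp
        rw [Finset.prod_range_succ, mul_comm]
        rfl
    set x := S.g.symm^[k] y with hx
    have hxy : S.g^[k] x = y := iter_iter_symm S k y
    have hw : Dn S.symm k y (B.b y) ∈ S.Vu x := Dn_symm_mem S k y (B.mem y)
    have h3 : Dn S k x (Dn S.symm k y (B.b y)) = B.b y := Dn_Dn_symm S k y (B.mem y)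
    have h4 := CCF.co_map hb h2 (Dn S k x) x (S.g^[k] x) (fun v hv => Dn_mem S k x hv)
      (hJn k x) hw
    rw [h3, hLp k x, hxy] at h4
    have h5 := congrArg norm h4
    rw [norm_mul, CCF.norm_co hb h2 y (B.mem y), CCF.norm_co hb h2 x hw] at h5
    have h6 := CCF.norm_le_nn J y (B.b y)
    rw [B.norm y] at h6
    have h7 := CCF.nn_le J x hw
    have h8 : (1 : ℝ) ≤ ‖c.Lp k x‖ * (CCF.cc J * om S B k y) := by
      calc (1 : ℝ) ≤ CCF.nn J y (B.b y) := h6
        _ = ‖c.Lp k x‖ * CCF.nn J x (Dn S.symm k y (B.b y)) := h5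
        _ ≤ _ := mul_le_mul_of_nonneg_left h7 (norm_nonneg _)
    have h9 : 0 < ‖c.Lp k x‖ := by
      rcases (norm_nonneg (c.Lp k x)).lt_or_eq with h | h
      · exact h
      · rw [← h] at h8; norm_num at h8
    change ‖c.Lp k x‖⁻¹ ≤ _
    rw [inv_le_iff_one_le_mul₀' h9]
    exact h8
  · exact CCF.vec_co hb h2 x (F.Lc_mem x y hxy)
  · have h3 := CCF.co_map hb h2 (F.H x y) x y (F.H_mem x y hxy) (J.J_H x y hxy)
      (CCF.vec_mem hb x z)
    rw [CCF.co_vec hb] at h3
    change CCF.vec J b y (CCF.co J b y (F.H x y (b x)) * z) = _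
    rw [← h3]
    exact CCF.vec_co hb h2 y (F.H_mem x y hxy _ (CCF.vec_mem hb x z))

end Pool.Agent.H779R2.Mo
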