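import Pool.Agent.H779R2.Mo.MSel

set_option autoImplicit false

namespace Pool.Agent.H779R2.Mo

open Pool.Agent.H721R2 Pool.Agent.H779R2.An Filter Topology MeasureTheory
open scoped BigOperators

variable {X E : Type*} [MetricSpace X] [CompactSpace X] [NormedAddCommGroup E]
  [InnerProductSpace ℝ E] [FiniteDimensional ℝ E]

namespace W16

theorem maxsep {Y : Type*} (Z : Finset Y) (f : Y → ℂ) (r : ℝ) (hr : 0 < r) :
    ∃ W ⊆ Z, (∀ x ∈ W, ∀ x' ∈ W, x ≠ x' → r ≤ ‖f x - f x'‖) ∧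
      ∀ x ∈ Z, ∃ y ∈ W, ‖f x - f y‖ < r := by
  classical
  obtain ⟨P, hP⟩ : ∃ P : Finset Y → Prop,
    ∀ W, P W ↔ ∀ x ∈ W, ∀ x' ∈ W, x ≠ x' → r ≤ ‖f x - f x'‖ := ⟨_, fun _ => Iff.rfl⟩
  obtain ⟨W, hW, hmax⟩ := Finset.exists_max_image (Z.powerset.filter P) Finset.card
    ⟨∅, by rw [Finset.mem_filter, Finset.mem_powerset, hP]; simp⟩
  rw [Finset.mem_filter, Finset.mem_powerset, hP] at hW
  refine ⟨W, hW.1, hW.2, ?_⟩
  intro x hx
  by_contra hcon
  push Not at hcon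
  have hxW : x ∉ W := fun h => by
    have := hcon x h
    simp at this
    linarith
  have := hmax (insert x W) (by
    rw [Finset.mem_filter, Finset.mem_powerset, hP]
    refine ⟨Finset.insert_subset hx hW.1, ?_⟩
    intro y hy y' hy' hne
    rcases Finset.mem_insert.mp hy with h1 | h1
    · rcases Finset.mem_insert.mp hy' with h3 | h3
      · exact absurd (h1.trans h3.symm) hne
      · rw [h1]; exact hcon y' h3
    · rcases Finset.mem_insert.mp hy' with h3 | h3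
      · rw [norm_sub_rev, h3]; exact hcon y h1
      · exact hW.2 y h1 y' h3 hne)
  rw [Finset.card_insert_of_notMem hxW] at this
  omega

omit [CompactSpace X] [FiniteDimensional ℝ E] in
theorem fr_nonneg {S : HypSys X E} (c : CF S) (n : ℕ) (x : X) : 0 ≤ fr c n x :=
  inv_nonneg.2 (norm_nonneg _)

omit [CompactSpace X] [FiniteDimensional ℝ E] in
theorem dsum_nonneg {S : HypSys X E} (c : CF S) (s : ℝ) (n : ℕ) (Q : Finset X) :
    0 ≤ dsum c s n Q :=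
  Finset.sum_nonneg (fun _ _ => Real.rpow_nonneg (fr_nonneg c n _) _)

theorem stepB {S : HypSys X E} (c : CF S) (s : ℝ) (δ₁ : ℝ) (hδ : 0 < δ₁) :
    ∃ K : ℝ, 0 < K ∧ ∀ (n : ℕ) (x₀ : X) (Q₀ : Finset X), DSep c n x₀ 1 1 Q₀ →
      ∃ (q₀ : X) (Q₁ : Finset X), DSep c n q₀ δ₁ 1 Q₁ ∧ dsum c s n Q₀ ≤ K * dsum c s n Q₁ := by
  classical
  obtain ⟨Cτ, hCτ1, hCτ⟩ := tau_bound c 1
  have hCτ0 : 0 < Cτ := by linarith
  set r : ℝ := δ₁ / Cτ with hr
  have hr0 : 0 < r := by positivity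
  refine ⟨(2 * 1 / r + 1) ^ 2, by positivity, fun n x₀ Q₀ hQ => ?_⟩
  obtain ⟨W, hW, hsep, hcov⟩ := maxsep Q₀ (c.lc x₀) r hr0
  have hcard : (W.card : ℝ) ≤ (2 * 1 / r + 1) ^ 2 :=
    K15.packing W (c.lc x₀) 0 1 r zero_le_one hr0
      (fun x hx => by rw [sub_zero]; exact (hQ.mem x (hW hx)).2) hsep
  rcases W.eq_empty_or_nonempty with hWe | hWn
  · have hQe : Q₀ = ∅ := by
      rw [Finset.eq_empty_iff_forall_notMem]
      intro q hq
      obtain ⟨y, hy, -⟩ := hcov q hq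
      rw [hWe] at hy
      exact absurd hy (Finset.notMem_empty y)
    refine ⟨x₀, ∅, ⟨fun q hq => absurd hq (Finset.notMem_empty q),
      fun q hq => absurd hq (Finset.notMem_empty q)⟩, ?_⟩
    rw [hQe]
    simp [dsum]
  · set cl : X → Finset X := fun w => Q₀.filter (fun q => ‖c.lc x₀ q - c.lc x₀ w‖ < r) with hcl
    obtain ⟨q₀, hq₀, hmax⟩ := Finset.exists_max_image W (fun w => dsum c s n (cl w)) hWn
    have hxq₀ := hQ.mem q₀ (hW hq₀)
    refine ⟨q₀, cl q₀, ⟨?_, ?_⟩, ?_⟩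
    · intro q hq
      rw [hcl, Finset.mem_filter] at hq
      have hxq := hQ.mem q hq.1
      refine ⟨hxq₀.1.symm.trans hxq.1, ?_⟩
      rw [c.base x₀ q₀ q hxq₀.1 hxq.1, norm_mul]
      have h1 := (hCτ x₀ q₀ hxq₀.1 hxq₀.2).1
      calc ‖c.tau x₀ q₀‖ * ‖c.lc x₀ q - c.lc x₀ q₀‖ ≤ Cτ * r :=
            mul_le_mul h1 hq.2.le (norm_nonneg _) hCτ0.le
        _ = δ₁ := by rw [hr]; field_simp
    · intro q hq q' hq' hne
      rw [hcl, Finset.mem_filter] at hq hq'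
      exact hQ.sep q hq.1 q' hq'.1 hne
    · have h1 : dsum c s n Q₀ ≤ ∑ w ∈ W, dsum c s n (cl w) := by
        have h2 : ∑ w ∈ W, dsum c s n (cl w) =
            ∑ q ∈ Q₀, ∑ w ∈ W, if ‖c.lc x₀ q - c.lc x₀ w‖ < r then fr c n q ^ s else 0 := by
          rw [Finset.sum_comm]
          refine Finset.sum_congr rfl (fun w _ => ?_)
          rw [hcl]
          unfold dsum
          rw [Finset.sum_filter]
        rw [h2]
        unfold dsum
        refine Finset.sum_le_sum (fun q hq => ?_)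
        obtain ⟨y, hy, hyr⟩ := hcov q hq
        have h3 : (if ‖c.lc x₀ q - c.lc x₀ y‖ < r then fr c n q ^ s else 0) ≤
            ∑ w ∈ W, if ‖c.lc x₀ q - c.lc x₀ w‖ < r then fr c n q ^ s else 0 := by
          refine Finset.single_le_sum
            (f := fun w => if ‖c.lc x₀ q - c.lc x₀ w‖ < r then fr c n q ^ s else 0)
            (fun w _ => ?_) hy
          show (0 : ℝ) ≤ if ‖c.lc x₀ q - c.lc x₀ w‖ < r then fr c n q ^ s else 0
          split_ifs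
          · exact Real.rpow_nonneg (fr_nonneg c n q) _
          · exact le_rfl
        rwa [if_pos hyr] at h3
      refine h1.trans ?_
      calc ∑ w ∈ W, dsum c s n (cl w) ≤ ∑ _w ∈ W, dsum c s n (cl q₀) :=
            Finset.sum_le_sum (fun w hw => hmax w hw)
        _ = W.card * dsum c s n (cl q₀) := by rw [Finset.sum_const, nsmul_eq_mul]
        _ ≤ _ := mul_le_mul_of_nonneg_right hcard (dsum_nonneg c s n _)

theorem stepC {S : HypSys X E} (c : CF S)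
    (htr : ∀ U V : Set X, IsOpen U → U.Nonempty → IsOpen V → V.Nonempty →
      ∃ n : ℕ, (S.g^[n] '' U ∩ V).Nonempty) (ρ ε : ℝ) (hρ : 0 < ρ) (hε : 0 < ε) (T₀ : ℕ) :
    ∃ Tm : ℕ, ∀ x q : X, ∃ (T : ℕ) (z : X), T₀ ≤ T ∧ T ≤ Tm ∧ S.URel c.ε₀ x z ∧
      ‖c.lc x z‖ ≤ ρ ∧ dist q (S.g^[T] z) ≤ ε := by
  have hM : 0 < c.M := by linarith [c.one_le_M]
  set ε' : ℝ := min c.ε₀ (min (ρ / c.M) (ε / 2)) with hε'
  have hε'0 : 0 < ε' := lt_min c.geo.pos (lt_min (by positivity) (by positivity))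
  have he1 : ε' ≤ c.ε₀ := min_le_left _ _
  have he2 : ε' ≤ ρ / c.M := (min_le_right _ _).trans (min_le_left _ _)
  have he3 : ε' ≤ ε / 2 := (min_le_right _ _).trans (min_le_right _ _)
  obtain ⟨ε₁, hε₁, hbr⟩ := exists_bracket S ε' hε'0
  set r : ℝ := min (ε₁ / 2) (ε / 4) with hr
  have hr0 : 0 < r := lt_min (by positivity) (by positivity)
  have hr1 : r ≤ ε₁ / 2 := min_le_left _ _
  have hr2 : r ≤ ε / 4 := min_le_right _ _
  obtain ⟨t, -, htf, htc⟩ := (isCompact_univ (X := X)).finite_cover_balls hr0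
  have hex : ∀ a b : X, ∃ (n : ℕ) (w : X), w ∈ Metric.ball a r ∧
      S.g^[T₀ + n] w ∈ Metric.ball b r := by
    intro a b
    have hcont : Continuous (S.g^[T₀]) := S.g.continuous.iterate T₀
    obtain ⟨n, y, ⟨w, hw, rfl⟩, hy⟩ := htr (Metric.ball a r) ((S.g^[T₀]) ⁻¹' Metric.ball b r)
      Metric.isOpen_ball ⟨a, Metric.mem_ball_self hr0⟩ (Metric.isOpen_ball.preimage hcont)
      ⟨S.g.symm^[T₀] b, by
        show S.g^[T₀] (S.g.symm^[T₀] b) ∈ Metric.ball b r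
        rw [iter_iter_symm]
        exact Metric.mem_ball_self hr0⟩
    refine ⟨n, w, hw, ?_⟩
    rw [Function.iterate_add_apply]
    exact hy
  choose N W hW1 hW2 using hex
  obtain ⟨Tm, hTm⟩ := ((htf.prod htf).image (fun p : X × X => T₀ + N p.1 p.2)).bddAbove
  refine ⟨Tm, fun x q => ?_⟩
  obtain ⟨a, ha, hxa⟩ := Set.mem_iUnion₂.1 (htc (Set.mem_univ x))
  obtain ⟨b, hb, hqb⟩ := Set.mem_iUnion₂.1 (htc (Set.mem_univ q))
  have hw1 := hW1 a b
  have hw2 := hW2 a b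
  rw [Metric.mem_ball] at hxa hqb hw1 hw2
  have hd : dist (W a b) x ≤ ε₁ := by
    have h1 := dist_triangle (W a b) a x
    rw [dist_comm a x] at h1
    linarith
  obtain ⟨z, hz1, hz2⟩ := hbr (W a b) x hd
  have hxz : S.URel c.ε₀ x z := (hz2.mono he1).symm
  refine ⟨T₀ + N a b, z, Nat.le_add_right _ _,
    hTm ⟨(a, b), Set.mk_mem_prod ha hb, rfl⟩, hxz, ?_, ?_⟩
  · refine (c.lc_le x z hxz).trans ?_
    have h3 : dist x z ≤ ε' := by
      rw [dist_comm]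
      exact hz2.dist_le
    calc c.M * dist x z ≤ c.M * (ρ / c.M) := mul_le_mul_of_nonneg_left (h3.trans he2) hM.le
      _ = ρ := by field_simp
  · have h4 : dist (S.g^[T₀ + N a b] (W a b)) (S.g^[T₀ + N a b] z) ≤ ε' := hz1 _
    have h5 := dist_triangle q b (S.g^[T₀ + N a b] z)
    have h6 := dist_triangle b (S.g^[T₀ + N a b] (W a b)) (S.g^[T₀ + N a b] z)
    rw [dist_comm b (S.g^[T₀ + N a b] (W a b))] at h6
    linarith

omit [CompactSpace X] [FiniteDimensional ℝ E] in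
theorem Lp_add {S : HypSys X E} (c : CF S) (n m : ℕ) (x : X) :
    c.Lp (n + m) x = c.Lp n (S.g^[m] x) * c.Lp m x := by
  unfold CF.Lp
  rw [add_comm, Finset.prod_range_add, mul_comm]
  congr 1
  refine Finset.prod_congr rfl (fun i _ => ?_)
  rw [← Function.iterate_add_apply, add_comm]

omit [CompactSpace X] [FiniteDimensional ℝ E] in
theorem dsum_pull {S : HypSys X E} (c : CF S) (s : ℝ) (hs : 0 < s) (n m : ℕ) [DecidableEq X]
    (Q : Finset X) :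
    dsum c s n Q ≤ (c.M ^ m) ^ s * dsum c s (n + m) (Q.image (fun x => S.g.symm^[m] x)) := by
  have hinj : Function.Injective (fun x => S.g.symm^[m] x) := S.g.symm.injective.iterate m
  have hM : 0 < c.M := by linarith [c.one_le_M]
  unfold dsum
  rw [Finset.sum_image (fun a _ b _ h => hinj h), Finset.mul_sum]
  refine Finset.sum_le_sum (fun q _ => ?_)
  rw [← Real.mul_rpow (by positivity) (fr_nonneg c _ _)]
  refine Real.rpow_le_rpow (fr_nonneg c _ _) ?_ hs.le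
  have h1 : fr c (n + m) (S.g.symm^[m] q) = fr c n q * ‖c.Lp m (S.g.symm^[m] q)‖⁻¹ := by
    unfold fr
    rw [Lp_add, norm_mul, mul_inv, iter_iter_symm]
  have h2 : 0 < ‖c.Lp m (S.g.symm^[m] q)‖ := K15.Lp_pos c m _
  have h3 := K15.Lp_le c m (S.g.symm^[m] q)
  rw [h1]
  have h4 : 1 ≤ c.M ^ m * ‖c.Lp m (S.g.symm^[m] q)‖⁻¹ := by
    rw [← div_eq_mul_inv, le_div_iff₀ h2, one_mul]
    exact h3
  calc fr c n q = fr c n q * 1 := (mul_one _).symm
    _ ≤ fr c n q * (c.M ^ m * ‖c.Lp m (S.g.symm^[m] q)‖⁻¹) :=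
        mul_le_mul_of_nonneg_left h4 (fr_nonneg c _ _)
    _ = _ := by ring

theorem pull {S : HypSys X E} (c : CF S) (ρ θ : ℝ) (T n : ℕ) (x z : X)
    (hT : c.M / 16 ^ T ≤ ρ / 2) (hxz : S.URel c.ε₀ x z) (hlc : ‖c.lc x z‖ ≤ ρ / 2)
    [DecidableEq X] (Q : Finset X) (hQ : DSep c n (S.g^[T] z) 1 θ Q) :
    DSep c (n + T) x ρ θ (Q.image (fun y => S.g.symm^[T] y)) := by
  have hM : 0 < c.M := by linarith [c.one_le_M]
  have hu : UAsym S x z := c.geo.uasym x z hxz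
  constructor
  · intro q hq
    obtain ⟨y, hy, rfl⟩ := Finset.mem_image.1 hq
    obtain ⟨h1, h2⟩ := hQ.mem y hy
    have h3 : UAsym S z (S.g.symm^[T] y) := UAsym.of_iter T (by rw [iter_iter_symm]; exact h1)
    have h4 : UAsym S x (S.g.symm^[T] y) := hu.trans h3
    refine ⟨h4, ?_⟩
    have h5 := K15.lc_iter c h3 T
    rw [iter_iter_symm] at h5
    have h6 : ‖c.Lp T z‖ * ‖c.lc z (S.g.symm^[T] y)‖ ≤ 1 := by
      rw [← norm_mul, ← h5]
      exact h2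
    have h7 : ‖c.lc z (S.g.symm^[T] y)‖ ≤ 1 / 16 ^ T := by
      rw [le_div_iff₀ (by positivity)]
      calc ‖c.lc z (S.g.symm^[T] y)‖ * 16 ^ T ≤ ‖c.lc z (S.g.symm^[T] y)‖ * ‖c.Lp T z‖ :=
            mul_le_mul_of_nonneg_left (K15.le_Lp c T z) (norm_nonneg _)
        _ ≤ 1 := by rw [mul_comm]; exact h6
    have h8 := c.base x z (S.g.symm^[T] y) hu h4
    have h9 : 1 ≤ c.M * ‖c.tau x z‖ := c.one_le_tau hxz
    have h10 : ‖c.lc x (S.g.symm^[T] y) - c.lc x z‖ ≤ c.M * ‖c.lc z (S.g.symm^[T] y)‖ := by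
      rw [h8, norm_mul]
      calc ‖c.lc x (S.g.symm^[T] y) - c.lc x z‖
          = 1 * ‖c.lc x (S.g.symm^[T] y) - c.lc x z‖ := (one_mul _).symm
        _ ≤ (c.M * ‖c.tau x z‖) * ‖c.lc x (S.g.symm^[T] y) - c.lc x z‖ :=
            mul_le_mul_of_nonneg_right h9 (norm_nonneg _)
        _ = _ := by ring
    have h11 : c.lc x (S.g.symm^[T] y) = c.lc x z + (c.lc x (S.g.symm^[T] y) - c.lc x z) := by ring
    rw [h11]
    refine (norm_add_le _ _).trans ?_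
    have h12 : c.M * ‖c.lc z (S.g.symm^[T] y)‖ ≤ c.M / 16 ^ T := by
      rw [div_eq_mul_one_div]
      exact mul_le_mul_of_nonneg_left h7 hM.le
    linarith
  · intro q hq q' hq' hne
    obtain ⟨y, hy, rfl⟩ := Finset.mem_image.1 hq
    obtain ⟨y', hy', rfl⟩ := Finset.mem_image.1 hq'
    have hne' : y ≠ y' := fun h => hne (by rw [h])
    have h1 := hQ.sep y hy y' hy' hne'
    rw [Function.iterate_add_apply, Function.iterate_add_apply, iter_iter_symm, iter_iter_symm]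
    exact h1

theorem min_pos (A : ℕ → ℝ) (hA : ∀ T, 0 < A T) (m : ℕ) : ∃ a > 0, ∀ T ≤ m, a ≤ A T := by
  induction m with
  | zero => exact ⟨A 0, hA 0, fun T hT => by rw [Nat.le_zero.1 hT]⟩
  | succ m ih =>
    obtain ⟨a, ha, h⟩ := ih
    refine ⟨min a (A (m + 1)), lt_min ha (hA _), fun T hT => ?_⟩
    rcases Nat.le_succ_iff.1 hT with h1 | h1
    · exact (min_le_left _ _).trans (h T h1)
    · rw [h1]
      exact min_le_right _ _

end W16

/-- W16: uniform lower bound, by transitivity. -/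
theorem dlow {S : HypSys X E} (c : CF S) (s : ℝ) (hs : 0 < s) (hs2 : s ≤ 2)
    (htr : ∀ U V : Set X, IsOpen U → U.Nonempty → IsOpen V → V.Nonempty →
      ∃ n : ℕ, (S.g^[n] '' U ∩ V).Nonempty)
    (hdt : ∃ ε > 0, ∃ δ₁ > 0, ∃ C : ℝ, 1 ≤ C ∧ ∀ x x', dist x x' ≤ ε → ∀ (n : ℕ) (Q : Finset X),
      DSep c n x δ₁ 1 Q → ∃ Q' : Finset X, DSep c n x' 1 C⁻¹ Q' ∧
        dsum c s n Q ≤ C * dsum c s n Q') (ρ : ℝ) (hρ : 0 < ρ) :
    ∃ a > 0, ∀ (n : ℕ) (x : X), ∃ Q, DSep c n x ρ 1 Q ∧ a * Af c s n ≤ dsum c s n Q := by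
  classical
  obtain ⟨ε, hε, δ₁, hδ₁, C, hC, hdt⟩ := hdt
  have hC0 : 0 < C := by linarith
  have hM : 0 < c.M := by linarith [c.one_le_M]
  obtain ⟨K, hK, hB⟩ := W16.stepB c s δ₁ hδ₁
  obtain ⟨T₀, hT₀⟩ : ∃ T₀ : ℕ, c.M / 16 ^ T₀ ≤ ρ / 2 := by
    obtain ⟨n, hn⟩ := exists_nat_ge (2 * c.M / ρ)
    refine ⟨n, ?_⟩
    have h1 : (n : ℝ) ≤ 16 ^ n := by
      have : n < 16 ^ n := Nat.lt_pow_self (by norm_num)
      exact_mod_cast this.le
    rw [div_le_iff₀ hρ] at hn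
    rw [div_le_iff₀ (by positivity)]
    nlinarith
  obtain ⟨Tm, hTm⟩ := W16.stepC c htr (ρ / 2) ε (by positivity) hε T₀
  have hsel : ∀ T : ℕ, ∃ C₂ : ℝ, 0 < C₂ ∧ ∀ (n : ℕ) (x : X) (Q : Finset X),
      DSep c (n + T) x ρ C⁻¹ Q → ∃ Q' ⊆ Q, DSep c n x ρ 1 Q' ∧
        dsum c s (n + T) Q ≤ C₂ * dsum c s n Q' :=
    fun T => dsel c s hs ρ C⁻¹ hρ (inv_pos.2 hC0) T
  choose C₂ hC₂ hsel using hsel
  obtain ⟨a, ha, haT⟩ := W16.min_pos (fun T => (2 * K * C * (c.M ^ T) ^ s * C₂ T)⁻¹)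
    (fun T => by
      have := hC₂ T
      positivity) Tm
  refine ⟨a, ha, fun n x => ?_⟩
  rcases le_or_gt (Af c s n) 0 with hA | hA
  · refine ⟨∅, ⟨fun q hq => absurd hq (Finset.notMem_empty q),
      fun q hq => absurd hq (Finset.notMem_empty q)⟩, ?_⟩
    have h1 : dsum c s n (∅ : Finset X) = 0 := by simp [dsum]
    rw [h1]
    exact mul_nonpos_of_nonneg_of_nonpos ha.le hA
  · -- near optimal set
    have hne : {t | ∃ x Q, DSep c n x 1 1 Q ∧ t = dsum c s n Q}.Nonempty :=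
      ⟨dsum c s n ∅, x, ∅, ⟨fun q hq => absurd hq (Finset.notMem_empty q),
        fun q hq => absurd hq (Finset.notMem_empty q)⟩, rfl⟩
    have hlt : Af c s n / 2 < sSup {t | ∃ x Q, DSep c n x 1 1 Q ∧ t = dsum c s n Q} := by
      show Af c s n / 2 < Af c s n
      linarith
    obtain ⟨t, ⟨x₀, Q₀, hQ₀, rfl⟩, ht⟩ := exists_lt_of_lt_csSup hne hlt
    obtain ⟨q₀, Q₁, hQ₁, hs1⟩ := hB n x₀ Q₀ hQ₀
    obtain ⟨T, z, hT1, hT2, hxz, hlc, hd⟩ := hTm x q₀
    obtain ⟨Q', hQ', hs2'⟩ := hdt q₀ (S.g^[T] z) hd n Q₁ hQ₁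
    have hT3 : c.M / 16 ^ T ≤ ρ / 2 := by
      refine le_trans ?_ hT₀
      exact div_le_div_of_nonneg_left hM.le (by positivity)
        (pow_le_pow_right₀ (by norm_num) hT1)
    have hQ'' := W16.pull c ρ C⁻¹ T n x z hT3 hxz hlc Q' hQ'
    have hs3 := W16.dsum_pull c s hs n T Q'
    obtain ⟨Q₃, -, hQ₃, hs4⟩ := hsel T n x _ hQ''
    refine ⟨Q₃, hQ₃, ?_⟩
    have hMs : 0 < (c.M ^ T) ^ s := by positivity
    have hC2 := hC₂ T
    have hchain : Af c s n ≤ (2 * K * C * (c.M ^ T) ^ s * C₂ T) * dsum c s n Q₃ := by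
      have e1 : Af c s n ≤ 2 * dsum c s n Q₀ := by linarith
      calc Af c s n ≤ 2 * dsum c s n Q₀ := e1
        _ ≤ 2 * (K * dsum c s n Q₁) := by gcongr
        _ ≤ 2 * (K * (C * dsum c s n Q')) := by gcongr
        _ ≤ 2 * (K * (C * ((c.M ^ T) ^ s *
              dsum c s (n + T) (Q'.image (fun x => S.g.symm^[T] x))))) := by gcongr
        _ ≤ 2 * (K * (C * ((c.M ^ T) ^ s * (C₂ T * dsum c s n Q₃)))) := by gcongr
        _ = _ := by ring
    have hpos : 0 < 2 * K * C * (c.M ^ T) ^ s * C₂ T := by positivity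
    calc a * Af c s n ≤ (2 * K * C * (c.M ^ T) ^ s * C₂ T)⁻¹ * Af c s n :=
          mul_le_mul_of_nonneg_right (haT T hT2) hA.le
      _ ≤ (2 * K * C * (c.M ^ T) ^ s * C₂ T)⁻¹ *
            ((2 * K * C * (c.M ^ T) ^ s * C₂ T) * dsum c s n Q₃) :=
          mul_le_mul_of_nonneg_left hchain (inv_nonneg.2 hpos.le)
      _ = dsum c s n Q₃ := by
          rw [← mul_assoc, inv_mul_cancel₀ hpos.ne', one_mul]

end Pool.Agent.H779R2.Mo
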