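import Pool.Agent.H779R2.Mo.MSel

set_option autoImplicit false

namespace Pool.Agent.H779R2.Mo

open Pool.Agent.H721R2 Pool.Agent.H779R2.An Filter Topology MeasureTheory
open scoped BigOperators

variable {X E : Type*} [MetricSpace X] [CompactSpace X] [NormedAddCommGroup E]
  [InnerProductSpace ℝ E] [FiniteDimensional ℝ E]

section aux

variable {S : HypSys X E} (c : CF S)

omit [CompactSpace X] [FiniteDimensional ℝ E]

private theorem w17_Lp_add (n k : ℕ) (x : X) :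
    c.Lp (n + k) x = c.Lp n (S.g^[k] x) * c.Lp k x := by
  unfold CF.Lp
  rw [add_comm n k, Finset.prod_range_add, mul_comm]
  congr 1
  apply Finset.prod_congr rfl
  intro i _
  rw [add_comm k i, Function.iterate_add_apply]

private theorem w17_fr_add (n k : ℕ) (x : X) : fr c (n + k) x = fr c n (S.g^[k] x) * fr c k x := by
  unfold fr
  rw [w17_Lp_add, norm_mul, mul_inv]

private theorem w17_fr_pos (n : ℕ) (x : X) : 0 < fr c n x := inv_pos.2 (c.Lp_norm_pos _ _)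

private theorem w17_fr_eq (n : ℕ) (x : X) : (fr c n x)⁻¹ = ‖c.Lp n x‖ := inv_inv _

/-- every complex number is a coordinate -/
private theorem w17_surj (x : X) (u : ℂ) : ∃ y, UAsym S x y ∧ c.lc x y = u := by
  obtain ⟨ρ, hρ, h⟩ := c.surj c.ε₀ c.geo.pos
  obtain ⟨n, hn⟩ : ∃ n : ℕ, ‖u‖ / 16 ^ n ≤ ρ := by
    obtain ⟨n, hn⟩ := exists_nat_ge (‖u‖ / ρ)
    refine ⟨n, ?_⟩
    rw [div_le_iff₀ (by positivity)]
    have h1 : (n : ℝ) ≤ 16 ^ n := by
      have : n < 16 ^ n := Nat.lt_pow_self (by norm_num)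
      exact_mod_cast this.le
    rw [div_le_iff₀ hρ] at hn
    nlinarith
  obtain ⟨y, hy, hy2⟩ := h (S.g.symm^[n] x) (u / c.Lp n (S.g.symm^[n] x)) (by
    rw [norm_div]
    refine le_trans ?_ hn
    have := c.Lp_ge n (S.g.symm^[n] x)
    gcongr)
  have hu := c.geo.uasym _ _ hy
  refine ⟨S.g^[n] y, ?_, ?_⟩
  · have := hu.iter n
    rwa [iter_iter_symm] at this
  · have := c.lc_iter hu n
    rw [iter_iter_symm] at this
    rw [this, hy2]
    have h0 := c.Lp_ne_zero n (S.g.symm^[n] x)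
    field_simp

/-- maximal separated sets -/
private theorem w17_max (s : ℝ) (hs : 0 < s) (k : ℕ) (x : X)
    (hb : BddAbove {t | ∃ x Q, DSep c k x 1 1 Q ∧ t = dsum c s k Q}) :
    ∃ Q, DSep c k x (1 / 2) 1 Q ∧ ∀ y, UAsym S x y → ‖c.lc x y‖ ≤ 1 / 2 →
      ∃ q ∈ Q, ‖c.lc (S.g^[k] q) (S.g^[k] y)‖ < 1 ∨ ‖c.lc (S.g^[k] y) (S.g^[k] q)‖ < 1 := by
  classical
  obtain ⟨B, hB⟩ := hb
  have hM := c.one_le_M
  have hMk : (0 : ℝ) < (c.M ^ k)⁻¹ ^ s := by positivity
  have hbd : BddAbove {m : ℕ | ∃ Q, DSep c k x (1 / 2) 1 Q ∧ Q.card = m} := by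
    refine ⟨⌈B / (c.M ^ k)⁻¹ ^ s⌉₊, ?_⟩
    rintro m ⟨Q, hQ, rfl⟩
    have h1 : dsum c s k Q ≤ B := hB ⟨x, Q, ⟨fun q hq => ⟨(hQ.mem q hq).1, (hQ.mem q hq).2.trans (by norm_num)⟩,
      hQ.sep⟩, rfl⟩
    have h2 : (Q.card : ℝ) * (c.M ^ k)⁻¹ ^ s ≤ dsum c s k Q := by
      unfold dsum
      rw [← nsmul_eq_mul, ← Finset.sum_const]
      apply Finset.sum_le_sum
      intro q _
      apply Real.rpow_le_rpow (by positivity) _ hs.le
      unfold fr
      have := K15.Lp_le c k q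
      have := c.Lp_norm_pos k q
      gcongr
    have h3 : (Q.card : ℝ) ≤ B / (c.M ^ k)⁻¹ ^ s := by
      rw [le_div_iff₀ hMk]
      exact h2.trans h1
    exact_mod_cast h3.trans (Nat.le_ceil _)
  have hne : {m : ℕ | ∃ Q, DSep c k x (1 / 2) 1 Q ∧ Q.card = m}.Nonempty :=
    ⟨0, ∅, ⟨by simp, by simp⟩, by simp⟩
  obtain ⟨Q, hQ, hcard⟩ := Nat.sSup_mem hne hbd
  refine ⟨Q, hQ, fun y hy hy1 => ?_⟩
  by_contra hcon
  push Not at hcon
  have hyQ : y ∉ Q := fun h => by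
    have := (hcon y h).1
    rw [c.lc_self, norm_zero] at this
    linarith
  have hins : DSep c k x (1 / 2) 1 (insert y Q) := by
    constructor
    · intro q hq
      rcases Finset.mem_insert.mp hq with h | h
      · rw [h]; exact ⟨hy, hy1⟩
      · exact hQ.mem q h
    · intro q hq q' hq' hne
      rcases Finset.mem_insert.mp hq with h | h
      · rcases Finset.mem_insert.mp hq' with h' | h'
        · exact absurd (h.trans h'.symm) hne
        · rw [h]; exact (hcon q' h').2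
      · rcases Finset.mem_insert.mp hq' with h' | h'
        · rw [h']; exact (hcon q h).1
        · exact hQ.sep q h q' h' hne
  have h1 := le_csSup hbd ⟨insert y Q, hins, rfl⟩
  rw [Finset.card_insert_of_notMem hyQ, ← hcard] at h1
  omega

end aux

/-- areas -/
private theorem w17_area {Y : Type*} (C₂ : ℝ) (hC : 0 < C₂) (Q : Finset Y) (f : Y → ℂ) (r : Y → ℝ)
    (hr : ∀ q, 0 < r q) (h : ∀ u : ℂ, ‖u‖ ≤ 1 / 2 → ∃ q ∈ Q, ‖u - f q‖ ≤ C₂ * r q) :
    1 / 4 ≤ C₂ ^ 2 * ∑ q ∈ Q, r q ^ 2 := by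
  have hsub : Metric.closedBall (0 : ℂ) (1 / 2) ⊆ ⋃ q ∈ Q, Metric.closedBall (f q) (C₂ * r q) := by
    intro u hu
    rw [mem_closedBall_zero_iff] at hu
    obtain ⟨q, hq, h1⟩ := h u hu
    simp only [Set.mem_iUnion]
    exact ⟨q, hq, by rw [Metric.mem_closedBall, dist_eq_norm]; exact h1⟩
  have h1 := (measure_mono (μ := volume) hsub).trans
    (measure_biUnion_finset_le Q fun q => Metric.closedBall (f q) (C₂ * r q))
  simp only [Complex.volume_closedBall] at h1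
  have h2 : ∀ x : ℝ, 0 ≤ x → (ENNReal.ofReal x ^ 2 * (NNReal.pi : ENNReal)).toReal = x ^ 2 * Real.pi := by
    intro x hx
    rw [ENNReal.toReal_mul, ENNReal.toReal_pow, ENNReal.toReal_ofReal hx, ENNReal.coe_toReal,
      NNReal.coe_real_pi]
  have htop : ∀ x : ℝ, ENNReal.ofReal x ^ 2 * (NNReal.pi : ENNReal) ≠ ⊤ := fun x =>
    ENNReal.mul_ne_top (ENNReal.pow_ne_top ENNReal.ofReal_ne_top) ENNReal.coe_ne_top
  have h3 := ENNReal.toReal_mono (ENNReal.sum_ne_top.2 fun q _ => htop _) h1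
  rw [h2 _ (by norm_num), ENNReal.toReal_sum (fun q _ => htop _)] at h3
  have h4 : ∑ q ∈ Q, (ENNReal.ofReal (C₂ * r q) ^ 2 * (NNReal.pi : ENNReal)).toReal =
      (C₂ ^ 2 * ∑ q ∈ Q, r q ^ 2) * Real.pi := by
    rw [Finset.mul_sum, Finset.sum_mul]
    apply Finset.sum_congr rfl
    intro q _
    rw [h2 _ (by have := hr q; positivity)]
    ring
  rw [h4] at h3
  have h5 := le_of_mul_le_mul_right h3 Real.pi_pos
  norm_num at h5 ⊢
  exact h5

/-- W17: growth of the sums. -/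
theorem af_growth {S : HypSys X E} (c : CF S) (s : ℝ) (hs : 0 < s) (hs2 : s ≤ 2)
    (hlow : ∀ ρ > 0, ∃ a > 0, ∀ (n : ℕ) (x : X), ∃ Q, DSep c n x ρ 1 Q ∧
      a * Af c s n ≤ dsum c s n Q) :
    ∃ a > 0, ∀ n k : ℕ, a * ((16 : ℝ) ^ k) ^ (2 - s) * Af c s n ≤ Af c s (n + k) := by
  classical
  rcases isEmpty_or_nonempty X with hX | ⟨⟨x⟩⟩
  · refine ⟨1, one_pos, fun n k => ?_⟩
    have h0 : ∀ n, Af c s n = 0 := fun n => by
      unfold Af
      have : {t | ∃ x Q, DSep c n x 1 1 Q ∧ t = dsum c s n Q} = (∅ : Set ℝ) := by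
        ext t
        simp only [Set.mem_ofPred_eq, Set.mem_empty_iff_false, iff_false, not_exists]
        intro x
        exact (hX.false x).elim
      rw [this, Real.sSup_empty]
    rw [h0, h0, mul_zero]
  obtain ⟨C₁, hC1, htau⟩ := tau_bound c 1
  have hC0 : (0 : ℝ) < C₁ := by linarith
  set ρ₁ : ℝ := 1 / (4 * C₁) with hρ1
  have hρpos : 0 < ρ₁ := by positivity
  have hρ4 : ρ₁ ≤ 1 / 4 := by
    rw [hρ1]
    apply one_div_le_one_div_of_le (by norm_num)
    linarith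
  have hρC : C₁ * ρ₁ = 1 / 4 := by rw [hρ1]; field_simp
  obtain ⟨a₂, ha2, hlow2⟩ := hlow ρ₁ hρpos
  set θ : ℝ := 1 / (2 * C₁) with hθ
  have hθpos : 0 < θ := by positivity
  have hθ1 : θ ≤ 1 := by
    rw [hθ, div_le_one (by positivity)]
    linarith
  obtain ⟨C, hC, hsel⟩ := dsel c s hs 1 θ one_pos hθpos 0
  have hbdd := fun n => af_bdd c s hs hs2 n
  have hAf0 : ∀ n, 0 ≤ Af c s n := fun n => by
    unfold Af
    apply le_csSup (hbdd n)
    exact ⟨x, ∅, ⟨by simp, by simp⟩, by simp [dsum]⟩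
  set C₂ : ℝ := C₁ ^ 2 with hC2
  have hC2pos : 0 < C₂ := by positivity
  refine ⟨C⁻¹ * ((C₂⁻¹) ^ s * (a₂ * (4 * C₂ ^ 2)⁻¹)), by positivity, fun n k => ?_⟩
  obtain ⟨Q, hQ, hcov⟩ := w17_max c s hs k x (hbdd k)
  have hfk := fun q => w17_fr_pos c k q
  -- areas
  have harea : 1 / 4 ≤ C₂ ^ 2 * ∑ q ∈ Q, fr c k q ^ 2 := by
    apply w17_area C₂ hC2pos Q (fun q => c.lc x q) (fun q => fr c k q) hfk
    intro u hu
    obtain ⟨y, hy, hyu⟩ := w17_surj c x u
    rw [← hyu] at hu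
    obtain ⟨q, hq, hqy⟩ := hcov y hy hu
    refine ⟨q, hq, ?_⟩
    have hxq := (hQ.mem q hq).1
    have hqyU : UAsym S q y := hxq.symm.trans hy
    have hb1 : ‖c.lc (S.g^[k] q) (S.g^[k] y)‖ ≤ C₁ := by
      rcases hqy with h | h
      · linarith
      · have h1 := c.base (S.g^[k] y) (S.g^[k] q) (S.g^[k] y) (hqyU.symm.iter k) (UAsym.refl S _)
        rw [c.lc_self, zero_sub] at h1
        rw [h1, norm_mul, norm_neg]
        have h2 := (htau _ _ (hqyU.symm.iter k) h.le).1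
        calc _ ≤ C₁ * 1 := by gcongr
          _ = C₁ := mul_one _
    rw [c.lc_iter hqyU k, c.base x q y hxq hy, norm_mul, norm_mul] at hb1
    have h3 := (htau x q hxq ((hQ.mem q hq).2.trans (by norm_num))).2
    have h4 := c.Lp_norm_pos k q
    have h5 : ‖c.lc x y - c.lc x q‖ ≤ C₁ * (‖c.tau x q‖ * ‖c.lc x y - c.lc x q‖) := by
      calc ‖c.lc x y - c.lc x q‖ = 1 * ‖c.lc x y - c.lc x q‖ := (one_mul _).symm
        _ ≤ (C₁ * ‖c.tau x q‖) * ‖c.lc x y - c.lc x q‖ := by gcongr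
        _ = _ := by ring
    have h6 : ‖c.tau x q‖ * ‖c.lc x y - c.lc x q‖ ≤ C₁ * fr c k q := by
      unfold fr
      rw [← div_eq_mul_inv, le_div_iff₀ h4]
      linarith
    rw [← hyu]
    calc ‖c.lc x y - c.lc x q‖ ≤ C₁ * (‖c.tau x q‖ * ‖c.lc x y - c.lc x q‖) := h5
      _ ≤ C₁ * (C₁ * fr c k q) := by gcongr
      _ = C₂ * fr c k q := by rw [hC2]; ring
  -- the sum of the powers
  have hpow : ((16 : ℝ) ^ k) ^ (2 - s) * (4 * C₂ ^ 2)⁻¹ ≤ ∑ q ∈ Q, fr c k q ^ s := by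
    have h1 : (4 * C₂ ^ 2)⁻¹ ≤ ∑ q ∈ Q, fr c k q ^ 2 := by
      rw [inv_le_iff_one_le_mul₀ (by positivity)]
      nlinarith
    calc ((16 : ℝ) ^ k) ^ (2 - s) * (4 * C₂ ^ 2)⁻¹ ≤ ((16 : ℝ) ^ k) ^ (2 - s) * ∑ q ∈ Q, fr c k q ^ 2 := by gcongr
      _ = ∑ q ∈ Q, ((16 : ℝ) ^ k) ^ (2 - s) * fr c k q ^ 2 := Finset.mul_sum _ _ _
      _ ≤ ∑ q ∈ Q, fr c k q ^ s := by
        apply Finset.sum_le_sum
        intro q _
        have h2 := hfk q
        have h3 : fr c k q ^ s = ‖c.Lp k q‖ ^ (2 - s) * fr c k q ^ 2 := by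
          rw [← w17_fr_eq, ← Real.rpow_natCast (fr c k q) 2, Real.inv_rpow h2.le, ← Real.rpow_neg h2.le,
            ← Real.rpow_add h2]
          congr 1
          push_cast
          ring
        rw [h3]
        have h4 := c.Lp_ge k q
        have h5 : 0 ≤ 2 - s := by linarith
        gcongr
  -- the refined sets
  choose R hR hRs using fun z : X => hlow2 n z
  set φ : X → X := fun r => S.g.symm^[k] r with hφ
  have hφinj : Function.Injective φ := S.g.symm.injective.iterate k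
  have hgφ : ∀ r, S.g^[k] (φ r) = r := fun r => iter_iter_symm S k r
  have hUq : ∀ q, ∀ r ∈ R (S.g^[k] q), UAsym S q (φ r) := fun q r hr =>
    UAsym.of_iter k (by rw [hgφ]; exact ((hR (S.g^[k] q)).mem r hr).1)
  have hlcq : ∀ q, ∀ r ∈ R (S.g^[k] q), ‖c.lc q (φ r)‖ ≤ ρ₁ := by
    intro q r hr
    have h1 := c.lc_iter (hUq q r hr) k
    rw [hgφ] at h1
    have h2 := ((hR (S.g^[k] q)).mem r hr).2
    rw [h1, norm_mul] at h2
    have h3 := c.one_le_Lp k q
    calc ‖c.lc q (φ r)‖ = 1 * ‖c.lc q (φ r)‖ := (one_mul _).symm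
      _ ≤ ‖c.Lp k q‖ * ‖c.lc q (φ r)‖ := by gcongr
      _ ≤ ρ₁ := h2
  -- separation between different cells
  have hdiff : ∀ q ∈ Q, ∀ q' ∈ Q, q ≠ q' → ∀ r ∈ R (S.g^[k] q), ∀ r' ∈ R (S.g^[k] q'),
      θ ≤ ‖c.lc r r'‖ := by
    intro q hq q' hq' hne r hr r' hr'
    set Z := S.g^[k] q with hZ
    set Z' := S.g^[k] q' with hZ'
    have hqq : UAsym S q q' := (hQ.mem q hq).1.symm.trans (hQ.mem q' hq').1
    have hZZ : UAsym S Z Z' := hqq.iter k
    have h1 := hQ.sep q hq q' hq' hne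
    have h2 := hQ.sep q' hq' q hq (Ne.symm hne)
    rw [← hZ, ← hZ'] at h1 h2
    obtain ⟨hUr, hlr⟩ := (hR Z).mem r hr
    obtain ⟨hUr', hlr'⟩ := (hR Z').mem r' hr'
    have b1 := c.base Z Z' r' hZZ (hZZ.trans hUr')
    have b2 := c.base Z Z' Z hZZ (UAsym.refl S Z)
    have b3 := c.base Z r r' hUr (hZZ.trans hUr')
    rw [c.lc_self, zero_sub] at b2
    have n1 := congrArg norm b1
    have n2 := congrArg norm b2
    have n3 := congrArg norm b3
    rw [norm_mul] at n1 n2 n3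
    rw [norm_neg] at n2
    have ht := (htau Z r hUr (by linarith)).2
    set A := ‖c.lc Z Z'‖ with hA
    set D := ‖c.lc Z r' - c.lc Z Z'‖ with hD
    have hD0 : 0 ≤ D := norm_nonneg _
    have hDA : D ≤ ρ₁ * A := by
      have e1 : ‖c.tau Z Z'‖ * A * D ≤ ρ₁ * A := by
        calc ‖c.tau Z Z'‖ * A * D = (‖c.tau Z Z'‖ * D) * A := by ring
          _ = ‖c.lc Z' r'‖ * A := by rw [n1]
          _ ≤ ρ₁ * A := by gcongr
      have e2 : 1 * D ≤ ‖c.tau Z Z'‖ * A * D := by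
        apply mul_le_mul_of_nonneg_right _ hD0
        rw [← n2]; exact h2
      linarith
    have h3 : A - D ≤ ‖c.lc Z r'‖ := by
      have := norm_sub_norm_le (c.lc Z Z') (c.lc Z Z' - c.lc Z r')
      rw [sub_sub_cancel, norm_sub_rev] at this
      exact this
    have h4 : ‖c.lc Z r'‖ - ‖c.lc Z r‖ ≤ ‖c.lc Z r' - c.lc Z r‖ := norm_sub_norm_le _ _
    have h5 : 1 / 2 ≤ ‖c.lc Z r' - c.lc Z r‖ := by nlinarith
    rw [n3, hθ, div_le_iff₀ (by positivity)]
    nlinarith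
  -- the big set
  set P : Finset X := Q.biUnion (fun q => (R (S.g^[k] q)).image φ) with hP
  have hDS : DSep c (n + k) x 1 θ P := by
    constructor
    · intro p hp
      obtain ⟨q, hq, hp⟩ := Finset.mem_biUnion.mp hp
      obtain ⟨r, hr, rfl⟩ := Finset.mem_image.mp hp
      obtain ⟨hxq, hlq⟩ := hQ.mem q hq
      have hU := hUq q r hr
      refine ⟨hxq.trans hU, ?_⟩
      have b1 := c.base x q (φ r) hxq (hxq.trans hU)
      have n1 := congrArg norm b1
      rw [norm_mul] at n1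
      have ht := (htau x q hxq (by linarith)).2
      have h1 := hlcq q r hr
      have h2 : ‖c.lc x (φ r) - c.lc x q‖ ≤ 1 / 4 := by
        calc ‖c.lc x (φ r) - c.lc x q‖ = 1 * ‖c.lc x (φ r) - c.lc x q‖ := (one_mul _).symm
          _ ≤ (C₁ * ‖c.tau x q‖) * ‖c.lc x (φ r) - c.lc x q‖ := by gcongr
          _ = C₁ * ‖c.lc q (φ r)‖ := by rw [n1]; ring
          _ ≤ C₁ * ρ₁ := by gcongr
          _ = 1 / 4 := hρC
      have h3 := norm_sub_norm_le (c.lc x (φ r)) (c.lc x q)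
      linarith
    · intro p hp p' hp' hne
      obtain ⟨q, hq, hp⟩ := Finset.mem_biUnion.mp hp
      obtain ⟨r, hr, rfl⟩ := Finset.mem_image.mp hp
      obtain ⟨q', hq', hp'⟩ := Finset.mem_biUnion.mp hp'
      obtain ⟨r', hr', rfl⟩ := Finset.mem_image.mp hp'
      rw [Function.iterate_add_apply, Function.iterate_add_apply, hgφ, hgφ]
      by_cases hqq : q = q'
      · subst hqq
        have hrr : r ≠ r' := fun h => hne (by rw [h])
        exact hθ1.trans ((hR (S.g^[k] q)).sep r hr r' hr' hrr)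
      · have h1 := hdiff q hq q' hq' hqq r hr r' hr'
        have hqqU : UAsym S q q' := (hQ.mem q hq).1.symm.trans (hQ.mem q' hq').1
        have hrrU : UAsym S r r' := (((hR (S.g^[k] q)).mem r hr).1).symm.trans
          ((hqqU.iter k).trans ((hR (S.g^[k] q')).mem r' hr').1)
        rw [c.lc_iter hrrU n, norm_mul]
        have h3 := c.one_le_Lp n r
        calc θ ≤ 1 * ‖c.lc r r'‖ := by rw [one_mul]; exact h1
          _ ≤ ‖c.Lp n r‖ * ‖c.lc r r'‖ := by gcongr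
  -- the sum over the big set
  have hsumP : (C₂⁻¹) ^ s * (a₂ * Af c s n) * ∑ q ∈ Q, fr c k q ^ s ≤ dsum c s (n + k) P := by
    unfold dsum
    rw [hP, Finset.sum_biUnion]
    · rw [Finset.mul_sum]
      apply Finset.sum_le_sum
      intro q hq
      rw [Finset.sum_image (fun a _ b _ h => hφinj h)]
      have h1 : ∀ r ∈ R (S.g^[k] q), (C₂⁻¹) ^ s * fr c k q ^ s * fr c n r ^ s ≤ fr c (n + k) (φ r) ^ s := by
        intro r hr
        rw [w17_fr_add, hgφ, Real.mul_rpow (w17_fr_pos c n r).le (w17_fr_pos c k _).le,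
          ← Real.mul_rpow (by positivity) (hfk q).le]
        have hU := hUq q r hr
        have h2 := c.tau_iter hU k
        rw [hgφ] at h2
        have n2 := congrArg norm h2
        rw [norm_mul, norm_mul] at n2
        have t1 := (htau _ _ ((hR (S.g^[k] q)).mem r hr).1
          (((hR (S.g^[k] q)).mem r hr).2.trans (by linarith))).1
        have t2 := (htau _ _ hU ((hlcq q r hr).trans (by linarith))).2
        have h3 : ‖c.Lp k (φ r)‖ ≤ C₂ * ‖c.Lp k q‖ := by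
          calc ‖c.Lp k (φ r)‖ = ‖c.Lp k (φ r)‖ * 1 := (mul_one _).symm
            _ ≤ ‖c.Lp k (φ r)‖ * (C₁ * ‖c.tau q (φ r)‖) := by gcongr
            _ = C₁ * (‖c.tau (S.g^[k] q) r‖ * ‖c.Lp k q‖) := by rw [n2]; ring
            _ ≤ C₁ * (C₁ * ‖c.Lp k q‖) := by gcongr
            _ = C₂ * ‖c.Lp k q‖ := by rw [hC2]; ring
        have h4 : C₂⁻¹ * fr c k q ≤ fr c k (φ r) := by
          unfold fr
          rw [← mul_inv]
          have := c.Lp_norm_pos k (φ r)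
          gcongr
        rw [mul_comm (fr c n r ^ s)]
        apply mul_le_mul_of_nonneg_right _ (Real.rpow_nonneg (w17_fr_pos c n r).le _)
        exact Real.rpow_le_rpow (by have := hfk q; positivity) h4 hs.le
      calc (C₂⁻¹) ^ s * (a₂ * Af c s n) * fr c k q ^ s = (C₂⁻¹) ^ s * fr c k q ^ s * (a₂ * Af c s n) := by ring
        _ ≤ (C₂⁻¹) ^ s * fr c k q ^ s * dsum c s n (R (S.g^[k] q)) := by
            have := hfk q
            have := hRs (S.g^[k] q)
            gcongr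
        _ = ∑ r ∈ R (S.g^[k] q), (C₂⁻¹) ^ s * fr c k q ^ s * fr c n r ^ s := by
            unfold dsum
            rw [Finset.mul_sum]
        _ ≤ _ := Finset.sum_le_sum h1
    · intro q hq q' hq' hne
      rw [Function.onFun, Finset.disjoint_left]
      intro p hp hp'
      obtain ⟨r, hr, hrp⟩ := Finset.mem_image.mp hp
      obtain ⟨r', hr', hrp'⟩ := Finset.mem_image.mp hp'
      have hrr : r = r' := hφinj (hrp.trans hrp'.symm)
      subst hrr
      have := hdiff q hq q' hq' hne r hr r hr'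
      rw [c.lc_self, norm_zero] at this
      linarith
  -- conclusion
  obtain ⟨P', hP'sub, hP', hPsum⟩ := hsel (n + k) x P hDS
  have hfin : dsum c s (n + k) P' ≤ Af c s (n + k) := le_csSup (hbdd (n + k)) ⟨x, P', hP', rfl⟩
  have h1 : dsum c s (n + k) P ≤ C * Af c s (n + k) := by
    calc dsum c s (n + k) P ≤ C * dsum c s (n + k) P' := hPsum
      _ ≤ C * Af c s (n + k) := by gcongr
  have h2 : (C₂⁻¹) ^ s * (a₂ * Af c s n) * (((16 : ℝ) ^ k) ^ (2 - s) * (4 * C₂ ^ 2)⁻¹) ≤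
      C * Af c s (n + k) := by
    refine le_trans ?_ (hsumP.trans h1)
    have := hAf0 n
    gcongr
  calc C⁻¹ * ((C₂⁻¹) ^ s * (a₂ * (4 * C₂ ^ 2)⁻¹)) * ((16 : ℝ) ^ k) ^ (2 - s) * Af c s n =
      C⁻¹ * ((C₂⁻¹) ^ s * (a₂ * Af c s n) * (((16 : ℝ) ^ k) ^ (2 - s) * (4 * C₂ ^ 2)⁻¹)) := by ring
    _ ≤ C⁻¹ * (C * Af c s (n + k)) := by gcongr
    _ = Af c s (n + k) := by field_simp

end Pool.Agent.H779R2.Mo
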