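import Pool.Agent.H779R2.Mo.MSel

set_option autoImplicit false

namespace Pool.Agent.H779R2.Mo

open Pool.Agent.H721R2 Pool.Agent.H779R2.An Filter Topology MeasureTheory
open scoped BigOperators

variable {X E : Type*} [MetricSpace X] [CompactSpace X] [NormedAddCommGroup E]
  [InnerProductSpace ℝ E] [FiniteDimensional ℝ E]

private theorem dtrans_mob_lower {η θ u : ℂ} {M : ℝ} (hM : 1 ≤ M) (hη : 1 ≤ M * ‖η‖)
    (hθ : ‖θ * u‖ ≤ 1 / 2) : 2 * ‖u‖ ≤ 3 * M * ‖mob η θ u‖ := by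
  unfold mob
  rw [norm_div, norm_mul]
  have h1 : ‖1 - θ * u‖ ≤ 3 / 2 := by
    have := norm_sub_le (1 : ℂ) (θ * u)
    rw [norm_one] at this
    linarith
  have h2 : 1 / 2 ≤ ‖1 - θ * u‖ := by
    have := norm_sub_norm_le (1 : ℂ) (θ * u)
    rw [norm_one] at this
    linarith
  have h3 : 0 < ‖1 - θ * u‖ := by linarith
  rw [mul_div_assoc', le_div_iff₀ h3]
  have h4 : 2 * ‖u‖ * ‖1 - θ * u‖ ≤ 2 * ‖u‖ * (3 / 2) :=
    mul_le_mul_of_nonneg_left h1 (by positivity)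
  have h5 : ‖u‖ * 1 ≤ ‖u‖ * (M * ‖η‖) := mul_le_mul_of_nonneg_left hη (norm_nonneg _)
  calc _ ≤ 2 * ‖u‖ * (3 / 2) := h4
    _ = 3 * (‖u‖ * 1) := by ring
    _ ≤ 3 * (‖u‖ * (M * ‖η‖)) := by linarith
    _ = _ := by ring

omit [CompactSpace X] [FiniteDimensional ℝ E] in
/-- multipliers along close stable points are comparable -/
theorem dtrans_Lp {S : HypSys X E} (c : CF S) {x y : X} (h : S.SRel c.ε₀ x y) (n : ℕ) :
    ‖c.Lp n x‖ ≤ c.M ^ 2 * ‖c.Lp n y‖ := by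
  have hM := c.one_le_M
  have hn : S.SRel c.ε₀ (S.g^[n] x) (S.g^[n] y) := by
    intro k
    rw [← Function.iterate_add_apply, ← Function.iterate_add_apply]
    exact h (k + n)
  have h1 := c.eta_iter (c.geo.sasym _ _ h) n
  have h2 := c.one_le_eta hn
  have h3 := c.eta_le x y h
  have h4 := congrArg norm h1
  rw [norm_mul, norm_mul] at h4
  calc ‖c.Lp n x‖ = 1 * ‖c.Lp n x‖ := (one_mul _).symm
    _ ≤ c.M * ‖c.eta (S.g^[n] x) (S.g^[n] y)‖ * ‖c.Lp n x‖ :=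
        mul_le_mul_of_nonneg_right h2 (norm_nonneg _)
    _ = c.M * (‖c.Lp n y‖ * ‖c.eta x y‖) := by rw [← h4]; ring
    _ ≤ c.M * (‖c.Lp n y‖ * c.M) := by
        apply mul_le_mul_of_nonneg_left _ (by linarith)
        exact mul_le_mul_of_nonneg_left h3 (norm_nonneg _)
    _ = _ := by ring

/-- W15: local transport of separated sets. -/
theorem dtrans {S : HypSys X E} {c : CF S} (T : TH c) (h : QdLoc T) (s : ℝ) (hs : 0 < s) :
    ∃ ε > 0, ∃ δ₁ > 0, ∃ C : ℝ, 1 ≤ C ∧ ∀ x x', dist x x' ≤ ε → ∀ (n : ℕ) (Q : Finset X),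
      DSep c n x δ₁ 1 Q → ∃ Q' : Finset X, DSep c n x' 1 C⁻¹ Q' ∧
        dsum c s n Q ≤ C * dsum c s n Q' := by
  classical
  obtain ⟨e0, he0, he0T, hq⟩ := h
  obtain ⟨ε₁, hε₁, hlp⟩ := S.local_product
  have hK := S.one_le_K
  have hM := c.one_le_M
  have hTε₀ := T.ε_le
  set K := S.K with hKdef
  set M := c.M with hMdef
  have hM0 : 0 < M := by linarith
  have hK0 : 0 < K := by linarith
  set e3 : ℝ := e0 / 2 with he3
  have he30 : 0 < e3 := by positivity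
  obtain ⟨ρ, hρ, hsmall⟩ := c.small e3 he30
  set η : ℝ := min ε₁ (min (e0 / (18 * K)) (1 / (9 * K * M))) with hη
  have hη0 : 0 < η := lt_min hε₁ (lt_min (by positivity) (by positivity))
  have hη1 : η ≤ ε₁ := min_le_left _ _
  have hη2 : 9 * K * η ≤ e0 / 2 := by
    have h1 : η ≤ e0 / (18 * K) := (min_le_right _ _).trans (min_le_left _ _)
    calc 9 * K * η ≤ 9 * K * (e0 / (18 * K)) := mul_le_mul_of_nonneg_left h1 (by positivity)
      _ = _ := by field_simp; norm_num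
  have hη3 : M * (9 * K * η) ≤ 1 := by
    have h1 : η ≤ 1 / (9 * K * M) := (min_le_right _ _).trans (min_le_right _ _)
    calc M * (9 * K * η) ≤ M * (9 * K * (1 / (9 * K * M))) := by gcongr
      _ = 1 := by field_simp
  have hC1 : 1 ≤ (M ^ 2) ^ s := Real.one_le_rpow (one_le_pow₀ hM) hs.le
  refine ⟨η / 2, by positivity, min ρ (η / (2 * M)), lt_min hρ (by positivity),
    2 * M ^ 3 + (M ^ 2) ^ s, ?_, ?_⟩
  · have h1 : 0 < M ^ 3 := by positivity
    linarith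
  intro x y hxy n Q hQ
  have hCpos : 0 < 2 * M ^ 3 + (M ^ 2) ^ s := by positivity
  -- construction of the transported points
  have hcon : ∀ q : X, ∃ q' : X, q ∈ Q → (UAsym S y q' ∧ ‖c.lc y q'‖ ≤ 1 ∧ S.SRel e0 q q' ∧
      S.URel (e0 / 2) y q' ∧ S.URel e3 x q) := by
    intro x'
    by_cases hx' : x' ∈ Q
    · obtain ⟨hx'U, hx'l⟩ := hQ.mem x' hx'
      have hu : S.URel e3 x x' := hsmall x x' hx'U (hx'l.trans (min_le_left _ _))
      have hu0 : S.URel c.ε₀ x x' := hu.mono (by linarith)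
      have hδη : M * ‖c.lc x x'‖ ≤ η / 2 := by
        have h1 : ‖c.lc x x'‖ ≤ η / (2 * M) := hx'l.trans (min_le_right _ _)
        calc M * ‖c.lc x x'‖ ≤ M * (η / (2 * M)) := mul_le_mul_of_nonneg_left h1 hM0.le
          _ = _ := by field_simp
      have hd1 : dist x x' ≤ η / 2 := (c.dist_le x x' hu0).trans hδη
      have hd3 : dist x' y ≤ η := by
        have := dist_triangle x' x y
        rw [dist_comm x' x] at this
        linarith
      obtain ⟨y', h1, h2⟩ := hlp x' y (hd3.trans hη1)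
      have h9' : 9 * S.K * dist x' y ≤ 9 * K * η := mul_le_mul_of_nonneg_left hd3 (by positivity)
      have h9 : 9 * S.K * dist x' y ≤ e0 / 2 := by linarith
      have hy'U : S.URel (e0 / 2) y y' := (h2.mono h9).symm
      have hy'U0 : S.URel c.ε₀ y y' := hy'U.mono (by linarith)
      refine ⟨y', fun _ => ⟨c.geo.uasym y y' hy'U0, ?_, h1.mono (by linarith), hy'U, hu⟩⟩
      have h3 : dist y y' ≤ 9 * K * η := by
        have h4 : dist y y' ≤ 9 * S.K * dist x' y := by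
          have := h2.dist_le
          rwa [dist_comm] at this
        exact h4.trans h9'
      calc ‖c.lc y y'‖ ≤ M * dist y y' := c.lc_le y y' hy'U0
        _ ≤ M * (9 * K * η) := mul_le_mul_of_nonneg_left h3 hM0.le
        _ ≤ 1 := hη3
    · exact ⟨x', fun h => absurd h hx'⟩
  choose f hf using hcon
  -- separation
  have key : ∀ x₁ ∈ Q, ∀ x₂ ∈ Q, x₁ ≠ x₂ →
      1 ≤ (2 * M ^ 3 + (M ^ 2) ^ s) * ‖c.lc (S.g^[n] (f x₁)) (S.g^[n] (f x₂))‖ := by
    intro x₁ h1 x₂ h2 hne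
    obtain ⟨a2, a3, a4, a5, a6⟩ := hf x₁ h1
    obtain ⟨b2, b3, b4, b5, b6⟩ := hf x₂ h2
    have hU1 : UAsym S x x₁ := (hQ.mem x₁ h1).1
    have hU2 : UAsym S x x₂ := (hQ.mem x₂ h2).1
    have hU12 : S.URel (e3 + e3) x₁ x₂ := a6.symm.trans b6
    have hU12' : S.URel e0 x₁ x₂ := hU12.mono (by linarith)
    have hUy : S.URel e0 (f x₁) (f x₂) := (a5.symm.trans b5).mono (by linarith)
    have hqd := hq x₁ (f x₁) x₂ (f x₂) a4 hU12' b4 hUy
    have hhalf := T.half x₁ (f x₁) x₂ (a4.mono he0T) (hU12'.mono he0T)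
    have he1 := c.one_le_eta (a4.mono (he0T.trans hTε₀))
    have hmob := dtrans_mob_lower hM he1 hhalf
    rw [← hqd.lc_eq] at hmob
    have hLp := dtrans_Lp c (a4.mono (he0T.trans hTε₀)) n
    have hsep := hQ.sep x₁ h1 x₂ h2 hne
    rw [c.lc_iter (hU1.symm.trans hU2), norm_mul] at hsep
    rw [c.lc_iter (a2.symm.trans b2), norm_mul]
    have h3 : 0 ≤ ‖c.Lp n (f x₁)‖ * ‖c.lc (f x₁) (f x₂)‖ := by positivity
    have h4 : ‖c.Lp n x₁‖ * ‖c.lc x₁ x₂‖ ≤
        (M ^ 2 * ‖c.Lp n (f x₁)‖) * (3 / 2 * M * ‖c.lc (f x₁) (f x₂)‖) := by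
      apply mul_le_mul hLp _ (norm_nonneg _) (by positivity)
      linarith
    have h5 : 1 ≤ 3 / 2 * (M ^ 3 * (‖c.Lp n (f x₁)‖ * ‖c.lc (f x₁) (f x₂)‖)) := by
      calc (1 : ℝ) ≤ _ := hsep
        _ ≤ _ := h4
        _ = _ := by ring
    have h6 : 0 ≤ M ^ 3 * (‖c.Lp n (f x₁)‖ * ‖c.lc (f x₁) (f x₂)‖) := by positivity
    have h7 : 0 ≤ (M ^ 2) ^ s * (‖c.Lp n (f x₁)‖ * ‖c.lc (f x₁) (f x₂)‖) := by positivity
    linarith
  have hinj : Set.InjOn f Q := by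
    intro x₁ h1 x₂ h2 heq
    by_contra hne
    have := key x₁ h1 x₂ h2 hne
    rw [heq, c.lc_self, norm_zero, mul_zero] at this
    linarith
  refine ⟨Q.image f, ⟨?_, ?_⟩, ?_⟩
  · intro y' hy'
    obtain ⟨x', hx', rfl⟩ := Finset.mem_image.mp hy'
    obtain ⟨a2, a3, -⟩ := hf x' hx'
    exact ⟨a2, a3⟩
  · intro y₁ hy₁ y₂ hy₂ hne
    obtain ⟨x₁, h1, rfl⟩ := Finset.mem_image.mp hy₁
    obtain ⟨x₂, h2, rfl⟩ := Finset.mem_image.mp hy₂
    have hne' : x₁ ≠ x₂ := fun h => hne (by rw [h])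
    have h3 := key x₁ h1 x₂ h2 hne'
    rw [inv_eq_one_div, div_le_iff₀ hCpos]
    linarith
  · unfold dsum
    rw [Finset.sum_image (fun a ha b hb hab => hinj ha hb hab)]
    have hterm : ∀ q ∈ Q, fr c n q ^ s ≤ (M ^ 2) ^ s * fr c n (f q) ^ s := by
      intro q hqQ
      obtain ⟨a2, a3, a4, a5, a6⟩ := hf q hqQ
      have hLp := dtrans_Lp c (a4.mono (he0T.trans hTε₀)).symm n
      unfold fr
      rw [← Real.mul_rpow (by positivity) (by positivity)]
      apply Real.rpow_le_rpow (by positivity) _ hs.le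
      have hp1 := c.Lp_norm_pos n q
      have hp2 := c.Lp_norm_pos n (f q)
      rw [inv_eq_one_div, ← div_eq_mul_inv, div_le_div_iff₀ hp1 hp2, one_mul]
      exact hLp
    have hsum0 : 0 ≤ ∑ q ∈ Q, fr c n (f q) ^ s :=
      Finset.sum_nonneg fun q _ => Real.rpow_nonneg (inv_nonneg.2 (norm_nonneg _)) _
    calc ∑ q ∈ Q, fr c n q ^ s ≤ ∑ q ∈ Q, (M ^ 2) ^ s * fr c n (f q) ^ s :=
          Finset.sum_le_sum hterm
      _ = (M ^ 2) ^ s * ∑ q ∈ Q, fr c n (f q) ^ s := (Finset.mul_sum _ _ _).symm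
      _ ≤ (2 * M ^ 3 + (M ^ 2) ^ s) * ∑ q ∈ Q, fr c n (f q) ^ s := by
          apply mul_le_mul_of_nonneg_right _ hsum0
          have : 0 < M ^ 3 := by positivity
          linarith

end Pool.Agent.H779R2.Mo
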