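import Pool.Agent.H779R2.Mo.MDef

set_option autoImplicit false

namespace Pool.Agent.H779R2.Mo

open Pool.Agent.H721R2 Pool.Agent.H779R2.An Filter Topology MeasureTheory
open scoped BigOperators

variable {X E : Type*} [MetricSpace X] [CompactSpace X] [NormedAddCommGroup E]
  [InnerProductSpace ℝ E] [FiniteDimensional ℝ E]

omit [CompactSpace X] [FiniteDimensional ℝ E] in
theorem MNear.Lp_add {S : HypSys X E} (c : CF S) (m n : ℕ) (x : X) :
    c.Lp (m + n) x = c.Lp m (S.g^[n] x) * c.Lp n x := by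
  induction m with
  | zero => simp [CF.Lp_zero]
  | succ m ih =>
    rw [Nat.add_right_comm, CF.Lp_succ, CF.Lp_succ, ih, Function.iterate_add_apply, mul_assoc]

omit [CompactSpace X] [FiniteDimensional ℝ E] in
theorem MNear.cw_split {S : HypSys X E} (c : CF S) {j k : ℕ} (h : j ≤ k) (e : X) :
    c.cw k e = c.cw j e * c.cw (k - j) (S.g.symm^[j] e) := by
  obtain ⟨i, rfl⟩ := Nat.exists_eq_add_of_le h
  rw [Nat.add_sub_cancel_left]
  unfold CF.cw
  have h1 : S.g^[i] (S.g.symm^[j + i] e) = S.g.symm^[j] e := by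
    rw [Nat.add_comm j i, Function.iterate_add_apply, iter_iter_symm]
  rw [MNear.Lp_add c j i, h1, ← Function.iterate_add_apply, norm_mul, mul_inv, Nat.add_comm i j]

omit [CompactSpace X] [FiniteDimensional ℝ E] in
theorem MNear.cw_comp {S : HypSys X E} (c : CF S) (j : ℕ) {x e : X}
    (h : S.SRel c.ε₀ (S.g.symm^[j] x) (S.g.symm^[j] e)) : c.cw j e ≤ c.M ^ 2 * c.cw j x := by
  have hs := c.geo.sasym _ _ h
  have h1 := c.eta_iter hs j
  rw [iter_iter_symm, iter_iter_symm] at h1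
  have h0 : S.SRel c.ε₀ x e := SRel_fwd j h
  have h2 : ‖c.eta x e‖ ≤ c.M := c.eta_le _ _ h0
  have h3 := c.one_le_eta h
  have h4 : ‖c.eta x e‖ * ‖c.Lp j (S.g.symm^[j] x)‖ =
      ‖c.Lp j (S.g.symm^[j] e)‖ * ‖c.eta (S.g.symm^[j] x) (S.g.symm^[j] e)‖ := by
    rw [← norm_mul, h1, norm_mul]
  have hx := c.Lp_norm_pos j (S.g.symm^[j] x)
  have he := c.Lp_norm_pos j (S.g.symm^[j] e)
  have hM := c.one_le_M
  -- need `M² ‖Lp e‖ ≥ ‖Lp x‖`, i.e. from lower bounds of eta x e and upper bounds of eta at `-j`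
  have h5 := c.one_le_eta h0
  have h6 : ‖c.eta (S.g.symm^[j] x) (S.g.symm^[j] e)‖ ≤ c.M := c.eta_le _ _ h
  have h7 : ‖c.Lp j (S.g.symm^[j] x)‖ ≤ c.M ^ 2 * ‖c.Lp j (S.g.symm^[j] e)‖ := by
    calc ‖c.Lp j (S.g.symm^[j] x)‖ ≤ (c.M * ‖c.eta x e‖) * ‖c.Lp j (S.g.symm^[j] x)‖ :=
          le_mul_of_one_le_left hx.le h5
      _ = c.M * (‖c.Lp j (S.g.symm^[j] e)‖ * ‖c.eta (S.g.symm^[j] x) (S.g.symm^[j] e)‖) := by
          rw [← h4]; ring
      _ ≤ c.M * (‖c.Lp j (S.g.symm^[j] e)‖ * c.M) := by gcongr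
      _ = _ := by ring
  unfold CF.cw
  rw [inv_le_iff_one_le_mul₀ he]
  calc (1 : ℝ) = ‖c.Lp j (S.g.symm^[j] x)‖ * ‖c.Lp j (S.g.symm^[j] x)‖⁻¹ := by
        field_simp
    _ ≤ (c.M ^ 2 * ‖c.Lp j (S.g.symm^[j] e)‖) * ‖c.Lp j (S.g.symm^[j] x)‖⁻¹ := by gcongr
    _ = _ := by ring

/-- W2: sums over small stable discs. -/
theorem sum_near {S : HypSys X E} (c : CF S) (B : UV S)
    (hcw : ∃ C : ℝ, 0 < C ∧ ∀ k y, c.cw k y ≤ C * om S B k y) (hsum : SumB S B 2) :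
    ∀ κ > 0, ∃ ρ > 0, ∃ C : ℝ, 0 < C ∧ ∀ (j k : ℕ) (x : X) (A : Finset X), j ≤ k →
      (∀ e ∈ A, S.SRel ρ (S.g.symm^[j] x) (S.g.symm^[j] e)) →
      (∀ e ∈ A, ∀ e' ∈ A, e ≠ e' → ¬ S.SRel κ (S.g.symm^[k] e) (S.g.symm^[k] e')) →
      ∑ e ∈ A, c.cw k e ^ 2 ≤ C * c.cw j x ^ 2 := by
  classical
  obtain ⟨C₀, hC₀, hcw⟩ := hcw
  intro κ hκ
  obtain ⟨ρ, hρ, C, hC⟩ := hsum κ hκ
  have hε := c.geo.pos
  refine ⟨min ρ c.ε₀, lt_min hρ hε, (c.M ^ 2) ^ 2 * (C₀ ^ 2 * (|C| + 1)), ?_, ?_⟩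
  · have := c.one_le_M
    positivity
  · intro j k x A hjk hA hsep
    have hinj : Function.Injective (S.g.symm^[j]) := S.g.symm.injective.iterate j
    have h1 := hC (k - j) (S.g.symm^[j] x) (A.image (S.g.symm^[j])) ?_ ?_
    · rw [Finset.sum_image (fun a _ b _ h => hinj h)] at h1
      calc ∑ e ∈ A, c.cw k e ^ 2
          ≤ ∑ e ∈ A, (c.M ^ 2 * c.cw j x) ^ 2 * (C₀ ^ 2 * om S B (k - j) (S.g.symm^[j] e) ^ 2) := by
            refine Finset.sum_le_sum fun e he => ?_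
            rw [MNear.cw_split c hjk e, mul_pow]
            have h2 := MNear.cw_comp c j ((hA e he).mono (min_le_right _ _))
            have h3 := hcw (k - j) (S.g.symm^[j] e)
            have h4 := (c.cw_pos j e).le
            have h5 := (c.cw_pos (k - j) (S.g.symm^[j] e)).le
            rw [← mul_pow C₀]
            gcongr
        _ = (c.M ^ 2) ^ 2 * (C₀ ^ 2 * ∑ e ∈ A, om S B (k - j) (S.g.symm^[j] e) ^ 2) *
            c.cw j x ^ 2 := by
            rw [← Finset.mul_sum, ← Finset.mul_sum]; ring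
        _ ≤ (c.M ^ 2) ^ 2 * (C₀ ^ 2 * (|C| + 1)) * c.cw j x ^ 2 := by
            gcongr
            linarith [le_abs_self C]
    · intro y hy
      obtain ⟨e, he, rfl⟩ := Finset.mem_image.1 hy
      exact (hA e he).mono (min_le_left _ _)
    · intro y hy y' hy' hne
      obtain ⟨e, he, rfl⟩ := Finset.mem_image.1 hy
      obtain ⟨e', he', rfl⟩ := Finset.mem_image.1 hy'
      rw [← Function.iterate_add_apply, ← Function.iterate_add_apply, Nat.sub_add_cancel hjk]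
      exact hsep e he e' he' (fun h => hne (by rw [h]))

/-- W3: backward Lipschitz estimate along stable plaques. -/
theorem back_lip (S : HypSys X E) : ∃ L : ℝ, 1 ≤ L ∧ ∀ ρ > 0, ∃ r > 0, ∀ (j : ℕ) (x e : X),
    S.SRel r x e → dist x e ≤ r * (L⁻¹) ^ j → S.SRel ρ (S.g.symm^[j] x) (S.g.symm^[j] e) := by
  obtain ⟨r₁, hr₁, hA⟩ := S.A1' 1 one_pos
  have hK := S.one_le_K
  have hLs := S.one_le_Ls
  have hb := S.b_nonneg
  have hb1 : S.b ≤ 1 := by
    have := S.Kb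
    nlinarith
  -- one-step Lipschitz bound
  have hlip : ∀ x y : X, dist x y < r₁ →
      dist (S.g.symm x) (S.g.symm y) ≤ (1 + 2 * S.K * (S.Ls + 1)) * dist x y := by
    intro x y hxy
    obtain ⟨s, hs, u, hu, h1, h2⟩ := hA x y hxy
    rw [one_mul] at h1 h2
    have hd : dist x y = ‖S.e y - S.e x‖ := by rw [dist_comm, S.isom]
    have hsu : ‖s + u‖ ≤ 2 * dist x y := by
      have := norm_sub_le (S.e y - S.e x) (S.e y - S.e x - (s + u))
      rw [sub_sub_cancel, ← hd] at this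
      linarith
    obtain ⟨ha, hb'⟩ := S.angle x s hs u hu
    have h3 := S.boundS x s hs
    have h4 := S.contrU x u hu
    have h5 : ‖S.D' x (s + u)‖ ≤ (S.Ls + 1) * (S.K * (2 * dist x y)) := by
      rw [map_add]
      calc ‖S.D' x s + S.D' x u‖ ≤ ‖S.D' x s‖ + ‖S.D' x u‖ := norm_add_le _ _
        _ ≤ S.Ls * ‖s‖ + S.b * ‖u‖ := add_le_add h3 h4
        _ ≤ S.Ls * (S.K * ‖s + u‖) + 1 * (S.K * ‖s + u‖) := by gcongr
        _ = (S.Ls + 1) * (S.K * ‖s + u‖) := by ring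
        _ ≤ _ := by gcongr
    rw [dist_comm, S.isom]
    have h6 := norm_add_le (S.e (S.g.symm y) - S.e (S.g.symm x) - S.D' x (s + u)) (S.D' x (s + u))
    rw [sub_add_cancel] at h6
    calc _ ≤ _ := h6
      _ ≤ dist x y + (S.Ls + 1) * (S.K * (2 * dist x y)) := add_le_add h2 h5
      _ = _ := by ring
  set L : ℝ := 1 + 2 * S.K * (S.Ls + 1) with hL
  have hL1 : 1 ≤ L := by
    have : 0 ≤ 2 * S.K * (S.Ls + 1) := by positivity
    linarith
  have hL0 : 0 < L := by linarith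
  refine ⟨L, hL1, fun ρ hρ => ⟨min (r₁ / 2) ρ, lt_min (by positivity) hρ, ?_⟩⟩
  intro j x e hS hd
  set r := min (r₁ / 2) ρ with hr
  have hr0 : 0 < r := lt_min (by positivity) hρ
  have hr1 : r < r₁ := lt_of_le_of_lt (min_le_left _ _) (by linarith)
  have hr2 : r ≤ ρ := min_le_right _ _
  have hback : ∀ i ≤ j, dist (S.g.symm^[i] x) (S.g.symm^[i] e) ≤ r * (L⁻¹) ^ (j - i) := by
    intro i
    induction i with
    | zero => intro _; simpa using hd
    | succ i ih =>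
      intro hi
      have h1 := ih (by omega)
      have h2 : r * (L⁻¹) ^ (j - i) ≤ r := by
        have : (L⁻¹) ^ (j - i) ≤ 1 := pow_le_one₀ (by positivity) (inv_le_one_of_one_le₀ hL1)
        nlinarith
      rw [Function.iterate_succ_apply', Function.iterate_succ_apply']
      have h3 := hlip _ _ (lt_of_le_of_lt (h1.trans h2) hr1)
      have h4 : j - i = (j - (i + 1)) + 1 := by omega
      calc _ ≤ L * dist (S.g.symm^[i] x) (S.g.symm^[i] e) := h3
        _ ≤ L * (r * (L⁻¹) ^ (j - i)) := by gcongr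
        _ = r * (L⁻¹) ^ (j - (i + 1)) := by
          rw [h4, pow_succ]
          field_simp
  refine SRel_back j (hS.mono hr2) (fun i hi => ?_)
  refine (hback i hi).trans (le_trans ?_ hr2)
  have : (L⁻¹) ^ (j - i) ≤ 1 := pow_le_one₀ (by positivity) (inv_le_one_of_one_le₀ hL1)
  nlinarith

end Pool.Agent.H779R2.Mo
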