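import Pool.Agent.H779R2.Mo.MPer0

set_option autoImplicit false

namespace Pool.Agent.H779R2.Mo

open Pool.Agent.H721R2 Pool.Agent.H779R2.An Filter Topology MeasureTheory
open scoped BigOperators

variable {X E : Type*} [MetricSpace X] [CompactSpace X] [NormedAddCommGroup E]
  [InnerProductSpace ℝ E] [FiniteDimensional ℝ E]

omit [CompactSpace X] [FiniteDimensional ℝ E] in
private theorem w18c_fr_pos {S : HypSys X E} (c : CF S) (n : ℕ) (x : X) : 0 < fr c n x :=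
  inv_pos.2 (c.Lp_norm_pos n x)

omit [CompactSpace X] [FiniteDimensional ℝ E] in
private theorem w18c_fr_le {S : HypSys X E} (c : CF S) (n : ℕ) (x : X) :
    fr c n x ≤ ((16 : ℝ) ^ n)⁻¹ :=
  inv_anti₀ (by positivity) (c.Lp_ge n x)

omit [CompactSpace X] [FiniteDimensional ℝ E] in
private theorem w18c_af {S : HypSys X E} (c : CF S) (s : ℝ) (hs2 : s < 2)
    (hpos : ∀ n, 0 < Af c s n) {a : ℝ} (ha : 0 < a)
    (hgr : ∀ n k : ℕ, a * ((16 : ℝ) ^ k) ^ (2 - s) * Af c s n ≤ Af c s (n + k))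
    {n k : ℕ} (hk : k ≤ n) : Af c s (n - k) ≤ a⁻¹ * Af c s n := by
  have h1 := hgr (n - k) k
  rw [Nat.sub_add_cancel hk] at h1
  have h2 : (1 : ℝ) ≤ ((16 : ℝ) ^ k) ^ (2 - s) :=
    Real.one_le_rpow (one_le_pow₀ (by norm_num)) (by linarith)
  have h3 : a * Af c s (n - k) ≤ Af c s n := by
    refine le_trans ?_ h1
    refine mul_le_mul_of_nonneg_right ?_ (hpos _).le
    calc a = a * 1 := (mul_one a).symm
      _ ≤ _ := mul_le_mul_of_nonneg_left h2 ha.le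
  rw [le_inv_mul_iff₀ ha]
  exact h3

/-- W18c: few separated points near a pole. -/
theorem bad_sum {S : HypSys X E} (c : CF S) (s : ℝ) (hs : 0 < s) (hs2 : s < 2)
    (hpos : ∀ n, 0 < Af c s n)
    (hle : ∀ ρ > 0, ∀ θ > 0, ∃ C : ℝ, 0 < C ∧ ∀ (n k : ℕ) (x : X) (Q : Finset X), k ≤ n →
      DSep c n x (ρ * fr c k x) θ Q → dsum c s n Q ≤ C * fr c k x ^ s * Af c s (n - k))
    (hgr : ∃ a > 0, ∀ n k : ℕ, a * ((16 : ℝ) ^ k) ^ (2 - s) * Af c s n ≤ Af c s (n + k))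
    (p : X) (R : ℝ) (hR : 0 < R) :
    ∃ C : ℝ, 0 < C ∧ ∀ ω : ℝ, 0 < ω → ω ≤ 1 → 4 * ω * R ≤ 1 → ∃ n₁ : ℕ, ∀ n ≥ n₁,
      ∀ (β : ℂ) (Q : Finset X), (∀ q ∈ Q, UAsym S p q ∧ ‖c.lc p q‖ ≤ R) →
      (∀ q ∈ Q, ∀ q' ∈ Q, q ≠ q' → 1 ≤ ‖c.lc (S.g^[n] q) (S.g^[n] q')‖) →
      (∀ q ∈ Q, ‖1 - β * c.lc p q‖ ≤ 2 * ω * R) →
      ∑ q ∈ Q, (fr c n q / ‖c.tau p q‖) ^ s ≤ C * ω ^ s * Af c s n := by
  obtain ⟨CR, hCR1, hCR⟩ := tau_bound c R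
  have hCR0 : 0 < CR := by linarith
  have hM := c.one_le_M
  have hM0 : 0 < c.M := by linarith
  obtain ⟨C₁, hC₁, hle⟩ := hle (8 * CR * R ^ 2) (by positivity) 1 one_pos
  obtain ⟨a, ha, hgr⟩ := hgr
  refine ⟨CR ^ s * C₁ * c.M ^ s * a⁻¹, by positivity, ?_⟩
  intro ω hω hω1 hωR
  obtain ⟨n₁, hn₁⟩ : ∃ n₁ : ℕ, ω⁻¹ < (16 : ℝ) ^ n₁ := pow_unbounded_of_one_lt _ (by norm_num)
  refine ⟨n₁, ?_⟩
  intro n hn β Q hQ hsep hβ
  rcases Q.eq_empty_or_nonempty with rfl | ⟨q₁, hq₁⟩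
  · rw [Finset.sum_empty]
    have := hpos n
    positivity
  obtain ⟨k, hk1, hk2⟩ := pick_k c q₁ ω hω hω1
  have hkn : k ≤ n := by
    have h1 : ω ≤ ((16 : ℝ) ^ k)⁻¹ := hk1.trans (w18c_fr_le c k q₁)
    have h2 : (16 : ℝ) ^ k ≤ ω⁻¹ := by
      rw [le_inv_comm₀ (by positivity) hω]; exact h1
    have h3 : (16 : ℝ) ^ k < (16 : ℝ) ^ n₁ := h2.trans_lt hn₁
    have h4 : k < n₁ := (pow_lt_pow_iff_right₀ (by norm_num)).1 h3
    omega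
  -- estimates
  have hβu : ∀ q ∈ Q, 1 / 2 ≤ ‖β‖ * ‖c.lc p q‖ := by
    intro q hq
    have h1 := hβ q hq
    have h2 : (1 : ℝ) ≤ ‖1 - β * c.lc p q‖ + ‖β * c.lc p q‖ := by
      have := norm_add_le (1 - β * c.lc p q) (β * c.lc p q)
      rw [sub_add_cancel, norm_one] at this
      exact this
    rw [norm_mul] at h2
    linarith
  have hβR : 1 ≤ ‖β‖ * (2 * R) := by
    have h1 := hβu q₁ hq₁
    have h2 : ‖β‖ * ‖c.lc p q₁‖ ≤ ‖β‖ * R := mul_le_mul_of_nonneg_left (hQ q₁ hq₁).2 (norm_nonneg _)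
    linarith
  have hdist : ∀ q ∈ Q, ‖c.lc p q - c.lc p q₁‖ ≤ 8 * ω * R ^ 2 := by
    intro q hq
    have h1 : ‖β‖ * ‖c.lc p q - c.lc p q₁‖ ≤ 4 * ω * R := by
      rw [← norm_mul]
      have h2 : β * (c.lc p q - c.lc p q₁) = (1 - β * c.lc p q₁) - (1 - β * c.lc p q) := by ring
      rw [h2]
      refine (norm_sub_le _ _).trans ?_
      linarith [hβ q hq, hβ q₁ hq₁]
    have h3 : 0 ≤ ‖c.lc p q - c.lc p q₁‖ := norm_nonneg _
    calc ‖c.lc p q - c.lc p q₁‖ = 1 * ‖c.lc p q - c.lc p q₁‖ := (one_mul _).symm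
      _ ≤ (‖β‖ * (2 * R)) * ‖c.lc p q - c.lc p q₁‖ := mul_le_mul_of_nonneg_right hβR h3
      _ = 2 * R * (‖β‖ * ‖c.lc p q - c.lc p q₁‖) := by ring
      _ ≤ 2 * R * (4 * ω * R) := mul_le_mul_of_nonneg_left h1 (by positivity)
      _ = _ := by ring
  have hds : DSep c n q₁ (8 * CR * R ^ 2 * fr c k q₁) 1 Q := by
    refine ⟨fun q hq => ⟨(hQ q₁ hq₁).1.symm.trans (hQ q hq).1, ?_⟩, hsep⟩
    rw [c.base p q₁ q (hQ q₁ hq₁).1 (hQ q hq).1, norm_mul]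
    calc ‖c.tau p q₁‖ * ‖c.lc p q - c.lc p q₁‖ ≤ CR * (8 * ω * R ^ 2) :=
          mul_le_mul (hCR p q₁ (hQ q₁ hq₁).1 (hQ q₁ hq₁).2).1 (hdist q hq) (norm_nonneg _) hCR0.le
      _ = 8 * CR * R ^ 2 * ω := by ring
      _ ≤ 8 * CR * R ^ 2 * fr c k q₁ := mul_le_mul_of_nonneg_left hk1 (by positivity)
  have h1 := hle n k q₁ Q hkn hds
  have h2 := w18c_af c s hs2 hpos ha hgr hkn
  have h3 : fr c k q₁ ^ s ≤ c.M ^ s * ω ^ s := by
    rw [← Real.mul_rpow hM0.le hω.le]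
    exact Real.rpow_le_rpow (w18c_fr_pos c k q₁).le hk2 hs.le
  have h4 : ∑ q ∈ Q, (fr c n q / ‖c.tau p q‖) ^ s ≤ CR ^ s * dsum c s n Q := by
    unfold dsum
    rw [Finset.mul_sum]
    refine Finset.sum_le_sum fun q hq => ?_
    rw [← Real.mul_rpow hCR0.le (w18c_fr_pos c n q).le]
    have hτ : 0 < ‖c.tau p q‖ := norm_pos_iff.2 (c.tau_ne_zero (hQ q hq).1)
    refine Real.rpow_le_rpow (div_nonneg (w18c_fr_pos c n q).le hτ.le) ?_ hs.le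
    rw [div_le_iff₀ hτ]
    have h5 := (hCR p q (hQ q hq).1 (hQ q hq).2).2
    have h6 := w18c_fr_pos c n q
    calc fr c n q = fr c n q * 1 := (mul_one _).symm
      _ ≤ fr c n q * (CR * ‖c.tau p q‖) := mul_le_mul_of_nonneg_left h5 h6.le
      _ = CR * fr c n q * ‖c.tau p q‖ := by ring
  have hA := hpos n
  have hA' := hpos (n - k)
  have hωs : 0 < ω ^ s := Real.rpow_pos_of_pos hω s
  calc ∑ q ∈ Q, (fr c n q / ‖c.tau p q‖) ^ s ≤ CR ^ s * dsum c s n Q := h4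
    _ ≤ CR ^ s * (C₁ * fr c k q₁ ^ s * Af c s (n - k)) := mul_le_mul_of_nonneg_left h1 (by positivity)
    _ ≤ CR ^ s * (C₁ * (c.M ^ s * ω ^ s) * (a⁻¹ * Af c s n)) := by
        refine mul_le_mul_of_nonneg_left ?_ (by positivity)
        exact mul_le_mul (mul_le_mul_of_nonneg_left h3 hC₁.le) h2 hA'.le (by positivity)
    _ = _ := by ring

end Pool.Agent.H779R2.Mo
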