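import Pool.Agent.H779R2.Mo.MPer0

set_option autoImplicit false

namespace Pool.Agent.H779R2.Mo

open Pool.Agent.H721R2 Pool.Agent.H779R2.An Filter Topology MeasureTheory
open scoped BigOperators

variable {X E : Type*} [MetricSpace X] [CompactSpace X] [NormedAddCommGroup E]
  [InnerProductSpace ℝ E] [FiniteDimensional ℝ E]

omit [CompactSpace X] [FiniteDimensional ℝ E] in
private theorem w18d_fr_pos {S : HypSys X E} (c : CF S) (n : ℕ) (x : X) : 0 < fr c n x :=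
  inv_pos.2 (c.Lp_norm_pos n x)

omit [CompactSpace X] [FiniteDimensional ℝ E] in
private theorem w18d_fr_le {S : HypSys X E} (c : CF S) (n : ℕ) (x : X) :
    fr c n x ≤ ((16 : ℝ) ^ n)⁻¹ :=
  inv_anti₀ (by positivity) (c.Lp_ge n x)

omit [CompactSpace X] [FiniteDimensional ℝ E] in
private theorem w18d_af {S : HypSys X E} (c : CF S) (s : ℝ) (hs2 : s < 2)
    (hpos : ∀ n, 0 < Af c s n) {a : ℝ} (ha : 0 < a)
    (hgr : ∀ n k : ℕ, a * ((16 : ℝ) ^ k) ^ (2 - s) * Af c s n ≤ Af c s (n + k))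
    {n k : ℕ} (hk : k ≤ n) : Af c s (n - k) ≤ a⁻¹ * Af c s n := by
  have h1 := hgr (n - k) k
  rw [Nat.sub_add_cancel hk] at h1
  have h2 : (1 : ℝ) ≤ ((16 : ℝ) ^ k) ^ (2 - s) :=
    Real.one_le_rpow (one_le_pow₀ (by norm_num)) (by linarith)
  have h3 : a * Af c s (n - k) ≤ Af c s n := by
    refine le_trans ?_ h1
    refine mul_le_mul_of_nonneg_right ?_ (hpos _).le
    calc a = a * 1 := (mul_one a).symm
      _ ≤ _ := mul_le_mul_of_nonneg_left h2 ha.le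
  rw [le_inv_mul_iff₀ ha]
  exact h3

private theorem w18d_A (η b u w : ℂ) (hb : b ≠ 0) (hw : w ≠ 0) (h : w = 1 - b * u) :
    η * u / w - (-η / b) = η / (b * w) := by
  have h1 : η * u / w - (-η / b) = (η * (b * u) + η * w) / (b * w) := by
    field_simp
    ring
  rw [h1]
  congr 1
  rw [h]; ring

private theorem w18d_B (η b u u' w w' : ℂ) (hw : w ≠ 0) (hw' : w' ≠ 0) (h : w = 1 - b * u)
    (h' : w' = 1 - b * u') : η * u / w - η * u' / w' = η * (u - u') / (w * w') := by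
  rw [div_sub_div _ _ hw hw']
  congr 1
  rw [h, h']; ring

omit [CompactSpace X] [FiniteDimensional ℝ E] in
/-- pointwise facts on one transported point -/
private theorem w18d_pt {S : HypSys X E} {c : CF S} (T : TH c) {p y q q' : X} (n : ℕ)
    (hb : T.th p y ≠ 0) (R₀ : ℝ) (hbR : 1 ≤ ‖T.th p y‖ * R₀)
    (h1 : 2 * R₀ ≤ ‖c.lc p q‖) (h2 : ‖c.lc p q‖ ≤ 4 * R₀)
    (hq : QdM T p y q q') :
    (‖T.th p y‖ * R₀ ≤ ‖1 - T.th p y * c.lc p q‖ ∧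
      ‖1 - T.th p y * c.lc p q‖ ≤ 5 * ‖T.th p y‖ * R₀) ∧
    fr c n q' / ‖c.tau y q'‖ * (‖c.eta (S.g^[n] q) (S.g^[n] q')‖ *
      ‖1 - T.th p y * c.lc p q‖ ^ 2) = fr c n q / ‖c.tau p q‖ * ‖c.eta p y‖ := by
  have hbp : 0 < ‖T.th p y‖ := norm_pos_iff.2 hb
  refine ⟨⟨?_, ?_⟩, ?_⟩
  · have e1 : ‖T.th p y * c.lc p q‖ ≤ ‖1 - T.th p y * c.lc p q‖ + 1 := by
      have := norm_sub_le (1 : ℂ) (1 - T.th p y * c.lc p q)
      rw [sub_sub_cancel, norm_one] at this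
      linarith
    rw [norm_mul] at e1
    have e2 : ‖T.th p y‖ * (2 * R₀) ≤ ‖T.th p y‖ * ‖c.lc p q‖ := mul_le_mul_of_nonneg_left h1 hbp.le
    linarith
  · have e1 : ‖1 - T.th p y * c.lc p q‖ ≤ 1 + ‖T.th p y * c.lc p q‖ := by
      have := norm_sub_le (1 : ℂ) (T.th p y * c.lc p q)
      rw [norm_one] at this
      exact this
    rw [norm_mul] at e1
    have e2 : ‖T.th p y‖ * ‖c.lc p q‖ ≤ ‖T.th p y‖ * (4 * R₀) := mul_le_mul_of_nonneg_left h2 hbp.le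
    linarith
  · have e1 := c.eta_iter hq.xx n
    have e2 := hq.eta_eq
    have e1' := congrArg norm e1
    have e2' := congrArg norm e2
    rw [norm_mul, norm_mul] at e1'
    rw [norm_mul, norm_mul, norm_pow, norm_mul] at e2'
    have t1 : 0 < ‖c.tau y q'‖ := norm_pos_iff.2 (c.tau_ne_zero hq.wx)
    have t2 : 0 < ‖c.tau p q‖ := norm_pos_iff.2 (c.tau_ne_zero hq.vx)
    have L1 := c.Lp_norm_pos n q
    have L2 := c.Lp_norm_pos n q'
    have x1 : 0 < ‖c.eta q q'‖ := norm_pos_iff.2 (c.eta_ne_zero hq.xx)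
    unfold fr
    rw [div_mul_eq_mul_div, div_mul_eq_mul_div, div_eq_div_iff t1.ne' t2.ne']
    -- ‖Lp q'‖⁻¹ * (ηn * |1-bu|²) * ‖tau p q‖ = ‖Lp q‖⁻¹ * ‖eta p y‖ * ‖tau y q'‖
    have k1 : ‖c.Lp n q'‖⁻¹ * ‖c.eta (S.g^[n] q) (S.g^[n] q')‖ =
        ‖c.Lp n q‖⁻¹ * ‖c.eta q q'‖ := by
      rw [inv_mul_eq_div, inv_mul_eq_div, div_eq_div_iff L2.ne' L1.ne']
      linarith
    calc ‖c.Lp n q'‖⁻¹ * (‖c.eta (S.g^[n] q) (S.g^[n] q')‖ *
          ‖1 - T.th p y * c.lc p q‖ ^ 2) * ‖c.tau p q‖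
        = (‖c.Lp n q'‖⁻¹ * ‖c.eta (S.g^[n] q) (S.g^[n] q')‖) *
          (‖1 - T.th p y * c.lc p q‖ ^ 2 * ‖c.tau p q‖) := by ring
      _ = (‖c.Lp n q‖⁻¹ * ‖c.eta q q'‖) * (‖1 - T.th p y * c.lc p q‖ ^ 2 * ‖c.tau p q‖) := by rw [k1]
      _ = ‖c.Lp n q‖⁻¹ * (‖c.eta q q'‖ * ‖c.tau p q‖ * ‖1 - T.th p y * c.lc p q‖ ^ 2) := by ring
      _ = ‖c.Lp n q‖⁻¹ * (‖c.tau y q'‖ * ‖c.eta p y‖) := by rw [e2']
      _ = _ := by ring

/-- W18d: upper bound for the points of a large annulus which can be transported to the leaf of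
`y`. -/
theorem good_sum {S : HypSys X E} {c : CF S} (T : TH c) (s : ℝ) (hs : 0 < s) (hs2 : s < 2)
    (hpos : ∀ n, 0 < Af c s n)
    (hle : ∀ ρ > 0, ∀ θ > 0, ∃ C : ℝ, 0 < C ∧ ∀ (n k : ℕ) (x : X) (Q : Finset X), k ≤ n →
      DSep c n x (ρ * fr c k x) θ Q → dsum c s n Q ≤ C * fr c k x ^ s * Af c s (n - k))
    (hgr : ∃ a > 0, ∀ n k : ℕ, a * ((16 : ℝ) ^ k) ^ (2 - s) * Af c s n ≤ Af c s (n + k))
    (p y : X) (hpy : SAsym S p y) (hb : T.th p y ≠ 0) :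
    ∃ C : ℝ, 0 < C ∧ ∀ R₀ : ℝ, 1 ≤ R₀ → 1 ≤ ‖T.th p y‖ * R₀ → ∃ n₂ : ℕ, ∀ n ≥ n₂,
      ∀ (Q : Finset X) (star : X → X),
      (∀ q ∈ Q, UAsym S p q ∧ 2 * R₀ ≤ ‖c.lc p q‖ ∧ ‖c.lc p q‖ ≤ 4 * R₀) →
      (∀ q ∈ Q, ∀ q' ∈ Q, q ≠ q' → 1 ≤ ‖c.lc (S.g^[n] q) (S.g^[n] q')‖) →
      (∀ q ∈ Q, QdM T p y q (star q) ∧ S.SRel c.ε₀ (S.g^[n] q) (S.g^[n] (star q))) →
      ∑ q ∈ Q, (fr c n q / ‖c.tau p q‖) ^ s ≤ C * R₀ ^ s * Af c s n := by
  classical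
  have hM := c.one_le_M
  have hM0 : 0 < c.M := by linarith
  set b : ℂ := T.th p y with hbdef
  set η : ℂ := c.eta p y with hηdef
  have hbp : 0 < ‖b‖ := norm_pos_iff.2 hb
  have hη : η ≠ 0 := c.eta_ne_zero hpy
  have hηp : 0 < ‖η‖ := norm_pos_iff.2 hη
  obtain ⟨xi, hxi1, hxi2⟩ := surj_all c y (-η / b)
  have hτi : 0 < ‖c.tau y xi‖ := norm_pos_iff.2 (c.tau_ne_zero hxi1)
  set K₃ : ℝ := ‖c.tau y xi‖ * ‖η‖ / ‖b‖ ^ 2 with hK₃
  have hK₃p : 0 < K₃ := by positivity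
  set B : ℝ := ‖η‖ / ‖b‖ + ‖η‖ / ‖b‖ ^ 2 with hB
  obtain ⟨CB, hCB1, hCB⟩ := tau_bound c B
  have hCB0 : 0 < CB := by linarith
  obtain ⟨C₁, hC₁, hle⟩ := hle K₃ hK₃p (1 / (5 * c.M)) (by positivity)
  obtain ⟨a, ha, hgr⟩ := hgr
  set c₂ : ℝ := ‖η‖ / (25 * c.M * ‖b‖ ^ 2) with hc₂
  have hc₂p : 0 < c₂ := by positivity
  refine ⟨(c₂ ^ s)⁻¹ * CB ^ s * C₁ * c.M ^ s * a⁻¹, by positivity, ?_⟩
  intro R₀ hR₀ hbR
  have hR₀p : 0 < R₀ := by linarith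
  obtain ⟨n₂, hn₂⟩ : ∃ n₂ : ℕ, R₀ < (16 : ℝ) ^ n₂ := pow_unbounded_of_one_lt _ (by norm_num)
  refine ⟨n₂, ?_⟩
  intro n hn Q star hQ hsep hst
  obtain ⟨k, hk1, hk2⟩ := pick_k c xi (1 / R₀) (by positivity) (by
    rw [div_le_one hR₀p]; exact hR₀)
  have hkn : k ≤ n := by
    have h1 : 1 / R₀ ≤ ((16 : ℝ) ^ k)⁻¹ := hk1.trans (w18d_fr_le c k xi)
    have h2 : (16 : ℝ) ^ k ≤ R₀ := by
      rw [one_div] at h1
      exact (inv_le_inv₀ hR₀p (by positivity)).1 h1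
    have h3 : (16 : ℝ) ^ k < (16 : ℝ) ^ n₂ := h2.trans_lt hn₂
    have h4 : k < n₂ := (pow_lt_pow_iff_right₀ (by norm_num)).1 h3
    omega
  -- pointwise facts
  have hpt := fun q (hq : q ∈ Q) => w18d_pt T n hb R₀ hbR (hQ q hq).2.1 (hQ q hq).2.2
    (hst q hq).1
  simp only [← hbdef, ← hηdef] at hpt
  have hwpos : ∀ q ∈ Q, 0 < ‖1 - b * c.lc p q‖ := fun q hq =>
    lt_of_lt_of_le (by positivity) (hpt q hq).1.1
  have hen : ∀ q ∈ Q, ‖c.eta (S.g^[n] q) (S.g^[n] (star q))‖ ≤ c.M ∧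
      1 ≤ c.M * ‖c.eta (S.g^[n] q) (S.g^[n] (star q))‖ := fun q hq =>
    ⟨c.eta_le _ _ (hst q hq).2, c.one_le_eta (hst q hq).2⟩
  have hτy : ∀ q ∈ Q, 0 < ‖c.tau y (star q)‖ := fun q hq =>
    norm_pos_iff.2 (c.tau_ne_zero (hst q hq).1.wx)
  have hτp : ∀ q ∈ Q, 0 < ‖c.tau p q‖ := fun q hq =>
    norm_pos_iff.2 (c.tau_ne_zero (hst q hq).1.vx)
  -- flat radii
  have hrs : ∀ q ∈ Q, 0 < fr c n (star q) / ‖c.tau y (star q)‖ := fun q hq =>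
    div_pos (w18d_fr_pos c n _) (hτy q hq)
  have hr : ∀ q ∈ Q, 0 < fr c n q / ‖c.tau p q‖ := fun q hq =>
    div_pos (w18d_fr_pos c n _) (hτp q hq)
  -- coordinates
  have hv : ∀ q ∈ Q, c.lc y (star q) = η * c.lc p q / (1 - b * c.lc p q) := fun q hq =>
    (hst q hq).1.lc_eq
  have hw : ∀ q ∈ Q, 1 - b * c.lc p q ≠ 0 := fun q hq => (hst q hq).1.ne
  have hvinf : ∀ q ∈ Q, c.lc y (star q) - (-η / b) = η / (b * (1 - b * c.lc p q)) := by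
    intro q hq
    rw [hv q hq]
    exact w18d_A η b _ _ hb (hw q hq) rfl
  have hvinf' : ∀ q ∈ Q, ‖c.lc y (star q) - (-η / b)‖ ≤ ‖η‖ / (‖b‖ ^ 2 * R₀) := by
    intro q hq
    rw [hvinf q hq, norm_div, norm_mul]
    refine div_le_div_of_nonneg_left hηp.le (by positivity) ?_
    have := (hpt q hq).1.1
    calc ‖b‖ ^ 2 * R₀ = ‖b‖ * (‖b‖ * R₀) := by ring
      _ ≤ _ := mul_le_mul_of_nonneg_left this hbp.le
  -- separation of the transported points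
  have hsep' : ∀ q ∈ Q, ∀ q' ∈ Q, q ≠ q' →
      1 / (5 * c.M) ≤ ‖c.lc (S.g^[n] (star q)) (S.g^[n] (star q'))‖ := by
    intro q hq q' hq' hne
    have h1 := lc_sep c (hst q hq).1.wx (hst q' hq').1.wx n
    have h2 := lc_sep c (hst q hq).1.vx (hst q' hq').1.vx n
    have h3 : fr c n q / ‖c.tau p q‖ ≤ ‖c.lc p q - c.lc p q'‖ := by
      rw [← h2]
      calc fr c n q / ‖c.tau p q‖ = 1 * (fr c n q / ‖c.tau p q‖) := (one_mul _).symm
        _ ≤ _ := mul_le_mul_of_nonneg_right (hsep q hq q' hq' hne) (hr q hq).le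
    have h4 : c.lc y (star q) - c.lc y (star q') =
        η * (c.lc p q - c.lc p q') / ((1 - b * c.lc p q) * (1 - b * c.lc p q')) := by
      rw [hv q hq, hv q' hq']
      exact w18d_B η b _ _ _ _ (hw q hq) (hw q' hq') rfl rfl
    have h5 : ‖c.lc y (star q) - c.lc y (star q')‖ * (‖1 - b * c.lc p q‖ * ‖1 - b * c.lc p q'‖) =
        ‖η‖ * ‖c.lc p q - c.lc p q'‖ := by
      rw [h4, norm_div, norm_mul, norm_mul]
      have a1 := (hwpos q hq).ne'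
      have a2 := (hwpos q' hq').ne'
      exact div_mul_cancel₀ _ (mul_ne_zero a1 a2)
    -- r* (q) * (ηn * w²) = r q * ‖η‖
    have h6 := (hpt q hq).2
    have h7 : fr c n (star q) / ‖c.tau y (star q)‖ * (‖c.eta (S.g^[n] q) (S.g^[n] (star q))‖ *
        ‖1 - b * c.lc p q‖ ^ 2) ≤ ‖c.lc y (star q) - c.lc y (star q')‖ *
        (‖1 - b * c.lc p q‖ * ‖1 - b * c.lc p q'‖) := by
      rw [h6, h5, mul_comm ‖η‖]
      exact mul_le_mul_of_nonneg_right h3 hηp.le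
    -- |1 - b u'| ≤ 5 |1 - b u|
    have h8 : ‖1 - b * c.lc p q'‖ ≤ 5 * ‖1 - b * c.lc p q‖ := by
      have a1 := (hpt q' hq').1.2
      have a2 := (hpt q hq).1.1
      linarith
    have h9 : fr c n (star q) / ‖c.tau y (star q)‖ * (‖c.eta (S.g^[n] q) (S.g^[n] (star q))‖ *
        ‖1 - b * c.lc p q‖ ^ 2) ≤ ‖c.lc y (star q) - c.lc y (star q')‖ *
        (5 * ‖1 - b * c.lc p q‖ ^ 2) := by
      refine h7.trans (mul_le_mul_of_nonneg_left ?_ (norm_nonneg _))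
      calc ‖1 - b * c.lc p q‖ * ‖1 - b * c.lc p q'‖ ≤
          ‖1 - b * c.lc p q‖ * (5 * ‖1 - b * c.lc p q‖) :=
            mul_le_mul_of_nonneg_left h8 (norm_nonneg _)
        _ = _ := by ring
    have hw2 : 0 < ‖1 - b * c.lc p q‖ ^ 2 := by
      have := hwpos q hq
      positivity
    have h10 : fr c n (star q) / ‖c.tau y (star q)‖ * ‖c.eta (S.g^[n] q) (S.g^[n] (star q))‖ ≤
        ‖c.lc y (star q) - c.lc y (star q')‖ * 5 := by
      refine le_of_mul_le_mul_right ?_ hw2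
      calc _ = fr c n (star q) / ‖c.tau y (star q)‖ * (‖c.eta (S.g^[n] q) (S.g^[n] (star q))‖ *
        ‖1 - b * c.lc p q‖ ^ 2) := by ring
        _ ≤ _ := h9
        _ = _ := by ring
    rw [← h1] at h10
    have h11 : ‖c.eta (S.g^[n] q) (S.g^[n] (star q))‖ ≤
        ‖c.lc (S.g^[n] (star q)) (S.g^[n] (star q'))‖ * 5 := by
      refine le_of_mul_le_mul_right ?_ (hrs q hq)
      calc _ = fr c n (star q) / ‖c.tau y (star q)‖ *
          ‖c.eta (S.g^[n] q) (S.g^[n] (star q))‖ := by ring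
        _ ≤ _ := h10
        _ = _ := by ring
    rw [div_le_iff₀ (by positivity)]
    have h12 := (hen q hq).2
    calc (1 : ℝ) ≤ c.M * ‖c.eta (S.g^[n] q) (S.g^[n] (star q))‖ := h12
      _ ≤ c.M * (‖c.lc (S.g^[n] (star q)) (S.g^[n] (star q'))‖ * 5) :=
          mul_le_mul_of_nonneg_left h11 hM0.le
      _ = _ := by ring
  have hinj : Set.InjOn star (Q : Set X) := by
    intro q hq q' hq' he
    by_contra hne
    have h1 := hsep' q hq q' hq' hne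
    rw [he, c.lc_self, norm_zero] at h1
    have : 0 < 1 / (5 * c.M) := by positivity
    linarith
  have hds : DSep c n xi (K₃ * fr c k xi) (1 / (5 * c.M)) (Q.image star) := by
    refine ⟨?_, ?_⟩
    · intro z hz
      obtain ⟨q, hq, rfl⟩ := Finset.mem_image.1 hz
      refine ⟨hxi1.symm.trans (hst q hq).1.wx, ?_⟩
      rw [c.base y xi (star q) hxi1 (hst q hq).1.wx, norm_mul, hxi2]
      calc ‖c.tau y xi‖ * ‖c.lc y (star q) - -η / b‖ ≤ ‖c.tau y xi‖ * (‖η‖ / (‖b‖ ^ 2 * R₀)) :=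
            mul_le_mul_of_nonneg_left (hvinf' q hq) hτi.le
        _ = K₃ * (1 / R₀) := by rw [hK₃]; field_simp
        _ ≤ _ := mul_le_mul_of_nonneg_left hk1 hK₃p.le
    · intro z hz z' hz' hne
      obtain ⟨q, hq, rfl⟩ := Finset.mem_image.1 hz
      obtain ⟨q', hq', rfl⟩ := Finset.mem_image.1 hz'
      exact hsep' q hq q' hq' (fun h => hne (by rw [h]))
  have h1 := hle n k xi (Q.image star) hkn hds
  have h2 := w18d_af c s hs2 hpos ha hgr hkn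
  have h3 : fr c k xi ^ s ≤ c.M ^ s * (1 / R₀) ^ s := by
    rw [← Real.mul_rpow hM0.le (by positivity)]
    exact Real.rpow_le_rpow (w18d_fr_pos c k xi).le hk2 hs.le
  -- comparison of the sums
  have h4 : ∀ q ∈ Q, c₂ / R₀ ^ 2 * (fr c n q / ‖c.tau p q‖) ≤ CB * fr c n (star q) := by
    intro q hq
    -- |v| ≤ B
    have hvB : ‖c.lc y (star q)‖ ≤ B := by
      have e1 : ‖c.lc y (star q)‖ ≤ ‖c.lc y (star q) - (-η / b)‖ + ‖-η / b‖ := by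
        have := norm_add_le (c.lc y (star q) - (-η / b)) (-η / b)
        rwa [sub_add_cancel] at this
      have e2 : ‖-η / b‖ = ‖η‖ / ‖b‖ := by rw [norm_div, norm_neg]
      have e3 : ‖η‖ / (‖b‖ ^ 2 * R₀) ≤ ‖η‖ / ‖b‖ ^ 2 := by
        refine div_le_div_of_nonneg_left hηp.le (by positivity) ?_
        exact le_mul_of_one_le_right (by positivity) hR₀
      have e4 := hvinf' q hq
      rw [hB]
      linarith
    have hτB := (hCB y (star q) (hst q hq).1.wx hvB).2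
    have e5 : fr c n (star q) / ‖c.tau y (star q)‖ ≤ CB * fr c n (star q) := by
      rw [div_le_iff₀ (hτy q hq)]
      have h6 := w18d_fr_pos c n (star q)
      calc fr c n (star q) = fr c n (star q) * 1 := (mul_one _).symm
        _ ≤ fr c n (star q) * (CB * ‖c.tau y (star q)‖) := mul_le_mul_of_nonneg_left hτB h6.le
        _ = _ := by ring
    refine le_trans ?_ e5
    -- c₂ / R₀² r ≤ r*
    have e6 := (hpt q hq).2
    have e7 : ‖c.eta (S.g^[n] q) (S.g^[n] (star q))‖ * ‖1 - b * c.lc p q‖ ^ 2 ≤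
        c.M * (5 * ‖b‖ * R₀) ^ 2 :=
      mul_le_mul (hen q hq).1 (pow_le_pow_left₀ (norm_nonneg _) (hpt q hq).1.2 2) (by positivity) hM0.le
    have e8 : fr c n q / ‖c.tau p q‖ * ‖η‖ ≤
        fr c n (star q) / ‖c.tau y (star q)‖ * (c.M * (5 * ‖b‖ * R₀) ^ 2) := by
      rw [← e6]
      exact mul_le_mul_of_nonneg_left e7 (hrs q hq).le
    have e9 : c₂ / R₀ ^ 2 * (fr c n q / ‖c.tau p q‖) =
        (fr c n q / ‖c.tau p q‖ * ‖η‖) / (c.M * (5 * ‖b‖ * R₀) ^ 2) := by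
      rw [hc₂]
      have := (hτp q hq).ne'
      field_simp
      ring
    rw [e9, div_le_iff₀ (by positivity)]
    exact e8
  have h5 : (c₂ / R₀ ^ 2) ^ s * ∑ q ∈ Q, (fr c n q / ‖c.tau p q‖) ^ s ≤
      CB ^ s * dsum c s n (Q.image star) := by
    unfold dsum
    rw [Finset.sum_image hinj, Finset.mul_sum, Finset.mul_sum]
    refine Finset.sum_le_sum fun q hq => ?_
    rw [← Real.mul_rpow (by positivity) (hr q hq).le,
      ← Real.mul_rpow hCB0.le (w18d_fr_pos c n _).le]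
    exact Real.rpow_le_rpow (mul_nonneg (by positivity) (hr q hq).le) (h4 q hq) hs.le
  have hA := hpos n
  have hA' := hpos (n - k)
  have hRs : 0 < R₀ ^ s := Real.rpow_pos_of_pos hR₀p s
  have h6 : (c₂ / R₀ ^ 2) ^ s = c₂ ^ s * (R₀ ^ s)⁻¹ * (R₀ ^ s)⁻¹ := by
    rw [Real.div_rpow hc₂p.le (by positivity), ← Real.rpow_natCast R₀ 2, ← Real.rpow_mul hR₀p.le,
      mul_comm ((2 : ℕ) : ℝ) s, Real.rpow_mul hR₀p.le, Real.rpow_natCast]
    field_simp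
  have h7 : (1 / R₀) ^ s = (R₀ ^ s)⁻¹ := by
    rw [one_div, Real.inv_rpow hR₀p.le]
  rw [h6] at h5
  rw [h7] at h3
  have h8 : CB ^ s * dsum c s n (Q.image star) ≤
      CB ^ s * (C₁ * (c.M ^ s * (R₀ ^ s)⁻¹) * (a⁻¹ * Af c s n)) := by
    refine mul_le_mul_of_nonneg_left (h1.trans ?_) (by positivity)
    exact mul_le_mul (mul_le_mul_of_nonneg_left h3 hC₁.le) h2 hA'.le (by positivity)
  have hc₂s : 0 < c₂ ^ s := Real.rpow_pos_of_pos hc₂p s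
  have h9 := h5.trans h8
  have h10 : ∑ q ∈ Q, (fr c n q / ‖c.tau p q‖) ^ s =
      ((c₂ ^ s)⁻¹ * R₀ ^ s * R₀ ^ s) * (c₂ ^ s * (R₀ ^ s)⁻¹ * (R₀ ^ s)⁻¹ *
        ∑ q ∈ Q, (fr c n q / ‖c.tau p q‖) ^ s) := by
    field_simp
  rw [h10]
  calc _ ≤ ((c₂ ^ s)⁻¹ * R₀ ^ s * R₀ ^ s) *
        (CB ^ s * (C₁ * (c.M ^ s * (R₀ ^ s)⁻¹) * (a⁻¹ * Af c s n))) :=
        mul_le_mul_of_nonneg_left h9 (by positivity)
    _ = _ := by field_simp

end Pool.Agent.H779R2.Mo
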