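import Pool.Agent.H779R2.Mo.MPerA
import Pool.Agent.H779R2.Mo.MPerB
import Pool.Agent.H779R2.Mo.MPerC

set_option autoImplicit false

namespace Pool.Agent.H779R2.Mo

open Pool.Agent.H721R2 Pool.Agent.H779R2.An Filter Topology MeasureTheory
open scoped BigOperators

variable {X E : Type*} [MetricSpace X] [CompactSpace X] [NormedAddCommGroup E]
  [InnerProductSpace ℝ E] [FiniteDimensional ℝ E]

theorem sum_biUnion_le' {Y : Type*} [DecidableEq Y] (I : Finset Y) (W : Y → Finset Y)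
    (f : Y → ℝ) (hf : ∀ q, 0 ≤ f q) :
    ∑ q ∈ I.biUnion W, f q ≤ ∑ i ∈ I, ∑ q ∈ W i, f q := by
  classical
  induction I using Finset.induction_on with
  | empty => simp
  | insert i I hi ih =>
    rw [Finset.biUnion_insert, Finset.sum_insert hi]
    calc ∑ q ∈ W i ∪ I.biUnion W, f q
        ≤ ∑ q ∈ W i, f q + ∑ q ∈ I.biUnion W, f q := by
          rw [← Finset.sum_union_inter]
          exact le_add_of_nonneg_right (Finset.sum_nonneg fun q _ => hf q)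
      _ ≤ _ := add_le_add le_rfl ih

/-- W18: the nonlinearity vanishes along stable plaques of periodic points. -/
theorem th_periodic {S : HypSys X E} {c : CF S} (T : TH c) (s : ℝ) (hs : 0 < s) (hs2 : s < 2)
    (hsp : SmallPath T s) (htr : TrackU T)
    (hpos : ∀ n, 0 < Af c s n)
    (hle : ∀ ρ > 0, ∀ θ > 0, ∃ C : ℝ, 0 < C ∧ ∀ (n k : ℕ) (x : X) (Q : Finset X), k ≤ n →
      DSep c n x (ρ * fr c k x) θ Q → dsum c s n Q ≤ C * fr c k x ^ s * Af c s (n - k))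
    (hlow : ∀ ρ > 0, ∃ a > 0, ∀ (n : ℕ) (x : X), ∃ Q, DSep c n x ρ 1 Q ∧
      a * Af c s n ≤ dsum c s n Q)
    (hgr : ∃ a > 0, ∀ n k : ℕ, a * ((16 : ℝ) ^ k) ^ (2 - s) * Af c s n ≤ Af c s (n + k)) :
    ∃ ε > 0, ∀ (p : X) (N : ℕ), 1 ≤ N → S.g^[N] p = p → ∀ y, S.SRel ε p y → T.th p y = 0 := by
  classical
  obtain ⟨ε₁, hε₁, htr'⟩ := htr
  obtain ⟨ρ', hρ', hsp'⟩ := hsp ε₁ hε₁
  refine ⟨min ρ' c.ε₀, lt_min hρ' c.geo.pos, ?_⟩
  intro p N hN hp y hpy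
  have hpyS : SAsym S p y := c.geo.sasym _ _ (hpy.mono (min_le_right _ _))
  have hpy' : S.SRel ρ' p y := hpy.mono (min_le_left _ _)
  by_contra hb
  obtain ⟨a, ha, hann⟩ := ann_sum c s hs hs2 hlow hgr p N hp
  obtain ⟨C, hC, hgood⟩ := good_sum T s hs hs2 hpos hle hgr p y hpyS hb
  have h2s : 0 < 2 - s := by linarith
  have hbn : 0 < ‖T.th p y‖ := norm_pos_iff.mpr hb
  -- choice of `j`
  obtain ⟨j, hj1, hj2⟩ : ∃ j : ℕ, 2 * C / a < ((16 : ℝ) ^ (N * j)) ^ (2 - s) ∧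
      1 ≤ ‖T.th p y‖ * (16 : ℝ) ^ (N * j) := by
    have ht : Tendsto (fun j : ℕ => (16 : ℝ) ^ (N * j)) atTop atTop := by
      have h1 : Tendsto (fun j : ℕ => N * j) atTop atTop :=
        Filter.tendsto_atTop_mono (fun j => Nat.le_mul_of_pos_left j (by omega)) tendsto_id
      exact (tendsto_pow_atTop_atTop_of_one_lt (by norm_num)).comp h1
    have ht1 := ((tendsto_rpow_atTop h2s).comp ht).eventually_gt_atTop (2 * C / a)
    have ht2 := (ht.const_mul_atTop hbn).eventually_ge_atTop 1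
    obtain ⟨j, hj⟩ := (ht1.and ht2).exists
    exact ⟨j, hj.1, hj.2⟩
  set R₀ : ℝ := ‖c.Lp (N * j) p‖ with hR₀
  have hR₀16 : (16 : ℝ) ^ (N * j) ≤ R₀ := c.Lp_ge _ _
  have hR₀1 : 1 ≤ R₀ := c.one_le_Lp _ _
  have hbR : 1 ≤ ‖T.th p y‖ * R₀ :=
    hj2.trans (mul_le_mul_of_nonneg_left hR₀16 hbn.le)
  obtain ⟨n₂, hn₂⟩ := hgood R₀ hR₀1 hbR
  obtain ⟨Cb, hCb, hbad⟩ := bad_sum c s hs hs2 hpos hle hgr p (4 * R₀) (by linarith)
  set P : ℝ := ((16 : ℝ) ^ (N * j)) ^ (2 - s) with hP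
  have hPpos : 0 < P := Real.rpow_pos_of_pos (by positivity) _
  have hRs : 0 < R₀ ^ s := Real.rpow_pos_of_pos (by linarith) _
  set L : ℝ := a * R₀ ^ s * P with hL
  have hLpos : 0 < L := by positivity
  set t₀ : ℝ := 1 / (16 * R₀) with ht₀
  have ht₀pos : 0 < t₀ := by positivity
  have ht₀s : 0 < t₀ ^ s := Real.rpow_pos_of_pos ht₀pos _
  set δ : ℝ := min (L / (2 * Cb)) (t₀ ^ s) with hδ
  have hδpos : 0 < δ := lt_min (by positivity) ht₀s
  obtain ⟨γ, I, β, ω, hγc, hγ0, hγ1, hγrel, hωpos, hωsum, hγcov⟩ := hsp' p y hpy' δ hδpos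
  have hωle : ∀ i ∈ I, ω i ≤ t₀ := by
    intro i hi
    by_contra hcon
    push Not at hcon
    have h1 : t₀ ^ s < ω i ^ s := Real.rpow_lt_rpow ht₀pos.le hcon hs
    have h2 : ω i ^ s ≤ ∑ i ∈ I, ω i ^ s :=
      Finset.single_le_sum (f := fun i => ω i ^ s)
        (fun k hk => Real.rpow_nonneg (hωpos k hk).le _) hi
    have h3 : δ ≤ t₀ ^ s := min_le_right _ _
    linarith
  have ht₀1 : t₀ ≤ 1 := by
    rw [ht₀, div_le_one (by positivity)]
    linarith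
  have h16 : t₀ * (16 * R₀) = 1 := by
    rw [ht₀]; field_simp
  have hIne : I.Nonempty := by
    obtain ⟨i, hi, -⟩ := hγcov 0 (by constructor <;> norm_num)
    exact ⟨i, hi⟩
  obtain ⟨i₀, hi₀, hmin⟩ := Finset.exists_min_image I ω hIne
  have hω₀ : 0 < ω i₀ := hωpos i₀ hi₀
  obtain ⟨n₀, hn₀⟩ := htr' p γ hγc hγ0 hγrel (4 * R₀) (by linarith) (ω i₀ * (4 * R₀))
    (by positivity)
  have hbad' : ∀ i ∈ I, ∃ n₁ : ℕ, ∀ n ≥ n₁,
      ∀ (β : ℂ) (Q : Finset X), (∀ q ∈ Q, UAsym S p q ∧ ‖c.lc p q‖ ≤ 4 * R₀) →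
      (∀ q ∈ Q, ∀ q' ∈ Q, q ≠ q' → 1 ≤ ‖c.lc (S.g^[n] q) (S.g^[n] q')‖) →
      (∀ q ∈ Q, ‖1 - β * c.lc p q‖ ≤ 2 * ω i * (4 * R₀)) →
      ∑ q ∈ Q, (fr c n q / ‖c.tau p q‖) ^ s ≤ Cb * ω i ^ s * Af c s n := by
    intro i hi
    refine hbad (ω i) (hωpos i hi) ((hωle i hi).trans ht₀1) ?_
    have := mul_le_mul_of_nonneg_right (hωle i hi) (by positivity : (0 : ℝ) ≤ 16 * R₀)
    nlinarith
  choose! n₁ hn₁ using hbad'
  obtain ⟨n, hn0, hn2, hn1⟩ : ∃ n : ℕ, n₀ ≤ n ∧ n₂ ≤ n ∧ ∀ i ∈ I, n₁ i ≤ n :=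
    ⟨max n₀ (max n₂ (I.sup n₁)), le_max_left _ _,
      (le_max_left _ _).trans (le_max_right _ _), fun i hi =>
      (Finset.le_sup hi).trans ((le_max_right _ _).trans (le_max_right _ _))⟩
  obtain ⟨Q, hQ1, hQ2, hQ3⟩ := hann j n
  have hAf := hpos n
  set G : Finset X := Q.filter (fun q => ∀ i ∈ I, 2 * ω i * (4 * R₀) < ‖1 - β i * c.lc p q‖)
    with hG
  set W : X → Finset X := fun i => Q.filter
    (fun q => ‖1 - β i * c.lc p q‖ ≤ 2 * ω i * (4 * R₀)) with hW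
  have hcov : Q ⊆ G ∪ I.biUnion W := by
    intro q hq
    by_cases h : ∀ i ∈ I, 2 * ω i * (4 * R₀) < ‖1 - β i * c.lc p q‖
    · exact Finset.mem_union_left _ (Finset.mem_filter.mpr ⟨hq, h⟩)
    · push Not at h
      obtain ⟨i, hi, h⟩ := h
      exact Finset.mem_union_right _ (Finset.mem_biUnion.mpr ⟨i, hi, Finset.mem_filter.mpr ⟨hq, h⟩⟩)
  have hfnn : ∀ q, 0 ≤ (fr c n q / ‖c.tau p q‖) ^ s := fun q => by
    unfold fr; positivity
  have hsum1 : ∑ q ∈ Q, (fr c n q / ‖c.tau p q‖) ^ s ≤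
      ∑ q ∈ G, (fr c n q / ‖c.tau p q‖) ^ s +
        ∑ i ∈ I, ∑ q ∈ W i, (fr c n q / ‖c.tau p q‖) ^ s := by
    calc ∑ q ∈ Q, (fr c n q / ‖c.tau p q‖) ^ s
        ≤ ∑ q ∈ G ∪ I.biUnion W, (fr c n q / ‖c.tau p q‖) ^ s :=
          Finset.sum_le_sum_of_subset_of_nonneg hcov (fun q _ _ => hfnn q)
      _ ≤ ∑ q ∈ G, (fr c n q / ‖c.tau p q‖) ^ s +
            ∑ q ∈ I.biUnion W, (fr c n q / ‖c.tau p q‖) ^ s := by
          rw [← Finset.sum_union_inter]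
          exact le_add_of_nonneg_right (Finset.sum_nonneg fun q _ => hfnn q)
      _ ≤ _ := by
          refine add_le_add le_rfl ?_
          exact sum_biUnion_le' I W _ hfnn
  have hbadsum : ∀ i ∈ I, ∑ q ∈ W i, (fr c n q / ‖c.tau p q‖) ^ s ≤ Cb * ω i ^ s * Af c s n := by
    intro i hi
    refine hn₁ i hi n (hn1 i hi) (β i) (W i) ?_ ?_ ?_
    · intro q hq
      have := hQ1 q (Finset.mem_filter.mp hq).1
      exact ⟨this.1, this.2.2⟩
    · intro q hq q' hq' hne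
      exact hQ2 q (Finset.mem_filter.mp hq).1 q' (Finset.mem_filter.mp hq').1 hne
    · intro q hq
      exact (Finset.mem_filter.mp hq).2
  have hbadtot : ∑ i ∈ I, ∑ q ∈ W i, (fr c n q / ‖c.tau p q‖) ^ s ≤ L / 2 * Af c s n := by
    calc _ ≤ ∑ i ∈ I, Cb * ω i ^ s * Af c s n := Finset.sum_le_sum hbadsum
      _ = Cb * (∑ i ∈ I, ω i ^ s) * Af c s n := by
          rw [Finset.mul_sum, Finset.sum_mul]
      _ ≤ Cb * δ * Af c s n := by gcongr
      _ ≤ Cb * (L / (2 * Cb)) * Af c s n := by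
          gcongr
          exact min_le_left _ _
      _ = L / 2 * Af c s n := by
          field_simp
  -- good points
  have hgoodpt : ∀ q ∈ G, ∃ q', QdM T p y q q' ∧ S.SRel c.ε₀ (S.g^[n] q) (S.g^[n] q') := by
    intro q hq
    obtain ⟨hqQ, hqg⟩ := Finset.mem_filter.mp hq
    obtain ⟨h1, h2, h3⟩ := hQ1 q hqQ
    obtain ⟨q', hq1, hq2⟩ := hn₀ q h1 h3 (by
      intro t ht
      obtain ⟨i, hi, hti⟩ := hγcov t ht
      have h4 := hqg i hi
      have h5 : ‖1 - β i * c.lc p q‖ ≤ ‖1 - T.th p (γ t) * c.lc p q‖ +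
          ‖T.th p (γ t) - β i‖ * ‖c.lc p q‖ := by
        rw [← norm_mul]
        refine le_trans (le_of_eq ?_) (norm_add_le _ _)
        congr 1
        ring
      have h6 : ‖T.th p (γ t) - β i‖ * ‖c.lc p q‖ ≤ ω i * (4 * R₀) :=
        mul_le_mul hti h3 (norm_nonneg _) (hωpos i hi).le
      have h7 : ω i₀ * (4 * R₀) ≤ ω i * (4 * R₀) :=
        mul_le_mul_of_nonneg_right (hmin i hi) (by linarith)
      linarith)
    refine ⟨q', ?_, ?_⟩
    · rw [hγ1] at hq1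
      exact hq1
    · obtain ⟨m, rfl⟩ := Nat.exists_eq_add_of_le hn0
      rw [add_comm n₀ m, Function.iterate_add_apply, Function.iterate_add_apply]
      exact hq2.iter m
  choose! star hstar using hgoodpt
  have hgs := hn₂ n hn2 G star
    (fun q hq => hQ1 q (Finset.mem_filter.mp hq).1)
    (fun q hq q' hq' hne => hQ2 q (Finset.mem_filter.mp hq).1 q' (Finset.mem_filter.mp hq').1 hne)
    hstar
  have hfin : L * Af c s n ≤ C * R₀ ^ s * Af c s n + L / 2 * Af c s n := by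
    calc L * Af c s n ≤ _ := hQ3
      _ ≤ _ := hsum1
      _ ≤ _ := add_le_add hgs hbadtot
  have hfin2 : L ≤ C * R₀ ^ s + L / 2 := by
    rw [← add_mul] at hfin
    exact le_of_mul_le_mul_right hfin hAf
  have hfin3 : a * P ≤ 2 * C := by
    have : R₀ ^ s * (a * P) ≤ R₀ ^ s * (2 * C) := by
      have h8 : L = R₀ ^ s * (a * P) := by rw [hL]; ring
      linarith
    exact le_of_mul_le_mul_left this hRs
  rw [div_lt_iff₀ ha] at hj1
  linarith [mul_comm a P]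

end Pool.Agent.H779R2.Mo
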