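import Pool.Agent.H779R2.Mo.MSel

set_option autoImplicit false

namespace Pool.Agent.H779R2.Mo

open Pool.Agent.H721R2 Pool.Agent.H779R2.An Filter Topology MeasureTheory
open scoped BigOperators

variable {X E : Type*} [MetricSpace X] [CompactSpace X] [NormedAddCommGroup E]
  [InnerProductSpace ℝ E] [FiniteDimensional ℝ E]

namespace MUpAux

section aux

variable {S : HypSys X E} (c : CF S)

omit [CompactSpace X] [FiniteDimensional ℝ E]

theorem fr_pos (n : ℕ) (x : X) : 0 < fr c n x := inv_pos.2 (c.Lp_norm_pos n x)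

theorem fr_le_one (n : ℕ) (x : X) : fr c n x ≤ 1 := inv_le_one_of_one_le₀ (c.one_le_Lp n x)

theorem dsum_nonneg (s : ℝ) (n : ℕ) (Q : Finset X) : 0 ≤ dsum c s n Q :=
  Finset.sum_nonneg fun q _ => Real.rpow_nonneg (fr_pos c n q).le s

theorem Af_nonneg (s : ℝ) (n : ℕ) : 0 ≤ Af c s n := by
  apply Real.sSup_nonneg
  rintro t ⟨x, Q, _, rfl⟩
  exact dsum_nonneg c s n Q

theorem sum_biUnion_le' {Y : Type*} [DecidableEq Y] (f : Y → ℝ) (hf : ∀ y, 0 ≤ f y)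
    (W : Finset Y) (t : Y → Finset Y) : ∑ y ∈ W.biUnion t, f y ≤ ∑ w ∈ W, ∑ y ∈ t w, f y := by
  induction W using Finset.induction_on with
  | empty => simp
  | insert a W ha ih =>
    rw [Finset.biUnion_insert, Finset.sum_insert ha]
    have h1 := Finset.sum_union_inter (s₁ := t a) (s₂ := W.biUnion t) (f := f)
    have h2 : 0 ≤ ∑ y ∈ t a ∩ W.biUnion t, f y := Finset.sum_nonneg fun y _ => hf y
    linarith

theorem Lp_add (k m : ℕ) (x : X) : c.Lp (k + m) x = c.Lp k x * c.Lp m (S.g^[k] x) := by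
  induction m with
  | zero => simp [CF.Lp_zero]
  | succ m ih =>
    rw [← Nat.add_assoc, CF.Lp_succ, CF.Lp_succ, ih, Nat.add_comm k m, Function.iterate_add_apply]
    ring

theorem fr_add (k m : ℕ) (x : X) : fr c (k + m) x = fr c k x * fr c m (S.g^[k] x) := by
  unfold fr
  rw [Lp_add, norm_mul, mul_inv]

/-- a finite set is the union of few classes of small diameter -/
theorem classes {Y : Type*} (Q : Finset Y) (f : Y → ℂ) (a : ℂ) (ρ r : ℝ) (hρ : 0 ≤ ρ)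
    (hr : 0 < r) (h1 : ∀ x ∈ Q, ‖f x - a‖ ≤ ρ) :
    ∃ W ⊆ Q, (W.card : ℝ) ≤ (2 * ρ / r + 1) ^ 2 ∧ ∀ x ∈ Q, ∃ y ∈ W, ‖f x - f y‖ < r := by
  classical
  obtain ⟨P, hP⟩ : ∃ P : Finset Y → Prop,
    ∀ W, P W ↔ ∀ x ∈ W, ∀ x' ∈ W, x ≠ x' → r ≤ ‖f x - f x'‖ := ⟨_, fun _ => Iff.rfl⟩
  obtain ⟨W, hW, hmax⟩ := Finset.exists_max_image (Q.powerset.filter P) Finset.card
    ⟨∅, by rw [Finset.mem_filter, Finset.mem_powerset, hP]; simp⟩
  rw [Finset.mem_filter, Finset.mem_powerset, hP] at hW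
  refine ⟨W, hW.1, K15.packing W f a ρ r hρ hr (fun x hx => h1 x (hW.1 hx)) hW.2, ?_⟩
  intro x hx
  by_contra hcon
  push Not at hcon
  have hxW : x ∉ W := fun h => by
    have := hcon x h
    simp at this
    linarith
  have := hmax (insert x W) (by
    rw [Finset.mem_filter, Finset.mem_powerset, hP]
    refine ⟨Finset.insert_subset hx hW.1, ?_⟩
    intro y hy y' hy' hne
    rcases Finset.mem_insert.mp hy with h1 | h1
    · rcases Finset.mem_insert.mp hy' with h3 | h3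
      · exact absurd (h1.trans h3.symm) hne
      · rw [h1]; exact hcon y' h3
    · rcases Finset.mem_insert.mp hy' with h3 | h3
      · rw [norm_sub_rev, h3]; exact hcon y h1
      · exact hW.2 y h1 y' h3 hne)
  rw [Finset.card_insert_of_notMem hxW] at this
  omega

end aux

end MUpAux

/-- W13: discs of radius `ρ`. -/
theorem dsum_le {S : HypSys X E} (c : CF S) (s : ℝ) (hs : 0 < s) (hs2 : s ≤ 2) (ρ θ : ℝ)
    (hρ : 0 < ρ) (hθ : 0 < θ) : ∃ C : ℝ, 0 < C ∧ ∀ (n : ℕ) (x : X) (Q : Finset X),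
      DSep c n x ρ θ Q → dsum c s n Q ≤ C * Af c s n := by
  classical
  obtain ⟨C₀, hC₀, htau⟩ := tau_bound c ρ
  obtain ⟨C₁, hC₁, hsel⟩ := dsel c s hs 1 θ one_pos hθ 0
  have hC₀' : 0 < C₀ := lt_of_lt_of_le one_pos hC₀
  have hr : 0 < C₀⁻¹ := inv_pos.2 hC₀'
  refine ⟨(2 * ρ / C₀⁻¹ + 1) ^ 2 * C₁, by positivity, fun n x Q hQ => ?_⟩
  obtain ⟨W, hWQ, hWc, hcov⟩ := MUpAux.classes Q (c.lc x) 0 ρ C₀⁻¹ hρ.le hr
    (fun q hq => by rw [sub_zero]; exact (hQ.mem q hq).2)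
  have hcls : ∀ w ∈ W, dsum c s n (Q.filter (fun q => ‖c.lc x q - c.lc x w‖ < C₀⁻¹)) ≤
      C₁ * Af c s n := by
    intro w hw
    have hw1 := hQ.mem w (hWQ hw)
    have hd : DSep c (n + 0) w 1 θ (Q.filter (fun q => ‖c.lc x q - c.lc x w‖ < C₀⁻¹)) := by
      constructor
      · intro q hq
        rw [Finset.mem_filter] at hq
        have hq1 := hQ.mem q hq.1
        refine ⟨hw1.1.symm.trans hq1.1, ?_⟩
        rw [c.base x w q hw1.1 hq1.1, norm_mul]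
        calc ‖c.tau x w‖ * ‖c.lc x q - c.lc x w‖ ≤ C₀ * C₀⁻¹ :=
              mul_le_mul (htau x w hw1.1 hw1.2).1 hq.2.le (norm_nonneg _) hC₀'.le
          _ = 1 := mul_inv_cancel₀ hC₀'.ne'
      · intro q hq q' hq' hne
        rw [Finset.mem_filter] at hq hq'
        exact hQ.sep q hq.1 q' hq'.1 hne
    obtain ⟨Q', hQ', hQ'd, hle⟩ := hsel n w _ hd
    rw [Nat.add_zero] at hle
    refine le_trans hle ?_
    apply mul_le_mul_of_nonneg_left _ hC₁.le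
    exact le_csSup (af_bdd c s hs hs2 n) ⟨w, Q', hQ'd, rfl⟩
  have hsub : Q ⊆ W.biUnion (fun w => Q.filter (fun q => ‖c.lc x q - c.lc x w‖ < C₀⁻¹)) := by
    intro q hq
    obtain ⟨w, hw, hqw⟩ := hcov q hq
    exact Finset.mem_biUnion.mpr ⟨w, hw, Finset.mem_filter.mpr ⟨hq, hqw⟩⟩
  have hnn : ∀ q : X, 0 ≤ fr c n q ^ s := fun q => Real.rpow_nonneg (MUpAux.fr_pos c n q).le s
  calc dsum c s n Q ≤ ∑ q ∈ W.biUnion (fun w => Q.filter
          (fun q => ‖c.lc x q - c.lc x w‖ < C₀⁻¹)), fr c n q ^ s :=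
        Finset.sum_le_sum_of_subset_of_nonneg hsub (fun q _ _ => hnn q)
    _ ≤ ∑ w ∈ W, ∑ q ∈ Q.filter (fun q => ‖c.lc x q - c.lc x w‖ < C₀⁻¹), fr c n q ^ s :=
        MUpAux.sum_biUnion_le' _ hnn _ _
    _ ≤ ∑ _w ∈ W, C₁ * Af c s n := Finset.sum_le_sum hcls
    _ = (W.card : ℝ) * (C₁ * Af c s n) := by rw [Finset.sum_const, nsmul_eq_mul]
    _ ≤ (2 * ρ / C₀⁻¹ + 1) ^ 2 * (C₁ * Af c s n) :=
        mul_le_mul_of_nonneg_right hWc (mul_nonneg hC₁.le (MUpAux.Af_nonneg c s n))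
    _ = (2 * ρ / C₀⁻¹ + 1) ^ 2 * C₁ * Af c s n := by ring

end Pool.Agent.H779R2.Mo
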