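import Pool.Agent.H779R2.Mo.MSel
import Pool.Agent.H779R2.Mo.MUpA

set_option autoImplicit false

namespace Pool.Agent.H779R2.Mo

open Pool.Agent.H721R2 Pool.Agent.H779R2.An Filter Topology MeasureTheory
open scoped BigOperators

variable {X E : Type*} [MetricSpace X] [CompactSpace X] [NormedAddCommGroup E]
  [InnerProductSpace ℝ E] [FiniteDimensional ℝ E]

/-- W14: small discs. -/
theorem dsum_small {S : HypSys X E} (c : CF S) (s : ℝ) (hs : 0 < s) (hs2 : s ≤ 2) (ρ θ : ℝ)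
    (hρ : 0 < ρ) (hθ : 0 < θ) : ∃ C : ℝ, 0 < C ∧ ∀ (n k : ℕ) (x : X) (Q : Finset X), k ≤ n →
      DSep c n x (ρ * fr c k x) θ Q → dsum c s n Q ≤ C * fr c k x ^ s * Af c s (n - k) := by
  classical
  obtain ⟨C₀, hC₀, htau⟩ := tau_bound c ρ
  obtain ⟨C₁, hC₁, hle⟩ := dsum_le c s hs hs2 ρ θ hρ hθ
  have hC₀' : 0 < C₀ := lt_of_lt_of_le one_pos hC₀
  refine ⟨(C₀ * C₀) ^ s * C₁, by positivity, fun n k x Q hkn hQ => ?_⟩
  have hfrx := MUpAux.fr_pos c k x
  have hLx := c.Lp_norm_pos k x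
  have hinj : Function.Injective (fun q => S.g^[k] q) := S.g.injective.iterate k
  have hlck : ∀ q ∈ Q, ‖c.lc (S.g^[k] x) (S.g^[k] q)‖ ≤ ρ := by
    intro q hq
    have h1 := hQ.mem q hq
    rw [c.lc_iter h1.1 k, norm_mul]
    calc ‖c.Lp k x‖ * ‖c.lc x q‖ ≤ ‖c.Lp k x‖ * (ρ * fr c k x) :=
          mul_le_mul_of_nonneg_left h1.2 hLx.le
      _ = ρ := by unfold fr; field_simp
  have hd : DSep c (n - k) (S.g^[k] x) ρ θ (Q.image (fun q => S.g^[k] q)) := by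
    constructor
    · intro y hy
      obtain ⟨q, hq, rfl⟩ := Finset.mem_image.mp hy
      exact ⟨(hQ.mem q hq).1.iter k, hlck q hq⟩
    · intro y hy y' hy' hne
      obtain ⟨q, hq, rfl⟩ := Finset.mem_image.mp hy
      obtain ⟨q', hq', rfl⟩ := Finset.mem_image.mp hy'
      have hne' : q ≠ q' := fun h => hne (by rw [h])
      have h1 := hQ.sep q hq q' hq' hne'
      rw [← Function.iterate_add_apply, ← Function.iterate_add_apply, Nat.sub_add_cancel hkn]
      exact h1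
  have hfr : ∀ q ∈ Q, fr c k q ≤ C₀ * C₀ * fr c k x := by
    intro q hq
    have h1 := hQ.mem q hq
    have h2 : ‖c.lc x q‖ ≤ ρ := le_trans h1.2 (by
      have := MUpAux.fr_le_one c k x
      nlinarith)
    have h3 := (htau x q h1.1 h2).1
    have h4 := (htau _ _ (h1.1.iter k) (hlck q hq)).2
    have h5 := congrArg norm (c.tau_iter h1.1 k)
    rw [norm_mul, norm_mul] at h5
    have hLq := c.Lp_norm_pos k q
    unfold fr
    rw [← div_eq_mul_inv, le_div_iff₀ hLx, ← div_eq_inv_mul, div_le_iff₀ hLq]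
    calc ‖c.Lp k x‖ ≤ (C₀ * ‖c.tau (S.g^[k] x) (S.g^[k] q)‖) * ‖c.Lp k x‖ := by nlinarith
      _ = C₀ * (‖c.Lp k q‖ * ‖c.tau x q‖) := by rw [mul_assoc, h5]
      _ ≤ C₀ * (‖c.Lp k q‖ * C₀) := by gcongr
      _ = C₀ * C₀ * ‖c.Lp k q‖ := by ring
  have hterm : ∀ q ∈ Q, fr c n q ^ s ≤ (C₀ * C₀ * fr c k x) ^ s * fr c (n - k) (S.g^[k] q) ^ s := by
    intro q hq
    have h1 : fr c n q = fr c k q * fr c (n - k) (S.g^[k] q) := by
      rw [← MUpAux.fr_add, Nat.add_sub_cancel' hkn]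
    have h2 := MUpAux.fr_pos c k q
    have h3 := MUpAux.fr_pos c (n - k) (S.g^[k] q)
    rw [h1, Real.mul_rpow h2.le h3.le]
    apply mul_le_mul_of_nonneg_right _ (Real.rpow_nonneg h3.le s)
    exact Real.rpow_le_rpow h2.le (hfr q hq) hs.le
  have himg : dsum c s (n - k) (Q.image (fun q => S.g^[k] q)) =
      ∑ q ∈ Q, fr c (n - k) (S.g^[k] q) ^ s := by
    unfold dsum
    rw [Finset.sum_image (fun a _ b _ h => hinj h)]
  calc dsum c s n Q ≤ ∑ q ∈ Q, (C₀ * C₀ * fr c k x) ^ s * fr c (n - k) (S.g^[k] q) ^ s :=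
        Finset.sum_le_sum hterm
    _ = (C₀ * C₀ * fr c k x) ^ s * dsum c s (n - k) (Q.image (fun q => S.g^[k] q)) := by
        rw [himg, Finset.mul_sum]
    _ ≤ (C₀ * C₀ * fr c k x) ^ s * (C₁ * Af c s (n - k)) :=
        mul_le_mul_of_nonneg_left (hle _ _ _ hd) (by positivity)
    _ = (C₀ * C₀) ^ s * C₁ * fr c k x ^ s * Af c s (n - k) := by
        rw [Real.mul_rpow (by positivity) hfrx.le]
        ring

end Pool.Agent.H779R2.Mo
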