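import Pool.Agent.H779R2.Mo.MQd

set_option autoImplicit false

namespace Pool.Agent.H779R2.Mo

open Pool.Agent.H721R2 Pool.Agent.H779R2.An Filter Topology MeasureTheory
open scoped BigOperators

variable {X E : Type*} [MetricSpace X] [CompactSpace X] [NormedAddCommGroup E]
  [InnerProductSpace ℝ E] [FiniteDimensional ℝ E]

/-- W19: the nonlinearity vanishes. -/
theorem th_zero {S : HypSys X E} {c : CF S} (T : TH c) (h : QdLoc T)
    (hper : ∀ (x : X) (ε : ℝ), 0 < ε → ∃ (y : X) (N : ℕ), 1 ≤ N ∧ S.g^[N] y = y ∧ dist y x < ε)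
    (hz : ∃ ε > 0, ∀ (p : X) (N : ℕ), 1 ≤ N → S.g^[N] p = p → ∀ y, S.SRel ε p y →
      T.th p y = 0) : ∃ ε > 0, ∀ x y, S.SRel ε x y → T.th x y = 0 := by
  obtain ⟨ε₁, hε₁, -, hq⟩ := h
  obtain ⟨ε₂, hε₂, hz⟩ := hz
  have hε₀ : 0 < c.ε₀ := c.geo.pos
  obtain ⟨εd, hεd, hcor⟩ := exists_corner S (min ε₁ (min (ε₂ / 2) c.ε₀))
    (lt_min hε₁ (lt_min (by positivity) hε₀))
  obtain ⟨εb, hεb, hbr⟩ := exists_bracket S (min (min ε₁ (min (ε₂ / 2) c.ε₀)) εd)
    (lt_min (lt_min hε₁ (lt_min (by positivity) hε₀)) hεd)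
  refine ⟨min ε₁ εd, lt_min hε₁ hεd, fun x y hxy => ?_⟩
  obtain ⟨p, N, hN, hpN, hpx⟩ := hper x εb hεb
  obtain ⟨x', hpx', hx'x⟩ := hbr p x hpx.le
  have hxx' := hx'x.symm
  obtain ⟨y', hyy', hx'y'⟩ := hcor x y x' (hxy.mono (min_le_right _ _))
    (hxx'.mono (min_le_right _ _))
  have e1 : min (min ε₁ (min (ε₂ / 2) c.ε₀)) εd ≤ ε₁ := (min_le_left _ _).trans (min_le_left _ _)
  have e2 : min (min ε₁ (min (ε₂ / 2) c.ε₀)) εd ≤ ε₂ / 2 :=
    (min_le_left _ _).trans ((min_le_right _ _).trans (min_le_left _ _))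
  have e3 : min (min ε₁ (min (ε₂ / 2) c.ε₀)) εd ≤ c.ε₀ :=
    (min_le_left _ _).trans ((min_le_right _ _).trans (min_le_right _ _))
  have e4 : min ε₁ (min (ε₂ / 2) c.ε₀) ≤ ε₂ / 2 := (min_le_right _ _).trans (min_le_left _ _)
  have e5 : min ε₁ (min (ε₂ / 2) c.ε₀) ≤ c.ε₀ := (min_le_right _ _).trans (min_le_right _ _)
  have Q := hq x y x' y' (hxy.mono (min_le_left _ _)) (hxx'.mono e1)
    (hx'y'.mono (min_le_left _ _)) (hyy'.mono (min_le_left _ _))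
  have hpx2 : S.SRel ε₂ p x' := hpx'.mono (by linarith)
  have hpy2 : S.SRel ε₂ p y' := by
    have := (hpx'.mono e2).trans (hx'y'.mono e4)
    refine this.mono ?_
    linarith
  have ha1 : SAsym S p x' := c.geo.sasym _ _ (hpx'.mono e3)
  have ha2 : SAsym S x' y' := c.geo.sasym _ _ (hx'y'.mono e5)
  have hc := T.th_comp p x' y' ha1 ha2
  rw [hz p N hN hpN y' hpy2, hz p N hN hpN x' hpx2, zero_add] at hc
  have heta : c.eta p x' ≠ 0 := by
    intro h0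
    have := c.eta_comp p x' p ha1 ha1.symm
    rw [h0, mul_zero, c.eta_self] at this
    exact zero_ne_one this
  have h0 : T.th x' y' = 0 := by
    rcases mul_eq_zero.mp hc.symm with h1 | h1
    · exact absurd h1 heta
    · exact h1
  have hfin := Q.th_eq
  rw [h0, zero_mul, zero_mul] at hfin
  exact hfin.symm

end Pool.Agent.H779R2.Mo
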