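import Pool.Agent.H779R2.An.CAssembly
import Pool.Agent.H779R2.An.LCov
import Pool.Agent.H779R2.An.Periodic
import Pool.Agent.H779R2.Mo.MArc0
import Pool.Agent.H779R2.Mo.MNear
import Pool.Agent.H779R2.Mo.MArc
import Pool.Agent.H779R2.Mo.MChain
import Pool.Agent.H779R2.Mo.MMob
import Pool.Agent.H779R2.Mo.MTrack
import Pool.Agent.H779R2.Mo.MUp
import Pool.Agent.H779R2.Mo.MLow
import Pool.Agent.H779R2.Mo.MPer
import Pool.Agent.H779R2.Mo.MZero
import Pool.Agent.H779R2.Mo.MLink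

set_option autoImplicit false

namespace Pool.Agent.H779R2.Mo

open Pool.Agent.H721R2 Pool.Agent.H779R2.An Filter Topology MeasureTheory
open scoped BigOperators

variable {X E : Type*} [MetricSpace X] [CompactSpace X] [NormedAddCommGroup E]
  [InnerProductSpace ℝ E] [FiniteDimensional ℝ E]

open Pool.Agent.H789R2.GP Pool.Agent.H789R2.AN

omit [CompactSpace X] [FiniteDimensional ℝ E] in
theorem af_pos {S : HypSys X E} (c : CF S) (s : ℝ) [Nonempty X] (n : ℕ)
    (hb : BddAbove {t | ∃ x Q, DSep c n x 1 1 Q ∧ t = dsum c s n Q}) : 0 < Af c s n := by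
  obtain ⟨x⟩ := ‹Nonempty X›
  have h1 : DSep c n x 1 1 {x} := by
    refine ⟨fun q hq => ?_, fun q hq q' hq' hne => ?_⟩
    · rw [Finset.mem_singleton] at hq
      subst hq
      exact ⟨UAsym.refl S q, by rw [c.lc_self]; simp⟩
    · rw [Finset.mem_singleton] at hq hq'
      exact absurd (hq.trans hq'.symm) hne
  have h2 : dsum c s n {x} ≤ Af c s n := le_csSup hb ⟨x, {x}, h1, rfl⟩
  have h3 : 0 < dsum c s n {x} := by
    unfold dsum
    rw [Finset.sum_singleton]
    exact Real.rpow_pos_of_pos (inv_pos.mpr (c.Lp_norm_pos n x)) s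
  linarith

/-- The quadrilateral structure in the conformal case: `dim Eu = 2` with an invariant complex
structure, `dim Es ≥ 2`. -/
theorem exists_qs_conf [PreconnectedSpace X] [Nonempty X] (S : HypSys X E) {Q r : ℝ}
    (hQ : Quad S Q r)
    (J₀ : CJ0 S) (d : ℕ) (hd : 2 ≤ d)
    (hfu : ∀ x, Module.finrank ℝ (S.Vu x) = 2) (hfs : ∀ x, Module.finrank ℝ (S.Vs x) = d) :
    ∃ (F : Flat S) (_ : CJ F) (c : ℝ) (T : QS S.g c), 0 < c ∧
      ∀ a s u x, T.Q a s u x ↔ QdF F a s u x := by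
  obtain ⟨K, hK⟩ := qc_of_cj0 J₀ hfu
  have hflat : Nonempty (Flat S) := by
    obtain ⟨Lc, a1, a2, a3⟩ := hasLc S hQ hK
    obtain ⟨τ, b1, b2, b3⟩ := hasTau S hQ hK
    obtain ⟨H, c1, c2, c3⟩ := hasHol S hQ hK
    obtain ⟨L⟩ := exists_lin1 (S := S) ⟨K, hK, Lc, a1, a2, a3, τ, b1, b2, b3, H, c1, c2, c3⟩
    exact exists_flat L
  have hunit : Nonempty (UV S) := by
    have : ∀ x, ∃ b ∈ S.Vu x, ‖b‖ = 1 := by
      intro x
      have hpos : 0 < Module.finrank ℝ (S.Vu x) := by rw [hfu]; norm_num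
      have : Nontrivial (S.Vu x) := Module.finrank_pos_iff.mp hpos
      obtain ⟨v, hv⟩ := exists_ne (0 : S.Vu x)
      have hv' : ‖(v : E)‖ ≠ 0 := by
        rw [norm_ne_zero_iff]
        exact fun h => hv (Subtype.ext h)
      refine ⟨‖(v : E)‖⁻¹ • (v : E), Submodule.smul_mem _ _ v.2, ?_⟩
      rw [norm_smul, norm_inv, norm_norm, inv_mul_cancel₀ hv']
    choose b hb1 hb2 using this
    exact ⟨⟨b, hb1, hb2⟩⟩
  have htrans := abstract_main2 S hQ J₀ d hd hfu hfs
  obtain ⟨F⟩ := hflat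
  obtain ⟨B⟩ := hunit
  obtain ⟨J, hJJ⟩ := exists_cj' F J₀
  have hJD : ∀ x, ∀ v ∈ S.Vu x, S.D x (J.J x v) = J.J (S.g x) (S.D x v) := by
    intro x v hv
    rw [hJJ]
    exact J₀.J_D x v hv
  have hCD := cd F
  have hQE := qe F J hCD
  obtain ⟨c, hc, ξ, hξ1, hξ2⟩ := exists_cf2 F J hJD hCD hfu
  obtain ⟨T⟩ := exists_th c (hol_prop c)
  have hlev := lev_prop T
  have hchart := chart_prop S d hfs
  have hseg := seg_of_chart hchart
  have hsum := sum_bdd F B hQE 2 hfu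
  obtain ⟨s₀, hs₀, harc⟩ := arc_prop c d hd hchart (arc_choice d hd) (sum_near c B (hc B) hsum)
    (back_lip S)
  have hmob := mob_univ T hlev (chain_of_arc c (harc 2 hs₀ le_rfl))
  have hqd := qd_loc T hmob
  have htrack := track_u T hlev hqd
  obtain ⟨s, hs1, hs2⟩ := exists_between (max_lt hs₀ (by norm_num : (1 : ℝ) < 2))
  have hs0 : 0 < s := by linarith [le_max_right s₀ 1]
  have hsp := small_path T hlev s hs0 (harc s (lt_of_le_of_lt (le_max_left _ _) hs1) hs2.le)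
  have hlow := dlow c s hs0 hs2.le htrans (dtrans T hqd s hs0)
  have hgr := af_growth c s hs0 hs2.le hlow
  have hz := th_periodic T s hs0 hs2 hsp htrack (fun n => af_pos c s n (af_bdd c s hs0 hs2.le n))
    (fun ρ hρ θ hθ => dsum_small c s hs0 hs2.le ρ θ hρ hθ) hlow hgr
  have hz' := th_zero T hqd (fun x ε hε => periodic_dense S htrans x ε hε) hz
  have hlin := lin_of_th F T hmob hz' ξ hξ1 hξ2
  have hcomm := comm_loc F hlin
  have hglob := quad_glob F hlin hcomm hseg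
  obtain ⟨c', hc', T', hT'⟩ := exists_qs F hlin hcomm hglob
  exact ⟨F, J, c', T', hc', hT'⟩

end Pool.Agent.H779R2.Mo
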