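import Pool.Agent.H779R2.Mo.MDef

set_option autoImplicit false

namespace Pool.Agent.H779R2.Mo

open Pool.Agent.H721R2 Pool.Agent.H779R2.An Filter Topology MeasureTheory
open scoped BigOperators

variable {X E : Type*} [MetricSpace X] [CompactSpace X] [NormedAddCommGroup E]
  [InnerProductSpace ℝ E] [FiniteDimensional ℝ E]

/-- W2: sums over small stable discs. -/
theorem sum_near {S : HypSys X E} (c : CF S) (B : UV S)
    (hcw : ∃ C : ℝ, 0 < C ∧ ∀ k y, c.cw k y ≤ C * om S B k y) (hsum : SumB S B 2) :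
    ∀ κ > 0, ∃ ρ > 0, ∃ C : ℝ, 0 < C ∧ ∀ (j k : ℕ) (x : X) (A : Finset X), j ≤ k →
      (∀ e ∈ A, S.SRel ρ (S.g.symm^[j] x) (S.g.symm^[j] e)) →
      (∀ e ∈ A, ∀ e' ∈ A, e ≠ e' → ¬ S.SRel κ (S.g.symm^[k] e) (S.g.symm^[k] e')) →
      ∑ e ∈ A, c.cw k e ^ 2 ≤ C * c.cw j x ^ 2 := by
  sorry

end Pool.Agent.H779R2.Mo
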