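import Pool.Agent.H779R2.Mo.MDef

set_option autoImplicit false

namespace Pool.Agent.H779R2.Mo

open Pool.Agent.H721R2 Pool.Agent.H779R2.An Filter Topology MeasureTheory
open scoped BigOperators

variable {X E : Type*} [MetricSpace X] [CompactSpace X] [NormedAddCommGroup E]
  [InnerProductSpace ℝ E] [FiniteDimensional ℝ E]

omit [CompactSpace X] [FiniteDimensional ℝ E] in
private theorem back_lip_one (S : HypSys X E) : ∃ r > 0, ∀ x y : X, dist x y < r →
    dist (S.g.symm x) (S.g.symm y) ≤ (2 + 2 * (S.K * S.Ls)) * dist x y := by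
  obtain ⟨r, hr, h⟩ := S.A1' 1 one_pos
  refine ⟨r, hr, fun x y hxy => ?_⟩
  obtain ⟨s, hs, u, hu, h1, h2⟩ := h x y hxy
  rw [one_mul] at h1 h2
  have hK := S.one_le_K
  have hL := S.one_le_Ls
  have hd : 0 ≤ dist x y := dist_nonneg
  have hsu : ‖s + u‖ ≤ 2 * dist x y := by
    have e1 : s + u = (S.e y - S.e x) - (S.e y - S.e x - (s + u)) := by abel
    rw [e1]
    refine (norm_sub_le _ _).trans ?_
    have : ‖S.e y - S.e x‖ = dist x y := by rw [dist_comm, S.isom]
    linarith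
  obtain ⟨a1, a2⟩ := S.angle x s hs u hu
  have n1 : ‖s‖ ≤ S.K * (2 * dist x y) :=
    a1.trans (mul_le_mul_of_nonneg_left hsu (by linarith))
  have n2 : ‖u‖ ≤ S.K * (2 * dist x y) :=
    a2.trans (mul_le_mul_of_nonneg_left hsu (by linarith))
  have m1 : ‖S.D' x s‖ ≤ S.Ls * (S.K * (2 * dist x y)) :=
    (S.boundS x s hs).trans (mul_le_mul_of_nonneg_left n1 (by linarith))
  have m2 : ‖S.D' x u‖ ≤ S.b * (S.K * (2 * dist x y)) :=
    (S.contrU x u hu).trans (mul_le_mul_of_nonneg_left n2 S.b_nonneg)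
  have m3 : S.b * (S.K * (2 * dist x y)) ≤ 1 / 8 * dist x y := by
    have := mul_le_mul_of_nonneg_right S.Kb (by positivity : 0 ≤ 2 * dist x y)
    calc S.b * (S.K * (2 * dist x y)) = S.K * S.b * (2 * dist x y) := by ring
      _ ≤ 1 / 16 * (2 * dist x y) := this
      _ = _ := by ring
  have m4 : ‖S.D' x (s + u)‖ ≤ S.Ls * (S.K * (2 * dist x y)) + 1 / 8 * dist x y := by
    rw [map_add]
    exact (norm_add_le _ _).trans (add_le_add m1 (m2.trans m3))
  calc dist (S.g.symm x) (S.g.symm y) = ‖S.e (S.g.symm y) - S.e (S.g.symm x)‖ := by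
        rw [dist_comm, S.isom]
    _ = ‖(S.e (S.g.symm y) - S.e (S.g.symm x) - S.D' x (s + u)) + S.D' x (s + u)‖ := by
        rw [sub_add_cancel]
    _ ≤ dist x y + (S.Ls * (S.K * (2 * dist x y)) + 1 / 8 * dist x y) :=
        (norm_add_le _ _).trans (add_le_add h2 m4)
    _ ≤ (2 + 2 * (S.K * S.Ls)) * dist x y := by nlinarith

/-- W3: backward Lipschitz estimate along stable plaques. -/
theorem back_lip (S : HypSys X E) : ∃ L : ℝ, 1 ≤ L ∧ ∀ ρ > 0, ∃ r > 0, ∀ (j : ℕ) (x e : X),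
    S.SRel r x e → dist x e ≤ r * (L⁻¹) ^ j → S.SRel ρ (S.g.symm^[j] x) (S.g.symm^[j] e) := by
  obtain ⟨r₁, hr₁, hL⟩ := back_lip_one S
  set L : ℝ := 2 + 2 * (S.K * S.Ls) with hLdef
  have hKL : 0 < S.K * S.Ls := mul_pos (by linarith [S.one_le_K]) (by linarith [S.one_le_Ls])
  have hL1 : 1 ≤ L := by rw [hLdef]; linarith
  have hL0 : 0 < L := by linarith
  refine ⟨L, hL1, fun ρ hρ => ⟨min ρ (r₁ / 2), lt_min hρ (by linarith), ?_⟩⟩
  intro j x e hxe hd
  set r : ℝ := min ρ (r₁ / 2) with hr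
  have hr0 : 0 < r := lt_min hρ (by linarith)
  have hrρ : r ≤ ρ := min_le_left _ _
  have hrr : r < r₁ := lt_of_le_of_lt (min_le_right _ _) (by linarith)
  have key : ∀ i ≤ j, dist (S.g.symm^[i] x) (S.g.symm^[i] e) ≤ r * (L⁻¹) ^ (j - i) := by
    intro i
    induction i with
    | zero => intro _; simpa using hd
    | succ i ih =>
      intro hi
      have h1 := ih (by omega)
      have h2 : r * (L⁻¹) ^ (j - i) ≤ r := by
        have : (L⁻¹) ^ (j - i) ≤ 1 := pow_le_one₀ (by positivity) (inv_le_one_of_one_le₀ hL1)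
        nlinarith
      rw [Function.iterate_succ_apply', Function.iterate_succ_apply']
      refine (hL _ _ (lt_of_le_of_lt (h1.trans h2) hrr)).trans ?_
      calc L * dist (S.g.symm^[i] x) (S.g.symm^[i] e) ≤ L * (r * (L⁻¹) ^ (j - i)) :=
            mul_le_mul_of_nonneg_left h1 hL0.le
        _ = r * (L⁻¹) ^ (j - (i + 1)) := by
            have : j - i = (j - (i + 1)) + 1 := by omega
            rw [this, pow_succ]
            field_simp
  refine SRel_back j (hxe.mono hrρ) fun i hi => (key i hi).trans (le_trans ?_ hrρ)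
  have : (L⁻¹) ^ (j - i) ≤ 1 := pow_le_one₀ (by positivity) (inv_le_one_of_one_le₀ hL1)
  nlinarith

end Pool.Agent.H779R2.Mo
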