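import Pool.Agent.H779R2.Mo.MDef

set_option autoImplicit false

namespace Pool.Agent.H779R2.Mo

open Pool.Agent.H721R2 Pool.Agent.H779R2.An Filter Topology MeasureTheory
open scoped BigOperators

variable {X E : Type*} [MetricSpace X] [CompactSpace X] [NormedAddCommGroup E]
  [InnerProductSpace ℝ E] [FiniteDimensional ℝ E]

/-- W18a: surjectivity of the linearizing coordinate on the whole unstable leaf. -/
theorem surj_all {S : HypSys X E} (c : CF S) (x : X) (u : ℂ) : ∃ y, UAsym S x y ∧ c.lc x y = u := by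
  obtain ⟨ρ, hρ, hs⟩ := c.surj c.ε₀ c.geo.pos
  obtain ⟨m, hm⟩ := pow_unbounded_of_one_lt (‖u‖ / ρ) (by norm_num : (1 : ℝ) < 16)
  have hx : S.g^[m] (S.g.symm^[m] x) = x :=
    Function.LeftInverse.iterate
      (show Function.LeftInverse S.g S.g.symm from S.g.apply_symm_apply) m x
  set x' := S.g.symm^[m] x with hx'
  have hL := c.Lp_ge m x'
  have hLp := c.Lp_norm_pos m x'
  have hv : ‖u / c.Lp m x'‖ ≤ ρ := by
    rw [norm_div, div_le_iff₀ hLp]
    rw [div_lt_iff₀ hρ] at hm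
    nlinarith
  obtain ⟨z, hz, hzl⟩ := hs x' _ hv
  have hza := c.geo.uasym x' z hz
  refine ⟨S.g^[m] z, ?_, ?_⟩
  · have := hza.iter m
    rwa [hx] at this
  · have := c.lc_iter hza m
    rw [hx, hzl, mul_div_cancel₀ _ (c.Lp_ne_zero m x')] at this
    exact this

/-- W18a: a time at which the disc at `x` has a given size. -/
theorem pick_k {S : HypSys X E} (c : CF S) (x : X) (t : ℝ) (ht : 0 < t) (ht1 : t ≤ 1) :
    ∃ k : ℕ, t ≤ fr c k x ∧ fr c k x ≤ c.M * t := by
  classical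
  have hex : ∃ n, fr c n x < t := by
    obtain ⟨m, hm⟩ := pow_unbounded_of_one_lt t⁻¹ (by norm_num : (1 : ℝ) < 16)
    refine ⟨m, ?_⟩
    unfold fr
    have hL := c.Lp_ge m x
    rw [inv_lt_comm₀ (c.Lp_norm_pos m x) ht]
    linarith
  have h0 : fr c 0 x = 1 := by simp [fr, c.Lp_zero]
  have hn0 : Nat.find hex ≠ 0 := by
    intro h
    have := Nat.find_spec hex
    rw [h, h0] at this
    linarith
  obtain ⟨k, hk⟩ := Nat.exists_eq_succ_of_ne_zero hn0
  have h1 : t ≤ fr c k x := by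
    by_contra hcon
    push Not at hcon
    have := Nat.find_min' hex hcon
    omega
  have h2 : fr c (k + 1) x < t := by
    have := Nat.find_spec hex
    rwa [hk] at this
  refine ⟨k, h1, ?_⟩
  have h3 : fr c k x = ‖c.lam (S.g^[k] x)‖ * fr c (k + 1) x := by
    unfold fr
    rw [c.Lp_succ, norm_mul, mul_inv, ← mul_assoc,
      mul_inv_cancel₀ (norm_ne_zero_iff.mpr (c.lam_ne_zero _)), one_mul]
  rw [h3]
  have h4 : 0 ≤ fr c (k + 1) x := by
    unfold fr; positivity
  calc ‖c.lam (S.g^[k] x)‖ * fr c (k + 1) x ≤ c.M * fr c (k + 1) x :=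
        mul_le_mul_of_nonneg_right (c.lam_le _) h4
    _ ≤ c.M * t := mul_le_mul_of_nonneg_left h2.le (le_trans zero_le_one c.one_le_M)

/-- W18a: separation in terms of flat radii. -/
theorem lc_sep {S : HypSys X E} (c : CF S) {p q q' : X} (h : UAsym S p q) (h' : UAsym S p q')
    (n : ℕ) : ‖c.lc (S.g^[n] q) (S.g^[n] q')‖ * (fr c n q / ‖c.tau p q‖) =
      ‖c.lc p q - c.lc p q'‖ := by
  have h1 := c.lc_iter (h.symm.trans h') n
  have h2 := c.base p q q' h h'
  have h3 := (c.Lp_norm_pos n q).ne'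
  have h4 : ‖c.tau p q‖ ≠ 0 := norm_ne_zero_iff.mpr (c.tau_ne_zero h)
  rw [h1, h2, norm_mul, norm_mul, fr, norm_sub_rev (c.lc p q')]
  field_simp

/-- W18a: flat radii and iteration. -/
theorem flat_iter {S : HypSys X E} (c : CF S) {p q : X} (h : UAsym S p q) (m n : ℕ) :
    fr c n (S.g^[m] q) / ‖c.tau (S.g^[m] p) (S.g^[m] q)‖ =
      ‖c.Lp m p‖ * (fr c (n + m) q / ‖c.tau p q‖) := by
  have h1 : c.Lp (n + m) q = c.Lp n (S.g^[m] q) * c.Lp m q := by
    induction n with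
    | zero => simp [c.Lp_zero]
    | succ n ih =>
      have e : n + 1 + m = (n + m) + 1 := by omega
      rw [e, c.Lp_succ, c.Lp_succ, ih, Function.iterate_add_apply, mul_assoc]
  have h2 := congrArg norm (c.tau_iter h m)
  rw [norm_mul, norm_mul] at h2
  have h3 := (c.Lp_norm_pos n (S.g^[m] q)).ne'
  have h4 : ‖c.tau p q‖ ≠ 0 := norm_ne_zero_iff.mpr (c.tau_ne_zero h)
  have h5 := (c.Lp_norm_pos m q).ne'
  have h6 := (c.Lp_norm_pos m p).ne'
  have h7 : ‖c.tau (S.g^[m] p) (S.g^[m] q)‖ ≠ 0 :=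
    norm_ne_zero_iff.mpr (c.tau_ne_zero (h.iter m))
  unfold fr
  rw [h1, norm_mul, mul_inv]
  field_simp
  linear_combination -h2

end Pool.Agent.H779R2.Mo
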