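import Pool.Agent.H779R2.Mo.MPer0

set_option autoImplicit false

namespace Pool.Agent.H779R2.Mo

open Pool.Agent.H721R2 Pool.Agent.H779R2.An Filter Topology MeasureTheory
open scoped BigOperators

variable {X E : Type*} [MetricSpace X] [CompactSpace X] [NormedAddCommGroup E]
  [InnerProductSpace ℝ E] [FiniteDimensional ℝ E]

/-- W18b: many separated points in a large annulus around a periodic point. -/
theorem ann_sum {S : HypSys X E} (c : CF S) (s : ℝ) (hs : 0 < s) (hs2 : s < 2)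
    (hlow : ∀ ρ > 0, ∃ a > 0, ∀ (n : ℕ) (x : X), ∃ Q, DSep c n x ρ 1 Q ∧
      a * Af c s n ≤ dsum c s n Q)
    (hgr : ∃ a > 0, ∀ n k : ℕ, a * ((16 : ℝ) ^ k) ^ (2 - s) * Af c s n ≤ Af c s (n + k))
    (p : X) (N : ℕ) (hp : S.g^[N] p = p) :
    ∃ a > 0, ∀ j n : ℕ, ∃ Q : Finset X,
      (∀ q ∈ Q, UAsym S p q ∧ 2 * ‖c.Lp (N * j) p‖ ≤ ‖c.lc p q‖ ∧
        ‖c.lc p q‖ ≤ 4 * ‖c.Lp (N * j) p‖) ∧
      (∀ q ∈ Q, ∀ q' ∈ Q, q ≠ q' → 1 ≤ ‖c.lc (S.g^[n] q) (S.g^[n] q')‖) ∧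
      a * ‖c.Lp (N * j) p‖ ^ s * ((16 : ℝ) ^ (N * j)) ^ (2 - s) * Af c s n ≤
        ∑ q ∈ Q, (fr c n q / ‖c.tau p q‖) ^ s := by
  classical
  obtain ⟨q₀, hq₀, hlc⟩ := surj_all c p 3
  have hτ : 0 < ‖c.tau p q₀‖ := norm_pos_iff.2 (c.tau_ne_zero hq₀)
  obtain ⟨a₁, ha₁, hlow⟩ := hlow _ hτ
  obtain ⟨a', ha', hgr⟩ := hgr
  obtain ⟨C₀, hC₀, htau⟩ := tau_bound c 4
  have hC₀' : 0 < C₀ := by linarith
  have hann : ∀ q, UAsym S q₀ q → ‖c.lc q₀ q‖ ≤ ‖c.tau p q₀‖ →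
      2 ≤ ‖c.lc p q‖ ∧ ‖c.lc p q‖ ≤ 4 := by
    intro q h h'
    have h1 := c.base p q₀ q hq₀ (hq₀.trans h)
    rw [h1, hlc, norm_mul] at h'
    have h2 : ‖c.lc p q - 3‖ ≤ 1 := by
      by_contra hcon
      push Not at hcon
      nlinarith
    have h3 : ‖c.lc p q‖ ≤ ‖c.lc p q - 3‖ + ‖(3 : ℂ)‖ := by
      have := norm_add_le (c.lc p q - 3) 3
      rwa [sub_add_cancel] at this
    have h4 : ‖(3 : ℂ)‖ ≤ ‖c.lc p q - 3‖ + ‖c.lc p q‖ := by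
      have := norm_sub_le (c.lc p q) (c.lc p q - 3)
      rw [sub_sub_cancel] at this
      linarith
    have h5 : ‖(3 : ℂ)‖ = 3 := by norm_num
    rw [h5] at h3 h4
    constructor <;> linarith
  refine ⟨(C₀⁻¹) ^ s * a₁ * a', by positivity, fun j n => ?_⟩
  set m := N * j with hm
  have hpm : S.g^[m] p = p := by
    rw [hm, Function.iterate_mul]
    exact Function.iterate_fixed hp j
  have hL : 0 < ‖c.Lp m p‖ := c.Lp_norm_pos m p
  obtain ⟨Q₀, hQ₀, hsum⟩ := hlow (n + m) q₀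
  have hinj : Function.Injective (S.g^[m]) := S.g.injective.iterate m
  have hmem : ∀ q ∈ Q₀, UAsym S p q ∧ 2 ≤ ‖c.lc p q‖ ∧ ‖c.lc p q‖ ≤ 4 := by
    intro q hq
    obtain ⟨h1, h2⟩ := hQ₀.mem q hq
    exact ⟨hq₀.trans h1, hann q h1 h2⟩
  refine ⟨Q₀.image (S.g^[m]), ?_, ?_, ?_⟩
  · intro q hq
    obtain ⟨q', hq', rfl⟩ := Finset.mem_image.1 hq
    obtain ⟨h1, h2, h3⟩ := hmem q' hq'
    have h4 := h1.iter m
    rw [hpm] at h4
    have h5 := c.lc_iter h1 m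
    rw [hpm] at h5
    refine ⟨h4, ?_, ?_⟩
    · rw [h5, norm_mul, mul_comm]
      exact mul_le_mul_of_nonneg_left h2 hL.le
    · rw [h5, norm_mul, mul_comm]
      exact mul_le_mul_of_nonneg_right h3 hL.le
  · intro q1 hq1 q2 hq2 hne
    obtain ⟨q1', hq1', rfl⟩ := Finset.mem_image.1 hq1
    obtain ⟨q2', hq2', rfl⟩ := Finset.mem_image.1 hq2
    have hne' : q1' ≠ q2' := fun h => hne (by rw [h])
    rw [← Function.iterate_add_apply, ← Function.iterate_add_apply]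
    exact hQ₀.sep _ hq1' _ hq2' hne'
  · rw [Finset.sum_image (fun x _ y _ h => hinj h)]
    have h1 : ∀ q ∈ Q₀, ‖c.Lp m p‖ ^ s * ((C₀⁻¹) ^ s * fr c (n + m) q ^ s) ≤
        (fr c n (S.g^[m] q) / ‖c.tau p (S.g^[m] q)‖) ^ s := by
      intro q hq
      obtain ⟨h1, h2, h3⟩ := hmem q hq
      have h4 := flat_iter c h1 m n
      rw [hpm] at h4
      rw [h4]
      have hfr : 0 ≤ fr c (n + m) q := inv_nonneg.2 (norm_nonneg _)
      have hτq : 0 < ‖c.tau p q‖ := norm_pos_iff.2 (c.tau_ne_zero h1)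
      have h5 : C₀⁻¹ * fr c (n + m) q ≤ fr c (n + m) q / ‖c.tau p q‖ := by
        rw [div_eq_mul_inv, mul_comm]
        exact mul_le_mul_of_nonneg_left (inv_anti₀ hτq (htau p q h1 h3).1) hfr
      rw [Real.mul_rpow hL.le (by positivity), ← Real.mul_rpow (by positivity) hfr]
      exact mul_le_mul_of_nonneg_left (Real.rpow_le_rpow (by positivity) h5 hs.le)
        (by positivity)
    have h2 : ∑ q ∈ Q₀, ‖c.Lp m p‖ ^ s * ((C₀⁻¹) ^ s * fr c (n + m) q ^ s) =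
        ‖c.Lp m p‖ ^ s * ((C₀⁻¹) ^ s * dsum c s (n + m) Q₀) := by
      unfold dsum
      rw [Finset.mul_sum, Finset.mul_sum]
    refine le_trans ?_ (Finset.sum_le_sum h1)
    rw [h2]
    have h3 := hgr n m
    have h4 : a₁ * (a' * ((16 : ℝ) ^ m) ^ (2 - s) * Af c s n) ≤ dsum c s (n + m) Q₀ :=
      (mul_le_mul_of_nonneg_left h3 ha₁.le).trans hsum
    calc (C₀⁻¹) ^ s * a₁ * a' * ‖c.Lp m p‖ ^ s * ((16 : ℝ) ^ m) ^ (2 - s) * Af c s n
        = ‖c.Lp m p‖ ^ s * ((C₀⁻¹) ^ s * (a₁ * (a' * ((16 : ℝ) ^ m) ^ (2 - s) * Af c s n))) := by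
          ring
      _ ≤ _ := by
          apply mul_le_mul_of_nonneg_left _ (by positivity)
          exact mul_le_mul_of_nonneg_left h4 (by positivity)

end Pool.Agent.H779R2.Mo
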