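import Pool.Agent.H779R2.Mo.MDef
import Pool.Agent.H779R2.An.CMob2

set_option autoImplicit false

namespace Pool.Agent.H779R2.Mo

open Pool.Agent.H721R2 Pool.Agent.H779R2.An Filter Topology MeasureTheory
open scoped BigOperators

variable {X E : Type*} [MetricSpace X] [CompactSpace X] [NormedAddCommGroup E]
  [InnerProductSpace ℝ E] [FiniteDimensional ℝ E]

/-- composition of denominators -/
private theorem qdm_den {η θ θ' u m : ℂ} (h : 1 - θ * u ≠ 0) (hm : m = mob η θ u) :
    1 - (θ + η * θ') * u = (1 - θ * u) * (1 - θ' * m) := by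
  have e : m * (1 - θ * u) = η * u := by
    rw [hm, mob, div_mul_cancel₀ _ h]
  linear_combination θ' * e

/-- W9: composition of Moebius quadrilaterals in the stable direction. -/
theorem QdM.comp {S : HypSys X E} {c : CF S} {T : TH c} {v w w' x x' x'' : X}
    (h : QdM T v w x x') (h' : QdM T w w' x' x'') : QdM T v w' x x'' := by
  have hth : T.th v w' = T.th v w + c.eta v w * T.th w w' := T.th_comp _ _ _ h.vw h'.vw
  have hthx : T.th x x'' = T.th x x' + c.eta x x' * T.th x' x'' := T.th_comp _ _ _ h.xx h'.xx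
  have hev : c.eta w w' * c.eta v w = c.eta v w' := c.eta_comp _ _ _ h.vw h'.vw
  have hex : c.eta x' x'' * c.eta x x' = c.eta x x'' := c.eta_comp _ _ _ h.xx h'.xx
  have hden : 1 - T.th v w' * c.lc v x =
      (1 - T.th v w * c.lc v x) * (1 - T.th w w' * c.lc w x') := by
    rw [hth]
    exact qdm_den h.ne h.lc_eq
  have hcan : c.lc w x' * (1 - T.th v w * c.lc v x) = c.eta v w * c.lc v x := by
    rw [h.lc_eq, mob, div_mul_cancel₀ _ h.ne]
  refine ⟨h.vw.trans h'.vw, h.vx, h.xx.trans h'.xx, h'.wx, ?_, ?_, ?_, ?_⟩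
  · rw [hden]
    exact mul_ne_zero h.ne h'.ne
  · rw [h'.lc_eq, h.lc_eq, mob_mob _ _ _ _ _ h.ne, hev, hth]
  · rw [hden, ← hex, ← hev]
    linear_combination (c.eta x' x'' * (1 - T.th w w' * c.lc w x') ^ 2) * h.eta_eq +
      c.eta v w * h'.eta_eq
  · refine mul_right_cancel₀ h.ne ?_
    rw [hden, hthx, hth]
    linear_combination ((1 - T.th v w * c.lc v x) * (1 - T.th w w' * c.lc w x')) * h.th_eq +
      (T.th x' x'' * (1 - T.th w w' * c.lc w x')) * h.eta_eq + c.eta v w * h'.th_eq -
      (T.th v w * T.th w w') * hcan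

/-- W9: invariance of Moebius quadrilaterals. -/
theorem QdM.map_iff {S : HypSys X E} {c : CF S} {T : TH c} {v w x x' : X} (n : ℕ) :
    QdM T (S.g^[n] v) (S.g^[n] w) (S.g^[n] x) (S.g^[n] x') ↔ QdM T v w x x' := by
  have key : ∀ (hvw : SAsym S v w) (hvx : UAsym S v x) (hxx : SAsym S x x')
      (hwx : UAsym S w x'),
      QdM T (S.g^[n] v) (S.g^[n] w) (S.g^[n] x) (S.g^[n] x') ↔ QdM T v w x x' := by
    intro hvw hvx hxx hwx
    have a1 := c.lc_iter hvx n
    have a2 := c.lc_iter hwx n
    have a3 := c.tau_iter hvx n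
    have a4 := c.tau_iter hwx n
    have a5 := c.eta_iter hvw n
    have a6 := c.eta_iter hxx n
    have a7 := T.th_iter hvw n
    have a8 := T.th_iter hxx n
    have nv := c.Lp_ne_zero n v
    have nw := c.Lp_ne_zero n w
    have nx := c.Lp_ne_zero n x
    have nx' := c.Lp_ne_zero n x'
    have hden : 1 - T.th (S.g^[n] v) (S.g^[n] w) * c.lc (S.g^[n] v) (S.g^[n] x) =
        1 - T.th v w * c.lc v x := by
      rw [a1, ← a7]; ring
    have e1 : c.lc (S.g^[n] w) (S.g^[n] x') = mob (c.eta (S.g^[n] v) (S.g^[n] w))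
        (T.th (S.g^[n] v) (S.g^[n] w)) (c.lc (S.g^[n] v) (S.g^[n] x)) ↔
        c.lc w x' = mob (c.eta v w) (T.th v w) (c.lc v x) := by
      unfold mob
      rw [hden, a1, a2, ← mul_assoc, a5, mul_assoc, mul_div_assoc]
      exact mul_right_inj' nw
    have e2 : c.eta (S.g^[n] x) (S.g^[n] x') * c.tau (S.g^[n] v) (S.g^[n] x) *
        (1 - T.th v w * c.lc v x) ^ 2 =
        c.tau (S.g^[n] w) (S.g^[n] x') * c.eta (S.g^[n] v) (S.g^[n] w) ↔
        c.eta x x' * c.tau v x * (1 - T.th v w * c.lc v x) ^ 2 = c.tau w x' * c.eta v w := by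
      have b1 : c.eta (S.g^[n] x) (S.g^[n] x') * c.tau (S.g^[n] v) (S.g^[n] x) * c.Lp n v =
          c.Lp n x' * (c.eta x x' * c.tau v x) := by
        linear_combination c.eta (S.g^[n] x) (S.g^[n] x') * a3 + c.tau v x * a6
      have b2 : c.tau (S.g^[n] w) (S.g^[n] x') * c.eta (S.g^[n] v) (S.g^[n] w) * c.Lp n v =
          c.Lp n x' * (c.tau w x' * c.eta v w) := by
        linear_combination c.tau (S.g^[n] w) (S.g^[n] x') * a5 + c.eta v w * a4
      constructor
      · intro h
        refine mul_left_cancel₀ nx' ?_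
        linear_combination c.Lp n v * h - (1 - T.th v w * c.lc v x) ^ 2 * b1 + b2
      · intro h
        refine mul_right_cancel₀ nv ?_
        linear_combination c.Lp n x' * h + (1 - T.th v w * c.lc v x) ^ 2 * b1 - b2
    have e3 : T.th (S.g^[n] x) (S.g^[n] x') * c.tau (S.g^[n] v) (S.g^[n] x) *
        (1 - T.th v w * c.lc v x) = T.th (S.g^[n] v) (S.g^[n] w) ↔
        T.th x x' * c.tau v x * (1 - T.th v w * c.lc v x) = T.th v w := by
      have b1 : T.th (S.g^[n] x) (S.g^[n] x') * c.tau (S.g^[n] v) (S.g^[n] x) * c.Lp n v =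
          T.th x x' * c.tau v x := by
        linear_combination T.th (S.g^[n] x) (S.g^[n] x') * a3 + c.tau v x * a8
      constructor
      · intro h
        linear_combination c.Lp n v * h - (1 - T.th v w * c.lc v x) * b1 + a7
      · intro h
        refine mul_right_cancel₀ nv ?_
        linear_combination h + (1 - T.th v w * c.lc v x) * b1 - a7
    constructor
    · intro h
      have hn := h.ne
      have h1 := h.lc_eq
      have h2 := h.eta_eq
      have h3 := h.th_eq
      rw [hden] at hn h2 h3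
      exact ⟨hvw, hvx, hxx, hwx, hn, e1.1 h1, e2.1 h2, e3.1 h3⟩
    · intro h
      refine ⟨hvw.iter n, hvx.iter n, hxx.iter n, hwx.iter n, ?_, e1.2 h.lc_eq, ?_, ?_⟩
      · rw [hden]; exact h.ne
      · rw [hden]; exact e2.2 h.eta_eq
      · rw [hden]; exact e3.2 h.th_eq
  constructor
  · intro h
    exact (key (SAsym.of_iter n h.vw) (UAsym.of_iter n h.vx) (SAsym.of_iter n h.xx)
      (UAsym.of_iter n h.wx)).1 h
  · intro h
    exact (key h.vw h.vx h.xx h.wx).2 h

end Pool.Agent.H779R2.Mo
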