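import Pool.Agent.H779R2.Mo.MQdA
import Pool.Agent.H779R2.Mo.MQdB

set_option autoImplicit false
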