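import Pool.Agent.H779R2.Mo.MDef
import Pool.Agent.H779R2.An.CMob2

set_option autoImplicit false

namespace Pool.Agent.H779R2.Mo

open Pool.Agent.H721R2 Pool.Agent.H779R2.An Filter Topology MeasureTheory
open scoped BigOperators

namespace MQdAux

/-- an affine function that is quadratically small near `0` vanishes -/
theorem affine_small {a b : ℂ} {C ρ : ℝ} (hρ : 0 < ρ) (hC : 0 ≤ C)
    (h : ∀ t : ℝ, 0 < t → t ≤ ρ → ‖a + b * t‖ ≤ C * t ^ 2) : a = 0 ∧ b = 0 := by
  have h1 : ∀ t : ℝ, 0 < t → t ≤ ρ → ‖a‖ ≤ 2 * C * t ^ 2 := by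
    intro t ht htρ
    have h2 := h t ht htρ
    have h3 := h (t / 2) (by positivity) (by linarith)
    have h4 : a = 2 * (a + b * ((t / 2 : ℝ) : ℂ)) - (a + b * (t : ℂ)) := by
      push_cast
      ring
    calc ‖a‖ = ‖2 * (a + b * ((t / 2 : ℝ) : ℂ)) - (a + b * (t : ℂ))‖ := by rw [← h4]
      _ ≤ ‖2 * (a + b * ((t / 2 : ℝ) : ℂ))‖ + ‖a + b * (t : ℂ)‖ := norm_sub_le _ _
      _ = 2 * ‖a + b * ((t / 2 : ℝ) : ℂ)‖ + ‖a + b * (t : ℂ)‖ := by
        rw [norm_mul]; norm_num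
      _ ≤ 2 * (C * (t / 2) ^ 2) + C * t ^ 2 := by linarith
      _ ≤ _ := by nlinarith [sq_nonneg t]
  have ha : a = 0 := by
    by_contra hne
    have hpos : 0 < ‖a‖ := norm_pos_iff.2 hne
    have hlim : Tendsto (fun t : ℝ => 2 * C * t ^ 2) (𝓝[>] 0) (𝓝 0) := by
      have : Tendsto (fun t : ℝ => 2 * C * t ^ 2) (𝓝 0) (𝓝 (2 * C * 0 ^ 2)) :=
        (Continuous.tendsto (by fun_prop) 0)
      simpa using this.mono_left nhdsWithin_le_nhds
    have h2 : ‖a‖ ≤ 0 := by
      refine ge_of_tendsto hlim ?_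
      filter_upwards [Ioc_mem_nhdsGT hρ] with t ht
      exact h1 t ht.1 ht.2
    linarith
  refine ⟨ha, ?_⟩
  by_contra hne
  have hpos : 0 < ‖b‖ := norm_pos_iff.2 hne
  have hlim : Tendsto (fun t : ℝ => C * t) (𝓝[>] 0) (𝓝 0) := by
    have : Tendsto (fun t : ℝ => C * t) (𝓝 0) (𝓝 (C * 0)) :=
      (Continuous.tendsto (by fun_prop) 0)
    simpa using this.mono_left nhdsWithin_le_nhds
  have h2 : ‖b‖ ≤ 0 := by
    refine ge_of_tendsto hlim ?_
    filter_upwards [Ioc_mem_nhdsGT hρ] with t ht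
    have h3 := h t ht.1 ht.2
    rw [ha, zero_add, norm_mul, Complex.norm_real, Real.norm_of_nonneg ht.1.le] at h3
    have h4 : ‖b‖ * t ≤ (C * t) * t := by
      calc _ ≤ C * t ^ 2 := h3
        _ = _ := by ring
    exact le_of_mul_le_mul_right h4 ht.1
  linarith

/-- two Moebius maps with the same 2-jet at `0` coincide -/
theorem mob_jet {η₁ θ₁ η₂ θ₂ : ℂ} {C ρ : ℝ} (hρ : 0 < ρ) (hC : 0 ≤ C) (hη : η₂ ≠ 0)
    (h : ∀ a : ℂ, ‖a‖ ≤ ρ → ‖mob η₁ θ₁ a - mob η₂ θ₂ a‖ ≤ C * ‖a‖ ^ 3) :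
    η₁ = η₂ ∧ θ₁ = θ₂ := by
  set A : ℝ := 1 + ‖θ₁‖ with hA
  set B : ℝ := 1 + ‖θ₂‖ with hB
  have hA0 : 1 ≤ A := by rw [hA]; linarith [norm_nonneg θ₁]
  have hB0 : 1 ≤ B := by rw [hB]; linarith [norm_nonneg θ₂]
  set r : ℝ := min ρ (min (1 / (2 * A)) (1 / (2 * B))) with hr
  have hr0 : 0 < r := lt_min hρ (lt_min (by positivity) (by positivity))
  have hbound : ∀ (θ : ℂ) (t : ℝ), 0 < t → t ≤ 1 / (2 * (1 + ‖θ‖)) →
      1 - θ * t ≠ 0 ∧ ‖1 - θ * t‖ ≤ 2 := by
    intro θ t ht ht2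
    have h1 : ‖θ * (t : ℂ)‖ ≤ 1 / 2 := by
      rw [norm_mul, Complex.norm_real, Real.norm_of_nonneg ht.le]
      rw [le_div_iff₀ (by positivity)] at ht2
      nlinarith [norm_nonneg θ]
    constructor
    · intro h0
      have h2 : θ * (t : ℂ) = 1 := (sub_eq_zero.1 h0).symm
      rw [h2, norm_one] at h1
      linarith
    · have := norm_sub_le (1 : ℂ) (θ * t)
      rw [norm_one] at this
      linarith
  have haff := affine_small (a := η₁ - η₂) (b := η₂ * θ₁ - η₁ * θ₂) (C := C * 4) hr0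
    (by positivity) (by
      intro t ht htr
      have ht1 : t ≤ ρ := htr.trans (min_le_left _ _)
      have ht2 : t ≤ 1 / (2 * A) := htr.trans ((min_le_right _ _).trans (min_le_left _ _))
      have ht3 : t ≤ 1 / (2 * B) := htr.trans ((min_le_right _ _).trans (min_le_right _ _))
      obtain ⟨n1, b1⟩ := hbound θ₁ t ht ht2
      obtain ⟨n2, b2⟩ := hbound θ₂ t ht ht3
      have hnt : ‖(t : ℂ)‖ = t := by rw [Complex.norm_real, Real.norm_of_nonneg ht.le]
      have h1 := h (t : ℂ) (by rw [hnt]; exact ht1)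
      rw [hnt] at h1
      have h2 : mob η₁ θ₁ t - mob η₂ θ₂ t = t * ((η₁ - η₂) + (η₂ * θ₁ - η₁ * θ₂) * t) /
          ((1 - θ₁ * t) * (1 - θ₂ * t)) := by
        unfold mob
        rw [div_sub_div _ _ n1 n2]
        congr 1
        ring
      rw [h2, norm_div, norm_mul, hnt, norm_mul] at h1
      have hp : 0 < ‖1 - θ₁ * (t : ℂ)‖ * ‖1 - θ₂ * (t : ℂ)‖ :=
        mul_pos (norm_pos_iff.2 n1) (norm_pos_iff.2 n2)
      rw [div_le_iff₀ hp] at h1
      have h4 : ‖1 - θ₁ * (t : ℂ)‖ * ‖1 - θ₂ * (t : ℂ)‖ ≤ 4 := by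
        have := mul_le_mul b1 b2 (norm_nonneg _) (by norm_num)
        linarith
      have h5 : C * t ^ 3 * (‖1 - θ₁ * (t : ℂ)‖ * ‖1 - θ₂ * (t : ℂ)‖) ≤ C * t ^ 3 * 4 :=
        mul_le_mul_of_nonneg_left h4 (by positivity)
      have h6 : t * ‖(η₁ - η₂) + (η₂ * θ₁ - η₁ * θ₂) * (t : ℂ)‖ ≤ t * (C * 4 * t ^ 2) := by
        calc _ ≤ _ := h1.trans h5
          _ = _ := by ring
      exact le_of_mul_le_mul_left h6 ht)
  obtain ⟨h1, h2⟩ := haff
  have h3 : η₁ = η₂ := sub_eq_zero.1 h1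
  refine ⟨h3, ?_⟩
  rw [h3, ← mul_sub] at h2
  exact sub_eq_zero.1 ((mul_eq_zero.1 h2).resolve_left hη)


end MQdAux

variable {X E : Type*} [MetricSpace X] [CompactSpace X] [NormedAddCommGroup E]
  [InnerProductSpace ℝ E] [FiniteDimensional ℝ E]

/-- W8: local Moebius quadrilaterals. -/
theorem qd_loc {S : HypSys X E} {c : CF S} (T : TH c) (h : MobProp T Set.univ) : QdLoc T := by
  obtain ⟨εm, hεm, hεmT, hmob⟩ := h
  have hTε := T.ε_le
  obtain ⟨εc, hεc, hcor⟩ := exists_corner S (εm / 2) (by positivity)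
  obtain ⟨ρ, hρ, hsurj⟩ := c.surj (min εc (εm / 2)) (lt_min hεc (by positivity))
  refine ⟨min εc (εm / 2), lt_min hεc (by positivity), (min_le_right _ _).trans (by linarith), ?_⟩
  intro y y' w w' hyy hyw hww hyw'
  have hyy1 : S.SRel εm y y' := hyy.mono ((min_le_right _ _).trans (by linarith))
  have hyw1 : S.URel (εm / 2) y w := hyw.mono (min_le_right _ _)
  have hww1 : S.SRel (εm / 2) w w' := hww.mono (min_le_right _ _)
  have hyw1' : S.URel (εm / 2) y' w' := hyw'.mono (min_le_right _ _)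
  have hu : UAsym S y w := c.geo.uasym _ _ (hyw1.mono (by linarith))
  have hu' : UAsym S y' w' := c.geo.uasym _ _ (hyw1'.mono (by linarith))
  have hsw : SAsym S w w' := c.geo.sasym _ _ (hww1.mono (by linarith))
  have hτ := c.tau_ne_zero hu
  have hτ' := c.tau_ne_zero hu'
  have h1 := hmob y (Set.mem_univ y) y' w w' hyy1 (hyw1.mono (by linarith))
    (hww1.mono (by linarith)) (hyw1'.mono (by linarith))
  set b := c.lc y w with hb
  set τ := c.tau y w with hτd
  set τ' := c.tau y' w' with hτd'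
  set η := c.eta y y' with hη
  set θ := T.th y y' with hθ
  have hhalf := T.half y y' w (hyy1.mono hεmT) (hyw1.mono (by linarith))
  rw [← hθ, ← hb] at hhalf
  have hD : 1 - θ * b ≠ 0 := by
    intro h0
    have h2 : θ * b = 1 := (sub_eq_zero.1 h0).symm
    rw [h2, norm_one] at hhalf
    linarith
  set η₁ : ℂ := τ' * η / ((1 - θ * b) ^ 2 * τ) with hη₁
  set θ₁ : ℂ := θ / ((1 - θ * b) * τ) with hθ₁
  have hjet := MQdAux.mob_jet (η₁ := η₁) (θ₁ := θ₁) (η₂ := c.eta w w') (θ₂ := T.th w w') hρ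
    T.C_pos.le (c.eta_ne_zero hsw) (by
      intro a ha
      obtain ⟨q, hq, hqa⟩ := hsurj w a ha
      have hq1 : S.URel (εm / 2) w q := hq.mono (min_le_right _ _)
      obtain ⟨q', hq', hqq⟩ := hcor w w' q (hww.mono (min_le_left _ _)) (hq.mono (min_le_left _ _))
      have huq : UAsym S w q := c.geo.uasym _ _ (hq1.mono (by linarith))
      have huq' : UAsym S w' q' := c.geo.uasym _ _ (hq'.mono (by linarith))
      have hyq : S.URel εm y q := (hyw1.trans hq1).mono (by linarith)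
      have hyq' : S.URel εm y' q' := (hyw1'.trans hq').mono (by linarith)
      have h2 := hmob y (Set.mem_univ y) y' q q' hyy1 hyq (hqq.mono (by linarith)) hyq'
      rw [← hη, ← hθ] at h2
      have hbase := c.base y w q hu (hu.trans huq)
      rw [hqa, ← hτd, ← hb] at hbase
      have hlq : c.lc y q = b + a / τ := by
        rw [hbase, mul_div_cancel_left₀ _ hτ]
        ring
      have hbase' := c.base y' w' q' hu' (hu'.trans huq')
      rw [← hτd', h1, h2, hlq] at hbase'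
      have hhalf2 := T.half y y' q (hyy1.mono hεmT) (hyq.mono hεmT)
      rw [← hθ, hlq] at hhalf2
      have hD2 : 1 - θ * (b + a / τ) ≠ 0 := by
        intro h0
        have h2 : θ * (b + a / τ) = 1 := (sub_eq_zero.1 h0).symm
        rw [h2, norm_one] at hhalf2
        linarith
      have hval : c.lc w' q' = mob η₁ θ₁ a := by
        rw [hbase']
        have e1 : 1 - θ₁ * a = (1 - θ * (b + a / τ)) / (1 - θ * b) := by
          rw [hθ₁, eq_div_iff hD, sub_mul, one_mul]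
          have : θ / ((1 - θ * b) * τ) * a * (1 - θ * b) = θ * (a / τ) := by
            field_simp
          rw [this]
          ring
        have e2 : mob η₁ θ₁ a = τ' * η * (a / τ) / ((1 - θ * b) * (1 - θ * (b + a / τ))) := by
          unfold mob
          rw [e1, hη₁, div_div_eq_mul_div, eq_div_iff (mul_ne_zero hD hD2), div_mul_eq_mul_div,
            div_eq_iff hD2]
          field_simp
        rw [e2]
        unfold mob
        rw [div_sub_div _ _ hD2 hD, mul_div_assoc']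
        rw [mul_comm (1 - θ * (b + a / τ)) (1 - θ * b)]
        congr 1
        ring
      have hcub := T.cubic w w' q q' (hww1.mono (by linarith)) (hq1.mono (by linarith))
        (hqq.mono (by linarith)) (hq'.mono (by linarith))
      rw [hqa, hval] at hcub
      exact hcub)
  obtain ⟨hj1, hj2⟩ := hjet
  refine ⟨c.geo.sasym _ _ (hyy1.mono (by linarith)), hu, hsw, hu', hD, h1, ?_, ?_⟩
  · rw [← hj1, hη₁, ← hτd, ← hτd', ← hη, ← hθ, ← hb]
    field_simp
  · rw [← hj2, hθ₁, ← hτd, ← hθ, ← hb]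
    field_simp

end Pool.Agent.H779R2.Mo
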