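import Pool.Agent.H779R2.Mo.MDef

set_option autoImplicit false

namespace Pool.Agent.H779R2.Mo

open Pool.Agent.H721R2 Pool.Agent.H779R2.An Filter Topology MeasureTheory
open scoped BigOperators

variable {X E : Type*} [MetricSpace X] [CompactSpace X] [NormedAddCommGroup E]
  [InnerProductSpace ℝ E] [FiniteDimensional ℝ E]

/-- W11: boundedness of the sums. -/
theorem af_bdd {S : HypSys X E} (c : CF S) (s : ℝ) (hs : 0 < s) (hs2 : s ≤ 2) (n : ℕ) :
    BddAbove {t | ∃ x Q, DSep c n x 1 1 Q ∧ t = dsum c s n Q} := by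
  sorry

end Pool.Agent.H779R2.Mo
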