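import Pool.Agent.H779R2.Mo.MDef

set_option autoImplicit false

namespace Pool.Agent.H779R2.Mo

open Pool.Agent.H721R2 Pool.Agent.H779R2.An Filter Topology MeasureTheory
open scoped BigOperators

/-- greedy selection -/
theorem dsel_greedy {Y : Type*} [DecidableEq Y] (N : Y → Y → Prop) (w : Y → ℝ) (D : ℝ) (hD : 0 ≤ D)
    (hsymm : ∀ a b, N a b → N b a) :
    ∀ (k : ℕ) (Q : Finset Y), Q.card ≤ k → (∀ q ∈ Q, 0 ≤ w q) →
      (∀ q ∈ Q, ∀ A ⊆ Q, (∀ a ∈ A, a = q ∨ N q a) → (A.card : ℝ) ≤ D) →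
      ∃ Q' ⊆ Q, (∀ q ∈ Q', ∀ q' ∈ Q', q ≠ q' → ¬ N q q') ∧ ∑ q ∈ Q, w q ≤ D * ∑ q ∈ Q', w q := by
  classical
  intro k
  induction k with
  | zero =>
    intro Q hQ _ _
    have h0 : Q = ∅ := Finset.card_eq_zero.1 (by omega)
    subst h0
    exact ⟨∅, subset_rfl, by simp, by simp⟩
  | succ k ih =>
    intro Q hQ hw hN
    rcases Q.eq_empty_or_nonempty with h0 | hne
    · subst h0
      exact ⟨∅, subset_rfl, by simp, by simp⟩
    obtain ⟨q, hq, hmax⟩ := Finset.exists_max_image Q w hne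
    set A : Finset Y := Q.filter (fun a => a = q ∨ N q a) with hA
    set B : Finset Y := Q.filter (fun a => ¬ (a = q ∨ N q a)) with hB
    have hBQ : B ⊆ Q := Finset.filter_subset _ _
    have hqB : q ∉ B := by
      intro h
      exact (Finset.mem_filter.1 h).2 (Or.inl rfl)
    have hcard : B.card ≤ k := by
      have h1 : B ⊆ Q.erase q := by
        intro b hb
        exact Finset.mem_erase.2 ⟨fun h => hqB (h ▸ hb), hBQ hb⟩
      have h2 := Finset.card_le_card h1
      rw [Finset.card_erase_of_mem hq] at h2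
      omega
    obtain ⟨Q', hQ', hind, hsum⟩ := ih B hcard (fun a ha => hw a (hBQ ha))
      (fun b hb C hC hC2 => hN b (hBQ hb) C (hC.trans hBQ) hC2)
    have hqQ' : q ∉ Q' := fun h => hqB (hQ' h)
    refine ⟨insert q Q', Finset.insert_subset hq (hQ'.trans hBQ), ?_, ?_⟩
    · intro a ha b hb hab
      rcases Finset.mem_insert.1 ha with h1 | h1
      · rcases Finset.mem_insert.1 hb with h2 | h2
        · exact absurd (h1.trans h2.symm) hab
        · intro h3
          rw [h1] at h3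
          exact (Finset.mem_filter.1 (hQ' h2)).2 (Or.inr h3)
      · rcases Finset.mem_insert.1 hb with h2 | h2
        · intro h3
          rw [h2] at h3
          exact (Finset.mem_filter.1 (hQ' h1)).2 (Or.inr (hsymm _ _ h3))
        · exact hind a h1 b h2 hab
    · have hAle : ∑ a ∈ A, w a ≤ D * w q := by
        have h1 : ∑ a ∈ A, w a ≤ ∑ _a ∈ A, w q :=
          Finset.sum_le_sum (fun a ha => hmax a (Finset.mem_filter.1 ha).1)
        rw [Finset.sum_const, nsmul_eq_mul] at h1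
        refine h1.trans (mul_le_mul_of_nonneg_right ?_ (hw q hq))
        exact hN q hq A (Finset.filter_subset _ _) (fun a ha => (Finset.mem_filter.1 ha).2)
      have hsplit : ∑ a ∈ Q, w a = ∑ a ∈ A, w a + ∑ a ∈ B, w a :=
        (Finset.sum_filter_add_sum_filter_not Q _ w).symm
      rw [hsplit, Finset.sum_insert hqQ', mul_add]
      exact add_le_add hAle hsum

variable {X E : Type*} [MetricSpace X] [CompactSpace X] [NormedAddCommGroup E]
  [InnerProductSpace ℝ E] [FiniteDimensional ℝ E]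

theorem dsel_Lp_mono {S : HypSys X E} (c : CF S) (n m : ℕ) (x : X) :
    ‖c.Lp n x‖ ≤ ‖c.Lp (n + m) x‖ := by
  induction m with
  | zero => exact le_rfl
  | succ m ih =>
    refine ih.trans ?_
    rw [← add_assoc, c.Lp_succ, norm_mul]
    have h1 := c.lam_ge (S.g^[n + m] x)
    have h2 := norm_nonneg (c.Lp (n + m) x)
    nlinarith

theorem dsel_swap {S : HypSys X E} (c : CF S) {u u' : X} (h : UAsym S u' u) :
    ‖c.lc u u'‖ = ‖c.tau u' u‖ * ‖c.lc u' u‖ := by
  have h1 := c.base u' u u' h (h.trans h.symm)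
  rw [c.lc_self, zero_sub] at h1
  rw [h1, norm_mul, norm_neg]

/-- W12: selection of a separated subset at an earlier time. -/
theorem dsel {S : HypSys X E} (c : CF S) (s : ℝ) (hs : 0 < s) (ρ θ : ℝ) (hρ : 0 < ρ)
    (hθ : 0 < θ) (m : ℕ) : ∃ C : ℝ, 0 < C ∧ ∀ (n : ℕ) (x : X) (Q : Finset X),
      DSep c (n + m) x ρ θ Q → ∃ Q' ⊆ Q, DSep c n x ρ 1 Q' ∧
        dsum c s (n + m) Q ≤ C * dsum c s n Q' := by
  classical
  obtain ⟨C₁, hC₁, hb₁⟩ := tau_bound c 1
  have hM := c.one_le_M
  set R : ℝ := c.M ^ m * C₁ with hR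
  have hMm : (1 : ℝ) ≤ c.M ^ m := one_le_pow₀ hM
  have hRpos : 0 < R := by positivity
  obtain ⟨C₂, hC₂, hb₂⟩ := tau_bound c R
  have hC₂pos : 0 < C₂ := by linarith
  set D : ℝ := (2 * R / (θ / C₂) + 1) ^ 2 with hD
  have hDpos : 0 < D := by positivity
  refine ⟨D, hDpos, ?_⟩
  intro n x Q hQ
  have hasym : ∀ q ∈ Q, ∀ q' ∈ Q, UAsym S q q' := fun q hq q' hq' =>
    (hQ.mem q hq).1.symm.trans (hQ.mem q' hq').1
  obtain ⟨Q', hQ', hind, hsum⟩ := dsel_greedy
    (fun a b : X => ‖c.lc (S.g^[n] a) (S.g^[n] b)‖ < 1 ∨ ‖c.lc (S.g^[n] b) (S.g^[n] a)‖ < 1)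
    (fun q => fr c (n + m) q ^ s) D hDpos.le (fun a b h => h.symm) Q.card Q le_rfl
    (fun q _ => Real.rpow_nonneg (inv_nonneg.2 (norm_nonneg _)) _) (by
      intro q hq A hA hnb
      have hnear : ∀ a ∈ A, ‖c.lc (S.g^[n + m] q) (S.g^[n + m] a)‖ ≤ R := by
        intro a ha
        have hua : UAsym S q a := hasym q hq a (hA ha)
        have h1 : ‖c.lc (S.g^[n] q) (S.g^[n] a)‖ ≤ C₁ := by
          rcases hnb a ha with h2 | h2 | h2
          · rw [h2, c.lc_self, norm_zero]
            linarith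
          · linarith
          · have h3 : UAsym S (S.g^[n] a) (S.g^[n] q) := (hua.iter n).symm
            rw [dsel_swap c h3]
            have h4 := (hb₁ _ _ h3 h2.le).1
            have h5 := norm_nonneg (c.lc (S.g^[n] a) (S.g^[n] q))
            have h6 := norm_nonneg (c.tau (S.g^[n] a) (S.g^[n] q))
            nlinarith
        rw [add_comm n m, Function.iterate_add_apply, Function.iterate_add_apply,
          K15.lc_iter c (hua.iter n) m, norm_mul]
        exact mul_le_mul (K15.Lp_le c m _) h1 (norm_nonneg _) (by positivity)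
      refine K15.packing A (fun a => c.lc (S.g^[n + m] q) (S.g^[n + m] a)) 0 R (θ / C₂) hRpos.le
        (by positivity) (fun a ha => by rw [sub_zero]; exact hnear a ha) ?_
      intro a ha b hb hab
      have hua : UAsym S (S.g^[n + m] q) (S.g^[n + m] a) := (hasym q hq a (hA ha)).iter (n + m)
      have hub : UAsym S (S.g^[n + m] q) (S.g^[n + m] b) := (hasym q hq b (hA hb)).iter (n + m)
      have h1 := c.base _ _ _ hua hub
      have h2 := hQ.sep a (hA ha) b (hA hb) hab
      rw [h1, norm_mul, norm_sub_rev] at h2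
      have h3 := (hb₂ _ _ hua (hnear a ha)).1
      rw [div_le_iff₀ hC₂pos]
      refine h2.trans ?_
      rw [mul_comm]
      exact mul_le_mul_of_nonneg_left h3 (norm_nonneg _))
  refine ⟨Q', hQ', ⟨fun q hq => hQ.mem q (hQ' hq), ?_⟩, ?_⟩
  · intro q hq q' hq' hne
    have h1 := hind q hq q' hq' hne
    push Not at h1
    exact h1.1
  · refine hsum.trans ?_
    apply mul_le_mul_of_nonneg_left _ hDpos.le
    unfold dsum
    apply Finset.sum_le_sum
    intro q _
    apply Real.rpow_le_rpow (inv_nonneg.2 (norm_nonneg _)) _ hs.le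
    unfold fr
    exact inv_anti₀ (K15.Lp_pos c n q) (dsel_Lp_mono c n m q)

end Pool.Agent.H779R2.Mo
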