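import Pool.Agent.H779R2.To.GMain
import Pool.Agent.H779R2.Mo.MMain
import Pool.Agent.H779R2.An.MainL
import Pool.Agent.H779R2.An.MainC

set_option autoImplicit false
set_option linter.unusedSectionVars false

open scoped Manifold ContDiff Topology Bundle
open Set Filter Bundle

namespace Pool.Agent.H779R2.Mo

open Pool.Agent.H721R2 Pool.Agent.H789R2.AN Pool.Agent.H789R2.GP Pool.Agent.H779R2.An
  Pool.Agent.H779R2.To

section abs

variable {X E : Type*} [MetricSpace X] [CompactSpace X] [NormedAddCommGroup E]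
  [InnerProductSpace ℝ E] [FiniteDimensional ℝ E]

/-- Abstract theorem: conjugacy to a hyperbolic toral automorphism. -/
theorem abstract_toral2 {E' : Type*} [NormedAddCommGroup E'] [NormedSpace ℝ E']
    [ProperSpace E'] [ChartedSpace E' X] [ConnectedSpace X] (S : HypSys X E)
    {Q r : ℝ} (hQ : Quad S Q r) (J₀ : CJ0 S) (d : ℕ) (hd : 2 ≤ d)
    (hfu : ∀ x, Module.finrank ℝ (S.Vu x) = 2) (hfs : ∀ x, Module.finrank ℝ (S.Vs x) = d)
    (f : X ≃ₜ X) (n : ℕ) (hn : 1 ≤ n) (hf : ∀ x, f^[n] x = S.g x) : IsToral f := by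
  obtain ⟨F, J, c, T, hc, hT⟩ := exists_qs_conf S hQ J₀ d hd hfu hfs
  obtain ⟨c₀, hLP⟩ := exists_LP S
  obtain ⟨q, hq, p, hp⟩ := S.exists_periodic
  exact exists_tdat (E' := E') J hfu hLP hc hT p q hq hp f n hn hf

/-- Abstract theorem: covering by a vector space. -/
theorem abstract_cov2 {E' : Type*} [NormedAddCommGroup E'] [NormedSpace ℝ E']
    [ProperSpace E'] [ChartedSpace E' X] [ConnectedSpace X] (S : HypSys X E)
    {Q r : ℝ} (hQ : Quad S Q r) (J₀ : CJ0 S) (d : ℕ) (hd : 2 ≤ d)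
    (hfu : ∀ x, Module.finrank ℝ (S.Vu x) = 2) (hfs : ∀ x, Module.finrank ℝ (S.Vs x) = d) :
    ∃ q₀ : E' → X, IsCoveringMap q₀ := by
  obtain ⟨F, J, c, T, hc, hT⟩ := exists_qs_conf S hQ J₀ d hd hfu hfs
  obtain ⟨c₀, hLP⟩ := exists_LP S
  obtain ⟨q, hq, p, hp⟩ := S.exists_periodic
  exact exists_covering hLP hc T p q hq hp

end abs

/-- Conjugacy to a hyperbolic toral automorphism, and covering by the model space. -/
theorem main_conf (E : Type*) [NormedAddCommGroup E] [NormedSpace ℝ E] [FiniteDimensional ℝ E]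
    (M : Type*) [TopologicalSpace M] [T2Space M] [CompactSpace M] [ConnectedSpace M]
    [ChartedSpace E M] [IsManifold 𝓘(ℝ, E) ∞ M] (f : Diffeomorph 𝓘(ℝ, E) 𝓘(ℝ, E) M M 1)
    (hf2 : ContMDiff 𝓘(ℝ, E) 𝓘(ℝ, E) 2 f) (hf2' : ContMDiff 𝓘(ℝ, E) 𝓘(ℝ, E) 2 f.symm)
    (Es Eu : ∀ x : M, Submodule ℝ (TangentSpace 𝓘(ℝ, E) x)) (hA : IsAnosov f Es Eu)
    (ds du : ℕ) (hds : ∀ x, Module.finrank ℝ (Es x) = ds)
    (hdu : ∀ x, Module.finrank ℝ (Eu x) = du)
    (hJ : (du = 2 ∧ 2 ≤ ds ∧ ∃ J, InvComplexOn f Eu J) ∨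
      (ds = 2 ∧ 2 ≤ du ∧ ∃ J, InvComplexOn f Es J)) :
    IsToral f ∧ ∃ q : E → M, IsCoveringMap q ∧ Function.Surjective q := by
  obtain ⟨m, e, he, hemb, hinj⟩ := exists_embedding_euclidean_of_compact (I := 𝓘(ℝ, E)) (M := M)
  let _ : MetricSpace M := hemb.isEmbedding.comapMetricSpace e
  have hiso : ∀ x y : M, dist x y = ‖e x - e y‖ := fun x y => dist_eq_norm (e x) (e y)
  have he1 : ContMDiff 𝓘(ℝ, E) (𝓡 m) 1 e := he.of_le (by simp)
  have he2 : ContMDiff 𝓘(ℝ, E) (𝓡 m) 2 e := he.of_le (by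
    exact_mod_cast (ENat.LEInfty.out : (2 : WithTop ℕ∞) ≤ ∞))
  obtain ⟨C', a, b, Ls, Lu, hE⟩ := eanosov_of_isAnosov e he1 hinj f Es Eu hA
  obtain ⟨K, hK, hang⟩ := hE.angle he1 hinj
  have t1 : Tendsto (fun n : ℕ => K * (C' * a ^ n)) atTop (𝓝 0) := by
    have := ((tendsto_pow_atTop_nhds_zero_of_lt_one hE.a_pos.le hE.a_lt).const_mul C').const_mul K
    simpa using this
  have t2 : Tendsto (fun n : ℕ => K * (C' * b ^ n)) atTop (𝓝 0) := by
    have := ((tendsto_pow_atTop_nhds_zero_of_lt_one hE.b_pos.le hE.b_lt).const_mul C').const_mul K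
    simpa using this
  obtain ⟨n, ⟨hn1, hn2⟩, hn3⟩ := ((((tendsto_order.mp t1).2 (1 / 16) (by norm_num)).and
    ((tendsto_order.mp t2).2 (1 / 16) (by norm_num))).and (eventually_ge_atTop 1)).exists
  obtain ⟨S, hS⟩ := exists_realizes hiso he1 hinj hE K hK hang n hn1.le hn2.le
  obtain ⟨Q, r, hQ⟩ := quad_of_realizes hiso he2 hinj hE hf2 hf2' hS
  have hfin : ∀ (x : M) (V : Submodule ℝ E),
      Module.finrank ℝ (V.map (dm E e x).toLinearMap) = Module.finrank ℝ V := fun x V =>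
    (LinearEquiv.finrank_eq (Submodule.equivMapOfInjective (dm E e x).toLinearMap (hinj x) V)).symm
  have hfs : ∀ x, Module.finrank ℝ (S.Vs x) = ds := fun x => by
    rw [hS.Vs_eq, hfin]; exact hds x
  have hfu : ∀ x, Module.finrank ℝ (S.Vu x) = du := fun x => by
    rw [hS.Vu_eq, hfin]; exact hdu x
  have hgn : ∀ x, f^[n] x = S.g x := fun x => by rw [hS.g_eq]; rfl
  have key : IsToral f ∧ ∃ q : E → M, IsCoveringMap q := by
    rcases hJ with ⟨h2, hle, J, hJ⟩ | ⟨h2, hle, J, hJ⟩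
    · obtain ⟨J₀⟩ := cj0_of_realizes hiso he1 hinj hE J hJ hS
      exact ⟨abstract_toral2 (E' := E) S hQ J₀ ds hle (fun x => (hfu x).trans h2) hfs
        f.toHomeomorph n hn3 hgn,
        abstract_cov2 (E' := E) S hQ J₀ ds hle (fun x => (hfu x).trans h2) hfs⟩
    · obtain ⟨J₀⟩ := cj0_of_realizes hiso he1 hinj hE.symm J (invComplexOn_symm hE hJ) hS.symm
      refine ⟨IsToral.inv f.toHomeomorph ?_,
        abstract_cov2 (E' := E) S.symm hQ.symm J₀ du hle (fun x => (hfs x).trans h2) hfu⟩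
      refine abstract_toral2 (E' := E) S.symm hQ.symm J₀ du hle (fun x => (hfs x).trans h2)
        hfu f.toHomeomorph.symm n hn3 ?_
      intro x
      apply (Function.Injective.iterate f.toHomeomorph.injective n)
      have h1 : (f.toHomeomorph)^[n] ((f.toHomeomorph.symm)^[n] x) = x :=
        (Function.LeftInverse.iterate f.toHomeomorph.apply_symm_apply n) x
      have h3 : (f.toHomeomorph)^[n] (S.symm.g x) = S.g (S.g.symm x) := hgn _
      rw [h1, h3, Homeomorph.apply_symm_apply]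
  obtain ⟨hT, q, hq⟩ := key
  exact ⟨hT, q, hq, covering_surj hq⟩

/-- The three forms of the hypothesis. -/
theorem conf_cases (E : Type*) [NormedAddCommGroup E] [NormedSpace ℝ E] [FiniteDimensional ℝ E]
    (M : Type*) [TopologicalSpace M] [T2Space M] [CompactSpace M] [ConnectedSpace M]
    [ChartedSpace E M] [IsManifold 𝓘(ℝ, E) ∞ M] (f : Diffeomorph 𝓘(ℝ, E) 𝓘(ℝ, E) M M 1)
    (Es Eu : ∀ x : M, Submodule ℝ (TangentSpace 𝓘(ℝ, E) x)) (hA : IsAnosov f Es Eu)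
    (ds du : ℕ) (hds : ∀ x, Module.finrank ℝ (Es x) = ds)
    (hdu : ∀ x, Module.finrank ℝ (Eu x) = du)
    (hJ : (du = 2 ∧ 2 ≤ ds ∧ ∃ J, InvComplexOn f Eu J) ∨
      (ds = 2 ∧ 2 ≤ du ∧ ∃ J, InvComplexOn f Es J) ∨
      ((du = 2 ∨ ds = 2) ∧ 1 ≤ ds ∧ 1 ≤ du ∧
        ∃ J : ∀ x : M, TangentSpace 𝓘(ℝ, E) x →ₗ[ℝ] TangentSpace 𝓘(ℝ, E) x, PreservesAC f J)) :
    (du = 2 ∧ 2 ≤ ds ∧ ∃ J, InvComplexOn f Eu J) ∨
      (ds = 2 ∧ 2 ≤ du ∧ ∃ J, InvComplexOn f Es J) := by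
  rcases hJ with h | h | ⟨h2, h3, h4, J, h⟩
  · exact Or.inl h
  · exact Or.inr h
  · obtain ⟨hs, hu⟩ := h.invComplexOn hA
    obtain ⟨x⟩ : Nonempty M := inferInstance
    haveI : FiniteDimensional ℝ (TangentSpace 𝓘(ℝ, E) x) := inferInstanceAs (FiniteDimensional ℝ E)
    have e1 : 2 ≤ ds := by
      have := two_le_finrank_of_sq (Es x) (J x) (hs.mem x) (hs.sq x) (h3.trans (hds x).ge)
      exact this.trans (hds x).le
    have e2 : 2 ≤ du := by
      have := two_le_finrank_of_sq (Eu x) (J x) (hu.mem x) (hu.sq x) (h4.trans (hdu x).ge)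
      exact this.trans (hdu x).le
    rcases h2 with h2 | h2
    · exact Or.inl ⟨h2, e1, J, hu⟩
    · exact Or.inr ⟨h2, e2, J, hs⟩

end Pool.Agent.H779R2.Mo
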